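import Pool.Agent.ER.Hard

/-!
# Drawing a plane graph with its vertices on given segments

Definitions of the decision problem: a plane graph (rotation system and outer face), a line segment
with rational endpoints for every vertex, and a list of obstacles.
-/

namespace Pool.Agent.K4H90.SegDraw

open Pool.Agent.NPC

/-- A line segment in the plane: its two end points, with rational coordinates, which may coincide,
and a flag telling whether the segment is closed (end points included) or open. -/
structure Seg where
  /-- first end point -/
  p : ℚ × ℚ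
  /-- second end point -/
  q : ℚ × ℚ
  /-- closed or open -/
  closed : Bool
  deriving DecidableEq

/-- The point of the real plane with given rational coordinates. -/
def toR (p : ℚ × ℚ) : ℝ × ℝ := ((p.1 : ℝ), (p.2 : ℝ))

/-- The point set of a segment: all points between the two end points, the end points being
included exactly if the segment is closed.  If the two end points are the same point `p`, this is
`{p}`, whether the segment is closed or open. -/
def Seg.pts (s : Seg) : Set (ℝ × ℝ) :=
  if s.closed = true then segment ℝ (toR s.p) (toR s.q) else openSegment ℝ (toR s.p) (toR s.q)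

/-- An instance of the problem. -/
structure Inst where
  /-- for every vertex: its name, its segment, and the list of its neighbours in counterclockwise
  order (the rotation at the vertex) -/
  verts : List (ℕ × Seg × List ℕ)
  /-- a directed edge that has the outer face on its left side -/
  outer : ℕ × ℕ
  /-- the obstacles -/
  obstacles : List Seg

instance : TEnc Seg := ⟨fun s => toT (s.p, s.q, s.closed), fun s t h => by
  have h1 := TEnc.inj h
  cases s; cases t
  simp only [Prod.mk.injEq] at h1
  simp [h1]⟩

instance : TEnc Inst := ⟨fun s => toT (s.verts, s.outer, s.obstacles), fun s t h => by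
  have h1 := TEnc.inj h
  cases s; cases t
  simp only [Prod.mk.injEq] at h1
  simp [h1]⟩

/-- The names of the vertices. -/
def Inst.names (I : Inst) : List ℕ := I.verts.map (fun e => e.1)

/-- `v` is in the list of the neighbours of `u`. -/
def Inst.Nbr (I : Inst) (u v : ℕ) : Prop := ∃ e ∈ I.verts, e.1 = u ∧ v ∈ e.2.2

/-- The lists of neighbours describe a rotation system of a finite connected simple graph: the
vertices have different names, the list of every vertex contains every neighbour once and does not
contain the vertex itself, neighbourhood is symmetric, the graph is connected, and the directed edge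
that marks the outer face is an edge of the graph. -/
structure Inst.Rotation (I : Inst) : Prop where
  nodup : I.names.Nodup
  rot_nodup : ∀ e ∈ I.verts, e.2.2.Nodup
  loopless : ∀ u, ¬ I.Nbr u u
  symm : ∀ u v, I.Nbr u v → I.Nbr v u
  connected : ∀ u ∈ I.names, ∀ v ∈ I.names, Relation.ReflTransGen I.Nbr u v
  outer_edge : I.Nbr I.outer.1 I.outer.2

/-- Seen from the position of `u`, the positions of the vertices in the list `l` come in this
counterclockwise order (`θ v` is the angle of the direction from `u` to `v`). -/
def RotAt (D : ℕ → ℝ × ℝ) (u : ℕ) (l : List ℕ) : Prop :=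
  ∃ θ : ℕ → ℝ, l.Pairwise (fun v w => θ v < θ w ∧ θ w < θ v + 2 * Real.pi) ∧
    ∀ v ∈ l, ∃ r : ℝ, 0 < r ∧ D v = D u + (r * Real.cos (θ v), r * Real.sin (θ v))

/-- The union of the edges of a straight-line drawing. -/
def Inst.drawn (I : Inst) (D : ℕ → ℝ × ℝ) : Set (ℝ × ℝ) :=
  {p | ∃ u v, I.Nbr u v ∧ p ∈ segment ℝ (D u) (D v)}

/-- The outer face of a drawing: the points of the complement of the drawing whose connected
component in this complement is unbounded. -/
def Inst.outerFace (I : Inst) (D : ℕ → ℝ × ℝ) : Set (ℝ × ℝ) :=
  {p | p ∉ I.drawn D ∧ ¬ Bornology.IsBounded (connectedComponentIn (I.drawn D)ᶜ p)}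

/-- The point at distance `t * |D v - D u|` to the left of the midpoint of the edge directed from
`D u` to `D v`. -/
noncomputable def leftOf (D : ℕ → ℝ × ℝ) (u v : ℕ) (t : ℝ) : ℝ × ℝ :=
  (((D u).1 + (D v).1) / 2 - t * ((D v).2 - (D u).2),
    ((D u).2 + (D v).2) / 2 + t * ((D v).1 - (D u).1))

/-- `D` is a straight-line drawing of the plane graph: the vertices are at different points, two
different edges have no point in common except the position of a common end vertex, the rotation
at every vertex is the given one, and the outer face is on the left side of the marked directed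
edge. -/
structure Inst.IsDrawing (I : Inst) (D : ℕ → ℝ × ℝ) : Prop where
  inj : ∀ u ∈ I.names, ∀ v ∈ I.names, D u = D v → u = v
  plane : ∀ u v u' v', I.Nbr u v → I.Nbr u' v' → s(u, v) ≠ s(u', v') →
    ∀ p ∈ segment ℝ (D u) (D v), p ∈ segment ℝ (D u') (D v') →
      ∃ w, w ∈ s(u, v) ∧ w ∈ s(u', v') ∧ p = D w
  rot : ∀ e ∈ I.verts, RotAt D e.1 e.2.2
  outer : ∃ ε : ℝ, 0 < ε ∧ ∀ t : ℝ, 0 < t → t < ε → leftOf D I.outer.1 I.outer.2 t ∈ I.outerFace D

/-- The instance describes a plane graph: the lists of neighbours form a rotation system of a
connected graph, and this rotation system with this outer face is that of a plane (straight-line)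
drawing. -/
def Inst.PlaneGraph (I : Inst) : Prop := I.Rotation ∧ ∃ D, I.IsDrawing D

/-- The plane graph has a crossing-free straight-line drawing that realises the given embedding,
has every vertex on its segment, and in which no edge meets an obstacle. -/
def Inst.Solvable (I : Inst) : Prop :=
  ∃ D, I.IsDrawing D ∧ (∀ e ∈ I.verts, D e.1 ∈ e.2.1.pts) ∧
    ∀ u v, I.Nbr u v → ∀ s ∈ I.obstacles, ∀ p ∈ segment ℝ (D u) (D v), p ∉ s.pts

/-- `P` is `∃ℝ`-hard on the instances satisfying `Pr`: for every language `L` in `∃ℝ` there is a
polynomial-time many-one reduction of `L` to `P` all of whose instances satisfy `Pr`. -/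
def ERHardOn {α : Type} [TEnc α] (Pr P : α → Prop) : Prop :=
  ∀ L : Set (List Bool), ER.InER L → ∃ f : List Bool → α,
    PolyTime (fun x => bits (f x)) ∧ (∀ x, Pr (f x)) ∧ ∀ x, x ∈ L ↔ P (f x)

theorem ERHardOn.toERHard {α : Type} [TEnc α] {Pr P : α → Prop} (h : ERHardOn Pr P) :
    ER.ERHard (lang fun a => Pr a ∧ P a) := by
  intro L hL
  obtain ⟨f, hf, hp, hfL⟩ := h L hL
  refine ⟨fun x => bits (f x), hf, fun x => ?_⟩
  rw [hfL]
  constructor
  · intro hP
    exact ⟨_, rfl, hp x, hP⟩
  · rintro ⟨a, ha, -, hP⟩
    rwa [bits_injective ha] at hP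

/-- A polynomial-time reduction from satisfiability of systems of constraints `x = 1`,
`x + y = z`, `x * y = z` over the reals shows hardness. -/
theorem ERHardOn.of_sys {α : Type} [TEnc α] {Pr P : α → Prop} {f : List ER.Con → α} (hf : Poly f)
    (hp : ∀ S, Pr (f S)) (h : ∀ S, ER.Sat S ↔ P (f S)) : ERHardOn Pr P := by
  rintro L' ⟨g, hg, hL⟩
  have h1 : PC (id : List Bool → List Bool) (bits : ER.Fm → List Bool) g :=
    H642R2.TMSim.polyTime_toPC hg
  have h2 : Poly (fun φ : ER.Fm => f (ER.sysOf φ)) := Poly.comp hf (ER.poly_sysOf Poly.id)
  have h3 : PC (id : List Bool → List Bool) (bits : α → List Bool) (fun x => f (ER.sysOf (g x))) :=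
    PC.comp (g := fun φ : ER.Fm => f (ER.sysOf φ)) (eb := (bits : ER.Fm → List Bool)) h2 h1
  have h4 : PC (id : List Bool → List Bool) (id : List Bool → List Bool)
    (fun x => bits (f (ER.sysOf (g x)))) := h3
  refine ⟨fun x => f (ER.sysOf (g x)), PC.toPolyTime h4, fun x => hp _, fun x => ?_⟩
  rw [hL, ← ER.sat_sysOf, h]

end Pool.Agent.K4H90.SegDraw
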