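import Pool.Agent.K4H90.Seg.GadSnd

/-!
# Diagrams: gadgets placed in columns
-/

namespace Pool.Agent.K4H90.SegDraw

/-- A diagram: the number of tracks, the number of columns, the gadgets, the group of a track, the
kind of the source of a track. -/
structure Dia where
  /-- number of tracks -/
  N : ℕ
  /-- number of columns -/
  C : ℕ
  /-- the gadget in a column whose lowest track is given -/
  gad : ℕ → ℕ → Gadget
  /-- the first track of the group of a track -/
  grp : ℕ → ℕ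
  /-- kinds of the sources -/
  sk : ℕ → ℕ

/-- Names of vertices. -/
def nm (c l k : ℕ) : ℕ := Nat.pair c (Nat.pair l k)

theorem nm_inj {c l k c' l' k' : ℕ} : nm c l k = nm c' l' k' ↔ c = c' ∧ l = l' ∧ k = k' := by
  unfold nm
  rw [Nat.pair_eq_pair, Nat.pair_eq_pair]

/-- The root. -/
def root : ℕ := nm 0 0 0

/-- The segment of a vertex. -/
def mkSeg (cl : Bool) (X Y k : ℕ) : Seg :=
  if k = 0 then ⟨((X : ℚ), (Y : ℚ)), ((X : ℚ), ((Y + 16 : ℕ) : ℚ)), cl⟩ else
  if k = 1 then ⟨((X : ℚ), ((Y + 8 : ℕ) : ℚ)), ((X : ℚ), ((Y + 8 : ℕ) : ℚ)), cl⟩ else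
  if k = 2 then ⟨((X : ℚ), (Y : ℚ)), (((X + 3 : ℕ) : ℚ), (Y : ℚ)), cl⟩ else
  ⟨((X : ℚ), ((Y + 9 : ℕ) : ℚ)), ((X : ℚ), ((Y + 9 : ℕ) : ℚ)), cl⟩

namespace Dia

variable (G : Dia)

/-- The track of the left port `0`. -/
def hb (l b : ℕ) : ℕ := if l = 0 then G.grp b else b

/-- The name of a local reference. -/
def res (l b : ℕ) (r : Ref) : ℕ :=
  if r.1 = 0 then nm 1 l (G.hb l b + r.2) else if r.1 = 1 then nm 1 (l + 1) (b + r.2) else
    nm (2 + r.2) l b

/-- The right neighbours of a port. -/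
def tR (l k : ℕ) : List ℕ :=
  (List.range G.N).flatMap fun b =>
    if G.hb l b ≤ k then (rl (G.gad l b) (0, k - G.hb l b)).map (G.res l b) else []

/-- The left neighbours of a port. -/
def tL (l k : ℕ) : List ℕ :=
  if l = 0 then [root] else (List.range G.N).flatMap fun b =>
    if b ≤ k then (ll (G.gad (l - 1) b) (1, k - b)).map (G.res (l - 1) b) else []

/-- The entry of a port. -/
def tEnt (cl : Bool) (l k : ℕ) : ℕ × Seg × List ℕ :=
  (nm 1 l k, mkSeg cl (12 * l) (192 * k) (if l = 0 then G.sk k else 0), G.tL l k ++ G.tR l k)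

/-- The entry of an inner vertex. -/
def iEnt (cl : Bool) (l b : ℕ) (w : Row) (i : ℕ) : ℕ × Seg × List ℕ :=
  (nm (2 + i) l b, mkSeg cl (12 * l + w.1)
    (192 * G.hb l b + w.2.1 + 16 * (b - G.hb l b) * w.1) w.2.2.1,
    (w.2.2.2.1 ++ w.2.2.2.2).map (G.res l b))

/-- The entries of a cell. -/
def cellEnt (cl : Bool) (l b : ℕ) : List (ℕ × Seg × List ℕ) :=
  (if l = 0 ∧ G.grp b ≠ b then [] else [G.tEnt cl l b]) ++
    (G.gad l b).1.zipIdx.map fun p => G.iEnt cl l b p.1 p.2

/-- The neighbours of the root. -/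
def rootR : List ℕ :=
  ((List.range G.N).filter fun k => decide (G.grp k = k)).map fun k => nm 1 0 k

/-- The instance of a diagram. -/
def inst (cl : Bool) : Inst where
  verts := (root, ⟨(-2, 0), (-2, 0), cl⟩, G.rootR) ::
    (List.range G.C).flatMap fun l => (List.range G.N).flatMap fun b => G.cellEnt cl l b
  outer := (nm 1 0 0, root)
  obstacles := []

/-- A diagram is well-formed. -/
structure OK : Prop where
  hN : 0 < G.N
  hC : 0 < G.C
  ok : ∀ l < G.C, ∀ b < G.N, GadOK (G.gad l b)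
  num : ∀ l < G.C, ∀ b < G.N, (edgesOf (G.gad l b)).all
    (fun e => decide (xhi (G.gad l b) e.1 < xlo (G.gad l b) e.2)) = true
  fit : ∀ l < G.C, ∀ b < G.N, b + ht (G.gad l b) ≤ G.N
  sep : ∀ l < G.C, ∀ b b', b < b' → b' < G.N → G.gad l b' = emptyG ∨ b + ht (G.gad l b) ≤ b'
  cov : ∀ l, l + 1 < G.C → ∀ k < G.N, ∃ b < G.N, ∃ i, k = b + i ∧ i < (G.gad l b).2.2.length
  last : ∀ b < G.N, (G.gad (G.C - 1) b).2.2.length = 0
  g1 : ∀ k, G.grp k ≤ k
  g2 : ∀ k, G.grp (G.grp k) = G.grp k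
  g3 : ∀ k k', k ≤ k' → G.grp k ≤ G.grp k'
  c0 : ∀ b < G.N, (G.gad 0 b).2.1.length = 1 ∧ (G.gad 0 b).2.2.length = 1

/-- The edges, from left to right. -/
def E (u v : ℕ) : Prop :=
  (u = root ∧ ∃ k < G.N, G.grp k = k ∧ v = nm 1 0 k) ∨
  ∃ l < G.C, ∃ b < G.N, ∃ s r, s ∈ refs (G.gad l b) ∧ r ∈ rl (G.gad l b) s ∧
    u = G.res l b s ∧ v = G.res l b r

variable {G}

theorem hb_le (h : G.OK) (l b : ℕ) : G.hb l b ≤ b := by
  unfold hb
  split_ifs
  · exact h.g1 b
  · exact le_rfl

theorem hb_pos {l : ℕ} (hl : l ≠ 0) (b : ℕ) : G.hb l b = b := if_neg hl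

theorem res_lp (l b i : ℕ) : G.res l b (0, i) = nm 1 l (G.hb l b + i) := by simp [res]

theorem res_rp (l b i : ℕ) : G.res l b (1, i) = nm 1 (l + 1) (b + i) := by simp [res]

theorem res_in (l b i : ℕ) : G.res l b (2, i) = nm (2 + i) l b := by simp [res]

theorem ref_cases {g : Gadget} {r : Ref} (h : r ∈ refs g) :
    (∃ i, i < g.2.1.length ∧ r = (0, i)) ∨ (∃ i, i < g.2.2.length ∧ r = (1, i)) ∨
      ∃ i, i < g.1.length ∧ r = (2, i) := by
  obtain ⟨a, i⟩ := r
  rcases mem_refs.1 h with ⟨h1, h2⟩ | ⟨h1, h2⟩ | ⟨h1, h2⟩ <;> simp only at h1 h2 <;> subst h1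
  · exact Or.inl ⟨i, h2, rfl⟩
  · exact Or.inr (Or.inl ⟨i, h2, rfl⟩)
  · exact Or.inr (Or.inr ⟨i, h2, rfl⟩)

theorem res_ne_root {l b : ℕ} {r : Ref} : G.res l b r ≠ root := by
  unfold res root
  split_ifs <;> · rw [Ne, nm_inj]; omega

theorem refs_of_rl {g : Gadget} {s r : Ref} (h : r ∈ rl g s) : s ∈ refs g := by
  obtain ⟨a, i⟩ := s
  unfold rl at h
  simp only at h
  split_ifs at h with h1 h2
  · subst h1
    refine mem_refs.2 (Or.inl ⟨rfl, ?_⟩)
    by_contra hc
    simp only [not_lt] at hc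
    rw [List.getElem?_eq_none hc] at h
    simp at h
  · subst h2
    refine mem_refs.2 (Or.inr (Or.inr ⟨rfl, ?_⟩))
    by_contra hc
    simp only [not_lt] at hc
    rw [List.getElem?_eq_none hc] at h
    simp at h
  · simp at h

theorem refs_of_ll {g : Gadget} {s r : Ref} (h : r ∈ ll g s) : s ∈ refs g := by
  obtain ⟨a, i⟩ := s
  unfold ll at h
  simp only at h
  split_ifs at h with h1 h2
  · subst h1
    refine mem_refs.2 (Or.inr (Or.inl ⟨rfl, ?_⟩))
    by_contra hc
    simp only [not_lt] at hc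
    rw [List.getElem?_eq_none hc] at h
    simp at h
  · subst h2
    refine mem_refs.2 (Or.inr (Or.inr ⟨rfl, ?_⟩))
    by_contra hc
    simp only [not_lt] at hc
    rw [List.getElem?_eq_none hc] at h
    simp at h
  · simp at h

theorem rl_rp (g : Gadget) (i : ℕ) : rl g (1, i) = [] := by simp [rl]

theorem ll_lp (g : Gadget) (i : ℕ) : ll g (0, i) = [] := by simp [ll]

theorem rl_in {g : Gadget} {i : ℕ} {w : Row} (h : g.1[i]? = some w) : rl g (2, i) = w.2.2.2.2 := by
  simp [rl, h]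

theorem ll_in {g : Gadget} {i : ℕ} {w : Row} (h : g.1[i]? = some w) : ll g (2, i) = w.2.2.2.1 := by
  simp [ll, h]

/-- An edge `s r` of a gadget goes to a right port or an inner vertex, and starts at a left port or
an inner vertex. -/
theorem edge_cases {g : Gadget} (hg : GadOK g) {s r : Ref} (h : r ∈ rl g s) :
    (s.1 = 0 ∨ s.1 = 2) ∧ (r.1 = 1 ∨ r.1 = 2) := by
  have h1 := refs_of_rl h
  obtain ⟨h2, h3, h4, -⟩ := hg.1 s h1 r h
  constructor
  · rcases ref_cases h1 with ⟨i, hi, rfl⟩ | ⟨i, hi, rfl⟩ | ⟨i, hi, rfl⟩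
    · exact Or.inl rfl
    · rw [rl_rp] at h; simp at h
    · exact Or.inr rfl
  · rcases ref_cases h2 with ⟨i, hi, rfl⟩ | ⟨i, hi, rfl⟩ | ⟨i, hi, rfl⟩
    · exact (h3 rfl).elim
    · exact Or.inl rfl
    · exact Or.inr rfl

theorem res_inj {l b : ℕ} {r r' : Ref} {g : Gadget} (h1 : r ∈ refs g) (h2 : r' ∈ refs g)
    (h : G.res l b r = G.res l b r') : r = r' := by
  rcases ref_cases h1 with ⟨i, hi, rfl⟩ | ⟨i, hi, rfl⟩ | ⟨i, hi, rfl⟩ <;>
    rcases ref_cases h2 with ⟨j, hj, rfl⟩ | ⟨j, hj, rfl⟩ | ⟨j, hj, rfl⟩ <;>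
    simp only [res_lp, res_rp, res_in, nm_inj] at h <;>
    first | (exfalso; omega) | (congr 1; omega)

/-! ### Membership in the lists of neighbours -/

theorem mem_tR (h : G.OK) {l k v : ℕ} (hl : l < G.C) : v ∈ G.tR l k ↔ G.E (nm 1 l k) v := by
  unfold tR E
  simp only [List.mem_flatMap, List.mem_range]
  constructor
  · rintro ⟨b, hb, hv⟩
    split_ifs at hv with h1
    · rw [List.mem_map] at hv
      obtain ⟨r, hr, rfl⟩ := hv
      refine Or.inr ⟨l, hl, b, hb, _, r, refs_of_rl hr, hr, ?_, rfl⟩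
      rw [res_lp, nm_inj]
      omega
    · simp at hv
  · rintro (⟨h1, -⟩ | ⟨l', hl', b, hb, s, r, hs, hr, hu, rfl⟩)
    · unfold root at h1
      rw [nm_inj] at h1
      omega
    · rcases (edge_cases (h.ok l' hl' b hb) hr).1 with h0 | h0
      · obtain ⟨a, i⟩ := s
        simp only at h0
        subst h0
        rw [res_lp, nm_inj] at hu
        obtain ⟨-, rfl, rfl⟩ := hu
        refine ⟨b, hb, ?_⟩
        rw [if_pos (Nat.le_add_right _ _), Nat.add_sub_cancel_left]
        exact List.mem_map.2 ⟨r, hr, rfl⟩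
      · obtain ⟨a, i⟩ := s
        simp only at h0
        subst h0
        rw [res_in, nm_inj] at hu
        omega

theorem mem_tL (h : G.OK) {l k v : ℕ} (hl : l < G.C) (hk : k < G.N) (h0 : l = 0 → G.grp k = k) :
    v ∈ G.tL l k ↔ G.E v (nm 1 l k) := by
  unfold tL E
  split_ifs with h1
  · subst h1
    constructor
    · intro hv
      rw [List.mem_singleton] at hv
      exact Or.inl ⟨hv, k, hk, h0 rfl, rfl⟩
    · rintro (⟨h1, -⟩ | ⟨l', hl', b, hb, s, r, hs, hr, hu, hv⟩)
      · simp [h1]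
      · rcases (edge_cases (h.ok l' hl' b hb) hr).2 with h0 | h0
        · obtain ⟨a, i⟩ := r
          simp only at h0
          subst h0
          rw [res_rp, nm_inj] at hv
          omega
        · obtain ⟨a, i⟩ := r
          simp only at h0
          subst h0
          rw [res_in, nm_inj] at hv
          omega
  · simp only [List.mem_flatMap, List.mem_range]
    constructor
    · rintro ⟨b, hb, hv⟩
      split_ifs at hv with h2
      · rw [List.mem_map] at hv
        obtain ⟨s, hs, rfl⟩ := hv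
        have hr := refs_of_ll hs
        obtain ⟨m1, m2, m3⟩ := (h.ok (l - 1) (by omega) b hb).2.1 _ hr _ hs
        refine Or.inr ⟨l - 1, by omega, b, hb, s, _, m1, m3, rfl, ?_⟩
        rw [res_rp, nm_inj]
        omega
      · simp at hv
    · rintro (⟨h1, k', -, -, hv⟩ | ⟨l', hl', b, hb, s, r, hs, hr, rfl, hv⟩)
      · rw [nm_inj] at hv
        omega
      · rcases (edge_cases (h.ok l' hl' b hb) hr).2 with h0 | h0
        · obtain ⟨a, i⟩ := r
          simp only at h0
          subst h0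
          rw [res_rp, nm_inj] at hv
          obtain ⟨-, rfl, rfl⟩ := hv
          refine ⟨b, hb, ?_⟩
          rw [if_pos (Nat.le_add_right _ _), Nat.add_sub_cancel_left, Nat.add_sub_cancel]
          exact List.mem_map.2 ⟨s, ((h.ok l' hl' b hb).1 _ hs _ hr).2.2.1, rfl⟩
        · obtain ⟨a, i⟩ := r
          simp only at h0
          subst h0
          rw [res_in, nm_inj] at hv
          omega

theorem mem_inR (h : G.OK) {l b i v : ℕ} (hl : l < G.C) (hb : b < G.N) :
    v ∈ (rl (G.gad l b) (2, i)).map (G.res l b) ↔ G.E (nm (2 + i) l b) v := by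
  unfold E
  rw [List.mem_map]
  constructor
  · rintro ⟨r, hr, rfl⟩
    exact Or.inr ⟨l, hl, b, hb, _, r, refs_of_rl hr, hr, by rw [res_in], rfl⟩
  · rintro (⟨h1, -⟩ | ⟨l', hl', b', hb', s, r, hs, hr, hu, rfl⟩)
    · unfold root at h1
      rw [nm_inj] at h1
      omega
    · rcases (edge_cases (h.ok l' hl' b' hb') hr).1 with h0 | h0
      · obtain ⟨a, j⟩ := s
        simp only at h0
        subst h0
        rw [res_lp, nm_inj] at hu
        omega
      · obtain ⟨a, j⟩ := s
        simp only at h0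
        subst h0
        rw [res_in, nm_inj] at hu
        obtain ⟨h2, rfl, rfl⟩ := hu
        have : i = j := by omega
        subst this
        exact ⟨r, hr, rfl⟩

theorem mem_inL (h : G.OK) {l b i v : ℕ} (hl : l < G.C) (hb : b < G.N) :
    v ∈ (ll (G.gad l b) (2, i)).map (G.res l b) ↔ G.E v (nm (2 + i) l b) := by
  unfold E
  rw [List.mem_map]
  constructor
  · rintro ⟨s, hs, rfl⟩
    have hr := refs_of_ll hs
    obtain ⟨m1, m2, m3⟩ := (h.ok l hl b hb).2.1 _ hr _ hs
    exact Or.inr ⟨l, hl, b, hb, s, _, m1, m3, rfl, by rw [res_in]⟩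
  · rintro (⟨h1, k', -, -, hv⟩ | ⟨l', hl', b', hb', s, r, hs, hr, rfl, hu⟩)
    · rw [nm_inj] at hv
      omega
    · rcases (edge_cases (h.ok l' hl' b' hb') hr).2 with h0 | h0
      · obtain ⟨a, j⟩ := r
        simp only at h0
        subst h0
        rw [res_rp, nm_inj] at hu
        omega
      · obtain ⟨a, j⟩ := r
        simp only at h0
        subst h0
        rw [res_in, nm_inj] at hu
        obtain ⟨h2, rfl, rfl⟩ := hu
        have : i = j := by omega
        subst this
        exact ⟨s, ((h.ok l hl b hb).1 _ hs _ hr).2.2.1, rfl⟩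

theorem mem_rootR (h : G.OK) {v : ℕ} : v ∈ G.rootR ↔ G.E root v := by
  unfold rootR E
  simp only [List.mem_map, List.mem_filter, List.mem_range, decide_eq_true_eq]
  constructor
  · rintro ⟨k, ⟨hk, hg⟩, rfl⟩
    exact Or.inl ⟨trivial, k, hk, hg, rfl⟩
  · rintro (⟨-, k, hk, hg, rfl⟩ | ⟨l', hl', b', hb', s, r, hs, hr, h1, -⟩)
    · exact ⟨k, ⟨hk, hg⟩, rfl⟩
    · exact (res_ne_root h1.symm).elim

theorem not_E_root {v : ℕ} : ¬ G.E v root := by
  rintro (⟨-, k, hk, hg, h1⟩ | ⟨l', hl', b', hb', s, r, hs, hr, -, h1⟩)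
  · unfold root at h1
    rw [nm_inj] at h1
    omega
  · exact res_ne_root h1.symm

/-! ### The entries -/

theorem mem_verts {cl : Bool} {e : ℕ × Seg × List ℕ} : e ∈ (G.inst cl).verts ↔
    e = (root, ⟨(-2, 0), (-2, 0), cl⟩, G.rootR) ∨
    (∃ l < G.C, ∃ k < G.N, (l = 0 → G.grp k = k) ∧ e = G.tEnt cl l k) ∨
    ∃ l < G.C, ∃ b < G.N, ∃ i w, (G.gad l b).1[i]? = some w ∧ e = G.iEnt cl l b w i := by
  unfold inst cellEnt
  simp only [List.mem_cons, List.mem_flatMap, List.mem_range, List.mem_append, List.mem_map]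
  constructor
  · rintro (h | ⟨l, hl, b, hb, h | ⟨⟨w, i⟩, h, rfl⟩⟩)
    · exact Or.inl h
    · split_ifs at h with h1
      · simp at h
      · refine Or.inr (Or.inl ⟨l, hl, b, hb, ?_, by simpa using h⟩)
        intro h0
        by_contra hc
        exact h1 ⟨h0, hc⟩
    · rw [List.mem_zipIdx_iff_getElem?] at h
      exact Or.inr (Or.inr ⟨l, hl, b, hb, i, w, h, rfl⟩)
  · rintro (h | ⟨l, hl, k, hk, h0, h⟩ | ⟨l, hl, b, hb, i, w, h, rfl⟩)
    · exact Or.inl h
    · refine Or.inr ⟨l, hl, k, hk, Or.inl ?_⟩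
      rw [if_neg (fun hc => hc.2 (h0 hc.1))]
      simp [h]
    · refine Or.inr ⟨l, hl, b, hb, Or.inr ⟨(w, i), ?_, rfl⟩⟩
      rw [List.mem_zipIdx_iff_getElem?]
      exact h

/-- The list of neighbours of an entry consists of the left neighbours and the right neighbours. -/
theorem entry_split (h : G.OK) {cl : Bool} {e : ℕ × Seg × List ℕ} (he : e ∈ (G.inst cl).verts) :
    ∃ Lf Rg, e.2.2 = Lf ++ Rg ∧ (∀ v, v ∈ Lf ↔ G.E v e.1) ∧ (∀ v, v ∈ Rg ↔ G.E e.1 v) := by
  rcases mem_verts.1 he with rfl | ⟨l, hl, k, hk, h0, rfl⟩ | ⟨l, hl, b, hb, i, w, hw, rfl⟩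
  · refine ⟨[], G.rootR, by simp, fun v => ?_, fun v => mem_rootR h⟩
    simp only [List.not_mem_nil, false_iff]
    exact not_E_root
  · exact ⟨G.tL l k, G.tR l k, rfl, fun v => mem_tL h hl hk h0, fun v => mem_tR h hl⟩
  · refine ⟨w.2.2.2.1.map (G.res l b), w.2.2.2.2.map (G.res l b), ?_, fun v => ?_, fun v => ?_⟩
    · simp [iEnt]
    · rw [← ll_in hw]
      exact mem_inL h hl hb
    · rw [← rl_in hw]
      exact mem_inR h hl hb

theorem mem_names {cl : Bool} {u : ℕ} : u ∈ (G.inst cl).names ↔ u = root ∨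
    (∃ l < G.C, ∃ k < G.N, (l = 0 → G.grp k = k) ∧ u = nm 1 l k) ∨
    ∃ l < G.C, ∃ b < G.N, ∃ i < (G.gad l b).1.length, u = nm (2 + i) l b := by
  unfold Inst.names
  rw [List.mem_map]
  constructor
  · rintro ⟨e, he, rfl⟩
    rcases mem_verts.1 he with rfl | ⟨l, hl, k, hk, h0, rfl⟩ | ⟨l, hl, b, hb, i, w, hw, rfl⟩
    · exact Or.inl rfl
    · exact Or.inr (Or.inl ⟨l, hl, k, hk, h0, rfl⟩)
    · exact Or.inr (Or.inr ⟨l, hl, b, hb, i, (List.getElem?_eq_some_iff.1 hw).1, rfl⟩)
  · rintro (rfl | ⟨l, hl, k, hk, h0, rfl⟩ | ⟨l, hl, b, hb, i, hi, rfl⟩)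
    · exact ⟨_, mem_verts.2 (Or.inl rfl), rfl⟩
    · exact ⟨_, mem_verts.2 (Or.inr (Or.inl ⟨l, hl, k, hk, h0, rfl⟩)), rfl⟩
    · exact ⟨_, mem_verts.2 (Or.inr (Or.inr ⟨l, hl, b, hb, i, _, List.getElem?_eq_getElem hi, rfl⟩)),
        rfl⟩

/-- The name of a reference of a gadget is the name of a vertex. -/
theorem res_mem_names (h : G.OK) {cl : Bool} {l b : ℕ} (hl : l < G.C) (hb : b < G.N) {r : Ref}
    (hr : r ∈ refs (G.gad l b)) : G.res l b r ∈ (G.inst cl).names := by
  rw [mem_names]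
  have hfit := h.fit l hl b hb
  unfold ht at hfit
  rcases ref_cases hr with ⟨i, hi, rfl⟩ | ⟨i, hi, rfl⟩ | ⟨i, hi, rfl⟩
  · right; left
    rw [res_lp]
    refine ⟨l, hl, _, ?_, ?_, rfl⟩
    · have := hb_le h l b
      have := le_max_left (G.gad l b).2.1.length (G.gad l b).2.2.length
      omega
    · intro h0
      subst h0
      have h1 := (h.c0 b hb).1
      have : i = 0 := by omega
      subst this
      unfold Dia.hb
      rw [if_pos rfl, add_zero]
      exact h.g2 b
  · right; left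
    rw [res_rp]
    have hlast : l + 1 < G.C := by
      by_contra hc
      have : l = G.C - 1 := by omega
      subst this
      rw [h.last b hb] at hi
      omega
    refine ⟨l + 1, hlast, b + i, ?_, ?_, rfl⟩
    · have := le_max_right (G.gad l b).2.1.length (G.gad l b).2.2.length
      omega
    · intro h0; omega
  · right; right
    rw [res_in]
    exact ⟨l, hl, b, hb, i, hi, rfl⟩

theorem E_mem_names (h : G.OK) {cl : Bool} {u v : ℕ} (he : G.E u v) :
    u ∈ (G.inst cl).names ∧ v ∈ (G.inst cl).names := by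
  rcases he with ⟨rfl, k, hk, hg, rfl⟩ | ⟨l, hl, b, hb, s, r, hs, hr, rfl, rfl⟩
  · exact ⟨mem_names.2 (Or.inl rfl), mem_names.2 (Or.inr (Or.inl ⟨0, h.hC, k, hk, fun _ => hg, rfl⟩))⟩
  · exact ⟨res_mem_names h hl hb hs, res_mem_names h hl hb ((h.ok l hl b hb).1 _ hs _ hr).1⟩

theorem nbr_iff (h : G.OK) {cl : Bool} {u v : ℕ} : (G.inst cl).Nbr u v ↔ G.E u v ∨ G.E v u := by
  constructor
  · rintro ⟨e, he, rfl, hv⟩
    obtain ⟨Lf, Rg, h1, h2, h3⟩ := entry_split h he
    rw [h1, List.mem_append, h2, h3] at hv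
    exact hv.symm
  · intro huv
    have hu : u ∈ (G.inst cl).names := by
      rcases huv with h1 | h1
      · exact (E_mem_names h h1).1
      · exact (E_mem_names h h1).2
    unfold Inst.names at hu
    rw [List.mem_map] at hu
    obtain ⟨e, he, rfl⟩ := hu
    obtain ⟨Lf, Rg, h1, h2, h3⟩ := entry_split h he
    refine ⟨e, he, rfl, ?_⟩
    rw [h1, List.mem_append, h2, h3]
    exact huv.symm

theorem names_nodup (h : G.OK) {cl : Bool} : (G.inst cl).names.Nodup := by
  have hcell : ∀ l b, ∀ x ∈ (G.cellEnt cl l b).map (fun e => e.1), ∃ c, x = nm (1 + c) l b := by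
    intro l b x hx
    unfold cellEnt at hx
    rw [List.map_append, List.mem_append, List.mem_map, List.mem_map] at hx
    rcases hx with ⟨e, he, rfl⟩ | ⟨e, he, rfl⟩
    · split_ifs at he with h1
      · simp at he
      · rw [List.mem_singleton] at he
        subst he
        exact ⟨0, rfl⟩
    · rw [List.mem_map] at he
      obtain ⟨p, -, rfl⟩ := he
      exact ⟨1 + p.2, by unfold iEnt; simp only; congr 1; ring⟩
  have hcelln : ∀ l b, ((G.cellEnt cl l b).map (fun e => e.1)).Nodup := by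
    intro l b
    unfold cellEnt
    rw [List.map_append, List.nodup_append]
    refine ⟨?_, ?_, ?_⟩
    · split_ifs <;> simp
    · rw [List.map_map]
      have e1 : ((fun e : ℕ × Seg × List ℕ => e.1) ∘ fun p : Row × ℕ => G.iEnt cl l b p.1 p.2) =
          (fun i => nm (2 + i) l b) ∘ Prod.snd := rfl
      rw [e1, ← List.map_map, List.zipIdx_map_snd]
      refine List.Nodup.map ?_ (List.nodup_range' ..)
      intro x y hxy
      simp only [nm_inj] at hxy
      omega
    · intro x hx y hy hxy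
      subst hxy
      rw [List.mem_map] at hx hy
      obtain ⟨e, he, rfl⟩ := hx
      obtain ⟨e', he', h2⟩ := hy
      split_ifs at he with h1
      · simp at he
      · rw [List.mem_singleton] at he
        subst he
        rw [List.mem_map] at he'
        obtain ⟨p, -, rfl⟩ := he'
        unfold iEnt tEnt at h2
        simp only [nm_inj] at h2
        omega
  unfold Inst.names inst
  simp only [List.map_cons, List.map_flatMap]
  rw [List.nodup_cons]
  constructor
  · intro hx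
    simp only [List.mem_flatMap, List.mem_range] at hx
    obtain ⟨l, -, b, -, hx⟩ := hx
    obtain ⟨c, hc⟩ := hcell l b _ hx
    unfold root at hc
    rw [nm_inj] at hc
    omega
  · rw [List.nodup_flatMap]
    constructor
    · intro l _
      rw [List.nodup_flatMap]
      constructor
      · intro b _
        exact hcelln l b
      · refine List.Pairwise.imp ?_ List.pairwise_lt_range
        intro b b' hbb x hx hy
        obtain ⟨c, hc⟩ := hcell l b x hx
        obtain ⟨c', hc'⟩ := hcell l b' x hy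
        rw [hc, nm_inj] at hc'
        omega
    · refine List.Pairwise.imp ?_ List.pairwise_lt_range
      intro l l' hll x hx hy
      rw [List.mem_flatMap] at hx hy
      obtain ⟨b, -, hx⟩ := hx
      obtain ⟨b', -, hy⟩ := hy
      obtain ⟨c, hc⟩ := hcell l b x hx
      obtain ⟨c', hc'⟩ := hcell l' b' x hy
      rw [hc, nm_inj] at hc'
      omega

/-! ### Connectedness -/

theorem reach_col (h : G.OK) {cl : Bool} {l : ℕ} (hl : l < G.C)
    (hT : ∀ k < G.N, (l = 0 → G.grp k = k) → Relation.ReflTransGen (G.inst cl).Nbr root (nm 1 l k))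
    {b : ℕ} (hb : b < G.N) : ∀ i < (G.gad l b).1.length,
      Relation.ReflTransGen (G.inst cl).Nbr root (nm (2 + i) l b) := by
  intro i
  induction i using Nat.strong_induction_on with
  | _ i ih =>
    intro hi
    obtain ⟨r, hr, hr'⟩ := (h.ok l hl b hb).2.2.2.1 i hi
    have hE : (G.inst cl).Nbr (G.res l b r) (nm (2 + i) l b) := by
      rw [nbr_iff h]
      rw [List.mem_append] at hr
      rcases hr with hr | hr
      · left
        exact (mem_inL h hl hb).1 (List.mem_map.2 ⟨r, hr, rfl⟩)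
      · right
        exact (mem_inR h hl hb).1 (List.mem_map.2 ⟨r, hr, rfl⟩)
    have hrefs : r ∈ refs (G.gad l b) := by
      have hi' : ((2, i) : Ref) ∈ refs (G.gad l b) := mem_refs.2 (Or.inr (Or.inr ⟨rfl, hi⟩))
      rw [List.mem_append] at hr
      rcases hr with hr | hr
      · exact ((h.ok l hl b hb).2.1 _ hi' _ hr).1
      · exact ((h.ok l hl b hb).1 _ hi' _ hr).1
    refine Relation.ReflTransGen.tail ?_ hE
    obtain ⟨a, j⟩ := r
    simp only at hr'
    rcases hr' with rfl | ⟨rfl, hj⟩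
    · have hm := res_mem_names h (cl := cl) hl hb hrefs
      rw [res_lp, mem_names] at hm
      rcases hm with h1 | ⟨l', hl', k, hk, h0, h1⟩ | ⟨l', hl', b', hb', i', hi', h1⟩
      · unfold root at h1; rw [nm_inj] at h1; omega
      · rw [nm_inj] at h1
        obtain ⟨-, rfl, rfl⟩ := h1
        rw [res_lp]
        exact hT _ hk h0
      · rw [nm_inj] at h1; omega
    · rw [res_in]
      refine ih j hj ?_
      rcases mem_refs.1 hrefs with ⟨h1, _⟩ | ⟨h1, _⟩ | ⟨h1, h2⟩
      · simp at h1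
      · simp at h1
      · exact h2

theorem reach_T (h : G.OK) {cl : Bool} : ∀ l < G.C, ∀ k < G.N, (l = 0 → G.grp k = k) →
    Relation.ReflTransGen (G.inst cl).Nbr root (nm 1 l k) := by
  intro l
  induction l with
  | zero =>
    intro hl k hk h0
    refine Relation.ReflTransGen.single ?_
    rw [nbr_iff h]
    exact Or.inl (Or.inl ⟨rfl, k, hk, h0 rfl, rfl⟩)
  | succ l ih =>
    intro hl k hk _
    have hT := ih (by omega)
    obtain ⟨b, hb, i, rfl, hi⟩ := h.cov l hl k hk
    have hne := (h.ok l (by omega) b hb).2.2.2.2.1 i hi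
    obtain ⟨s, hs⟩ := List.exists_mem_of_ne_nil _ hne
    have hr : ((1, i) : Ref) ∈ refs (G.gad l b) := mem_refs.2 (Or.inr (Or.inl ⟨rfl, hi⟩))
    obtain ⟨m1, m2, m3⟩ := (h.ok l (by omega) b hb).2.1 _ hr _ hs
    have hE : (G.inst cl).Nbr (G.res l b s) (nm 1 (l + 1) (b + i)) := by
      rw [nbr_iff h]
      left; right
      exact ⟨l, by omega, b, hb, s, _, m1, m3, rfl, by rw [res_rp]⟩
    refine Relation.ReflTransGen.tail ?_ hE
    have hm := res_mem_names h (cl := cl) (by omega : l < G.C) hb m1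
    rcases ref_cases m1 with ⟨j, hj, rfl⟩ | ⟨j, hj, rfl⟩ | ⟨j, hj, rfl⟩
    · rw [res_lp] at hm ⊢
      rw [mem_names] at hm
      rcases hm with h1 | ⟨l', hl', k, hk, h0, h1⟩ | ⟨l', hl', b', hb', i', hi', h1⟩
      · unfold root at h1; rw [nm_inj] at h1; omega
      · rw [nm_inj] at h1
        obtain ⟨-, rfl, rfl⟩ := h1
        exact hT _ hk h0
      · rw [nm_inj] at h1; omega
    · exact (m2 rfl).elim
    · rw [res_in]
      exact reach_col h (by omega) hT hb j hj

theorem connected (h : G.OK) {cl : Bool} : ∀ u ∈ (G.inst cl).names, ∀ v ∈ (G.inst cl).names,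
    Relation.ReflTransGen (G.inst cl).Nbr u v := by
  have key : ∀ u ∈ (G.inst cl).names, Relation.ReflTransGen (G.inst cl).Nbr root u := by
    intro u hu
    rcases mem_names.1 hu with rfl | ⟨l, hl, k, hk, h0, rfl⟩ | ⟨l, hl, b, hb, i, hi, rfl⟩
    · exact Relation.ReflTransGen.refl
    · exact reach_T h l hl k hk h0
    · exact reach_col h hl (reach_T h l hl) hb i hi
  have symm : ∀ a b, (G.inst cl).Nbr a b → (G.inst cl).Nbr b a := by
    intro a b hab
    rw [nbr_iff h] at hab ⊢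
    exact hab.symm
  intro u hu v hv
  refine Relation.ReflTransGen.trans ?_ (key v hv)
  haveI : Std.Symm (G.inst cl).Nbr := ⟨symm⟩
  exact (Relation.ReflTransGen.stdSymm (r := (G.inst cl).Nbr)).symm _ _ (key u hu)

end Dia

end Pool.Agent.K4H90.SegDraw
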