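import Pool.Agent.K4H90.Seg.Gadget

/-!
# The geometric correctness of the gadgets
-/

namespace Pool.Agent.K4H90.SegDraw

/-- Pairs of inner vertices of the gadget plain with the same abscissa. -/
def plainX : List (ℕ × ℕ) := []

theorem plainX_ok : numB plainG plainX = true := by decide +kernel

theorem plain_trR : trR plainG =
    [((0, 0), (2, 1), (2, 0)), ((2, 1), (2, 2), (1, 0))] := by
  decide +kernel

theorem plain_trL : trL plainG =
    [] := by
  decide +kernel

theorem plain_q0_0 (lo ro o : ℕ → ℝ) : cfg plainG lo ro o (0, 0) = (0, lo 0) := by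
  norm_num [cfg, plainG]

theorem plain_q1_0 (lo ro o : ℕ → ℝ) : cfg plainG lo ro o (1, 0) = (12, ro 0) := by
  norm_num [cfg, plainG]

theorem plain_q2_0 (lo ro o : ℕ → ℝ) : cfg plainG lo ro o (2, 0) = (3, o 0) := by
  norm_num [cfg, plainG]

theorem plain_q2_1 (lo ro o : ℕ → ℝ) : cfg plainG lo ro o (2, 1) = (6, o 1) := by
  norm_num [cfg, plainG]

theorem plain_q2_2 (lo ro o : ℕ → ℝ) : cfg plainG lo ro o (2, 2) = (9, o 2) := by
  norm_num [cfg, plainG]

theorem plain_geo {lo ro o : ℕ → ℝ} (hl : ∀ i < 1, 0 < lo i ∧ lo i < 16)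
    (hr : ∀ i < 1, 0 < ro i ∧ ro i < 16) (ho : OffOK plainG o)
    (g0 : lo 0 + o 1 < 2 * o 0)
    (g1 : 2 * o 2 < o 1 + ro 0)
    : GeoOK plainG (cfg plainG lo ro o) := by
  obtain ⟨l0a, l0b⟩ := hl 0 (by norm_num)
  obtain ⟨r0a, r0b⟩ := hr 0 (by norm_num)
  obtain ⟨o0a, o0b⟩ := (ho 0 _ rfl).1 (by norm_num)
  obtain ⟨o1a, o1b⟩ := (ho 1 _ rfl).1 (by norm_num)
  obtain ⟨o2a, o2b⟩ := (ho 2 _ rfl).1 (by norm_num)
  refine geo_of_cfg plainG_ok plainX_ok hl hr ho ?_ ?_ plainT_ok ?_ ?_
  · rw [plain_trR]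
    simp only [List.forall_mem_cons, plain_q0_0 lo ro o, plain_q1_0 lo ro o, plain_q2_0 lo ro o, plain_q2_1 lo ro o, plain_q2_2 lo ro o, cr]
    refine ⟨?_, ?_, by simp⟩ <;> linarith
  · rw [plain_trL]
    simp
  · unfold plainT
    simp
  · unfold plainX
    simp

/-- Pairs of inner vertices of the gadget neg with the same abscissa. -/
def negX : List (ℕ × ℕ) := []

theorem negX_ok : numB negG negX = true := by decide +kernel

theorem neg_trR : trR negG =
    [((0, 0), (2, 0), (1, 0))] := by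
  decide +kernel

theorem neg_trL : trL negG =
    [] := by
  decide +kernel

theorem neg_q0_0 (lo ro o : ℕ → ℝ) : cfg negG lo ro o (0, 0) = (0, lo 0) := by
  norm_num [cfg, negG]

theorem neg_q1_0 (lo ro o : ℕ → ℝ) : cfg negG lo ro o (1, 0) = (12, ro 0) := by
  norm_num [cfg, negG]

theorem neg_q2_0 (lo ro o : ℕ → ℝ) : cfg negG lo ro o (2, 0) = (6, o 0) := by
  norm_num [cfg, negG]

theorem neg_geo {lo ro o : ℕ → ℝ} (hl : ∀ i < 1, 0 < lo i ∧ lo i < 16)
    (hr : ∀ i < 1, 0 < ro i ∧ ro i < 16) (ho : OffOK negG o)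
    (g0 : 2 * o 0 < lo 0 + ro 0)
    : GeoOK negG (cfg negG lo ro o) := by
  obtain ⟨l0a, l0b⟩ := hl 0 (by norm_num)
  obtain ⟨r0a, r0b⟩ := hr 0 (by norm_num)
  obtain ⟨o0a, o0b⟩ := (ho 0 _ rfl).1 (by norm_num)
  refine geo_of_cfg negG_ok negX_ok hl hr ho ?_ ?_ negT_ok ?_ ?_
  · rw [neg_trR]
    simp only [List.forall_mem_cons, neg_q0_0 lo ro o, neg_q1_0 lo ro o, neg_q2_0 lo ro o, cr]
    refine ⟨?_, by simp⟩ <;> linarith
  · rw [neg_trL]
    simp
  · unfold negT
    simp
  · unfold negX
    simp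

/-- Pairs of inner vertices of the gadget swap with the same abscissa. -/
def swapX : List (ℕ × ℕ) := [(1, 6), (2, 7), (3, 8), (4, 9), (4, 11), (5, 10), (9, 11)]

theorem swapX_ok : numB swapG swapX = true := by decide +kernel

theorem swap_trR : trR swapG =
    [((0, 0), (2, 1), (2, 0)), ((0, 1), (2, 3), (2, 6)), ((0, 1), (2, 3), (2, 10)), ((0, 1), (2, 3), (1, 1)), ((0, 1), (2, 6), (2, 10)), ((0, 1), (2, 6), (1, 1)), ((0, 1), (2, 10), (1, 1)), ((2, 1), (2, 2), (2, 3)), ((2, 3), (2, 4), (2, 5)), ((2, 5), (2, 13), (2, 12)), ((2, 6), (2, 12), (2, 11)), ((2, 6), (2, 12), (2, 8)), ((2, 6), (2, 12), (2, 7)), ((2, 6), (2, 11), (2, 8)), ((2, 6), (2, 11), (2, 7)), ((2, 6), (2, 8), (2, 7)), ((2, 8), (2, 9), (2, 10)), ((2, 13), (2, 14), (1, 0))] := by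
  decide +kernel

theorem swap_trL : trL swapG =
    [((2, 3), (0, 1), (2, 1)), ((2, 10), (0, 1), (2, 8)), ((2, 12), (2, 6), (2, 5))] := by
  decide +kernel

theorem swap_q0_0 (lo ro o : ℕ → ℝ) : cfg swapG lo ro o (0, 0) = (0, lo 0) := by
  norm_num [cfg, swapG]

theorem swap_q0_1 (lo ro o : ℕ → ℝ) : cfg swapG lo ro o (0, 1) = (0, 192 + lo 1) := by
  norm_num [cfg, swapG]

theorem swap_q1_0 (lo ro o : ℕ → ℝ) : cfg swapG lo ro o (1, 0) = (12, ro 0) := by
  norm_num [cfg, swapG]

theorem swap_q1_1 (lo ro o : ℕ → ℝ) : cfg swapG lo ro o (1, 1) = (12, 192 + ro 1) := by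
  norm_num [cfg, swapG]

theorem swap_q2_0 (lo ro o : ℕ → ℝ) : cfg swapG lo ro o (2, 0) = (1, o 0) := by
  norm_num [cfg, swapG]

theorem swap_q2_1 (lo ro o : ℕ → ℝ) : cfg swapG lo ro o (2, 1) = (2, o 1) := by
  norm_num [cfg, swapG]

theorem swap_q2_2 (lo ro o : ℕ → ℝ) : cfg swapG lo ro o (2, 2) = (3, o 2) := by
  norm_num [cfg, swapG]

theorem swap_q2_3 (lo ro o : ℕ → ℝ) : cfg swapG lo ro o (2, 3) = (4, o 3) := by
  norm_num [cfg, swapG]

theorem swap_q2_4 (lo ro o : ℕ → ℝ) : cfg swapG lo ro o (2, 4) = (5, o 4) := by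
  norm_num [cfg, swapG]

theorem swap_q2_5 (lo ro o : ℕ → ℝ) : cfg swapG lo ro o (2, 5) = (6, o 5) := by
  norm_num [cfg, swapG]

theorem swap_q2_6 (lo ro o : ℕ → ℝ) : cfg swapG lo ro o (2, 6) = (2, 96 + o 6) := by
  norm_num [cfg, swapG]

theorem swap_q2_7 (lo ro o : ℕ → ℝ) : cfg swapG lo ro o (2, 7) = (3, 120 + o 7) := by
  norm_num [cfg, swapG]

theorem swap_q2_8 (lo ro o : ℕ → ℝ) : cfg swapG lo ro o (2, 8) = (4, 144 + o 8) := by
  norm_num [cfg, swapG]

theorem swap_q2_9 (lo ro o : ℕ → ℝ) : cfg swapG lo ro o (2, 9) = (5, 168 + o 9) := by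
  norm_num [cfg, swapG]

theorem swap_q2_10 (lo ro o : ℕ → ℝ) : cfg swapG lo ro o (2, 10) = (6, 192 + o 10) := by
  norm_num [cfg, swapG]

theorem swap_q2_11 (lo ro o : ℕ → ℝ) : cfg swapG lo ro o (2, 11) = (5, 48 + o 11) := by
  norm_num [cfg, swapG]

theorem swap_q2_12 (lo ro o : ℕ → ℝ) : cfg swapG lo ro o (2, 12) = (8, o 12) := by
  norm_num [cfg, swapG]

theorem swap_q2_13 (lo ro o : ℕ → ℝ) : cfg swapG lo ro o (2, 13) = (10, o 13) := by
  norm_num [cfg, swapG]

theorem swap_q2_14 (lo ro o : ℕ → ℝ) : cfg swapG lo ro o (2, 14) = (11, o 14) := by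
  norm_num [cfg, swapG]

theorem swap_geo {lo ro o : ℕ → ℝ} (hl : ∀ i < 2, 0 < lo i ∧ lo i < 16)
    (hr : ∀ i < 2, 0 < ro i ∧ ro i < 16) (ho : OffOK swapG o)
    (g0 : lo 0 + o 1 < 2 * o 0)
    (g1 : 2 * o 2 < o 1 + o 3)
    (g2 : lo 1 + o 3 < 2 * o 6)
    (g3 : o 6 + o 8 < 2 * o 7)
    (g4 : 2 * o 9 < o 8 + o 10)
    (g5 : 2 * o 10 < lo 1 + ro 1)
    (g6 : o 6 + o 12 < 2 * o 11)
    (g7 : 2 * o 4 < o 3 + o 5)
    (g8 : o 13 + o 5 < 2 * o 12)
    (g9 : 2 * o 14 < o 13 + ro 0)
    : GeoOK swapG (cfg swapG lo ro o) := by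
  obtain ⟨l0a, l0b⟩ := hl 0 (by norm_num)
  obtain ⟨l1a, l1b⟩ := hl 1 (by norm_num)
  obtain ⟨r0a, r0b⟩ := hr 0 (by norm_num)
  obtain ⟨r1a, r1b⟩ := hr 1 (by norm_num)
  obtain ⟨o0a, o0b⟩ := (ho 0 _ rfl).1 (by norm_num)
  obtain ⟨o1a, o1b⟩ := (ho 1 _ rfl).1 (by norm_num)
  obtain ⟨o2a, o2b⟩ := (ho 2 _ rfl).1 (by norm_num)
  obtain ⟨o3a, o3b⟩ := (ho 3 _ rfl).1 (by norm_num)
  obtain ⟨o4a, o4b⟩ := (ho 4 _ rfl).1 (by norm_num)
  obtain ⟨o5a, o5b⟩ := (ho 5 _ rfl).1 (by norm_num)
  obtain ⟨o6a, o6b⟩ := (ho 6 _ rfl).1 (by norm_num)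
  obtain ⟨o7a, o7b⟩ := (ho 7 _ rfl).1 (by norm_num)
  obtain ⟨o8a, o8b⟩ := (ho 8 _ rfl).1 (by norm_num)
  obtain ⟨o9a, o9b⟩ := (ho 9 _ rfl).1 (by norm_num)
  obtain ⟨o10a, o10b⟩ := (ho 10 _ rfl).1 (by norm_num)
  obtain ⟨o11a, o11b⟩ := (ho 11 _ rfl).1 (by norm_num)
  obtain ⟨o12a, o12b⟩ := (ho 12 _ rfl).1 (by norm_num)
  obtain ⟨o13a, o13b⟩ := (ho 13 _ rfl).1 (by norm_num)
  obtain ⟨o14a, o14b⟩ := (ho 14 _ rfl).1 (by norm_num)
  refine geo_of_cfg swapG_ok swapX_ok hl hr ho ?_ ?_ swapT_ok ?_ ?_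
  · rw [swap_trR]
    simp only [List.forall_mem_cons, swap_q0_0 lo ro o, swap_q0_1 lo ro o, swap_q1_0 lo ro o, swap_q1_1 lo ro o, swap_q2_0 lo ro o, swap_q2_1 lo ro o, swap_q2_2 lo ro o, swap_q2_3 lo ro o, swap_q2_4 lo ro o, swap_q2_5 lo ro o, swap_q2_6 lo ro o, swap_q2_7 lo ro o, swap_q2_8 lo ro o, swap_q2_9 lo ro o, swap_q2_10 lo ro o, swap_q2_11 lo ro o, swap_q2_12 lo ro o, swap_q2_13 lo ro o, swap_q2_14 lo ro o, cr]
    refine ⟨?_, ?_, ?_, ?_, ?_, ?_, ?_, ?_, ?_, ?_, ?_, ?_, ?_, ?_, ?_, ?_, ?_, ?_, by simp⟩ <;> linarith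
  · rw [swap_trL]
    simp only [List.forall_mem_cons, swap_q0_0 lo ro o, swap_q0_1 lo ro o, swap_q1_0 lo ro o, swap_q1_1 lo ro o, swap_q2_0 lo ro o, swap_q2_1 lo ro o, swap_q2_2 lo ro o, swap_q2_3 lo ro o, swap_q2_4 lo ro o, swap_q2_5 lo ro o, swap_q2_6 lo ro o, swap_q2_7 lo ro o, swap_q2_8 lo ro o, swap_q2_9 lo ro o, swap_q2_10 lo ro o, swap_q2_11 lo ro o, swap_q2_12 lo ro o, swap_q2_13 lo ro o, swap_q2_14 lo ro o, cr]
    refine ⟨?_, ?_, ?_, by simp⟩ <;> linarith
  · unfold swapT
    simp only [List.forall_mem_cons, swap_q0_0 lo ro o, swap_q0_1 lo ro o, swap_q1_0 lo ro o, swap_q1_1 lo ro o, swap_q2_0 lo ro o, swap_q2_1 lo ro o, swap_q2_2 lo ro o, swap_q2_3 lo ro o, swap_q2_4 lo ro o, swap_q2_5 lo ro o, swap_q2_6 lo ro o, swap_q2_7 lo ro o, swap_q2_8 lo ro o, swap_q2_9 lo ro o, swap_q2_10 lo ro o, swap_q2_11 lo ro o, swap_q2_12 lo ro o, swap_q2_13 lo ro o, swap_q2_14 lo ro o]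
    refine ⟨?_, ?_, ?_, ?_, ?_, ?_, ?_, ?_, ?_, ?_, ?_, ?_, ?_, ?_, ?_, ?_, ?_, ?_, ?_, ?_, ?_, ?_, ?_, ?_, ?_, ?_, ?_, ?_, ?_, ?_, ?_, ?_, ?_, ?_, ?_, ?_, ?_, ?_, ?_, ?_, ?_, ?_, ?_, ?_, ?_, ?_, ?_, ?_, ?_, ?_, ?_, ?_, ?_, ?_, ?_, ?_, ?_, by simp⟩
    · exact disj_below (by norm_num) (by norm_num) 0 2 (by norm_num) (by norm_num)
        (by simp only [hdiff]; linarith) (by simp only [hdiff]; linarith)
    · exact disj_below (by norm_num) (by norm_num) 0 2 (by norm_num) (by norm_num)
        (by simp only [hdiff]; linarith) (by simp only [hdiff]; linarith)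
    · exact disj_below (by norm_num) (by norm_num) 0 2 (by norm_num) (by norm_num)
        (by simp only [hdiff]; linarith) (by simp only [hdiff]; linarith)
    · exact disj_below (by norm_num) (by norm_num) 0 2 (by norm_num) (by norm_num)
        (by simp only [hdiff]; linarith) (by simp only [hdiff]; linarith)
    · exact disj_below (by norm_num) (by norm_num) 0 1 (by norm_num) (by norm_num)
        (by simp only [hdiff]; linarith) (by simp only [hdiff]; linarith)
    · exact disj_below (by norm_num) (by norm_num) 0 1 (by norm_num) (by norm_num)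
        (by simp only [hdiff]; linarith) (by simp only [hdiff]; linarith)
    · exact disj_below (by norm_num) (by norm_num) 0 1 (by norm_num) (by norm_num)
        (by simp only [hdiff]; linarith) (by simp only [hdiff]; linarith)
    · exact disj_below (by norm_num) (by norm_num) 0 1 (by norm_num) (by norm_num)
        (by simp only [hdiff]; linarith) (by simp only [hdiff]; linarith)
    · exact disj_below (by norm_num) (by norm_num) 2 3 (by norm_num) (by norm_num)
        (by simp only [hdiff]; linarith) (by simp only [hdiff]; linarith)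
    · exact disj_below (by norm_num) (by norm_num) 2 4 (by norm_num) (by norm_num)
        (by simp only [hdiff]; linarith) (by simp only [hdiff]; linarith)
    · exact disj_below (by norm_num) (by norm_num) 2 4 (by norm_num) (by norm_num)
        (by simp only [hdiff]; linarith) (by simp only [hdiff]; linarith)
    · exact disj_below (by norm_num) (by norm_num) 2 4 (by norm_num) (by norm_num)
        (by simp only [hdiff]; linarith) (by simp only [hdiff]; linarith)
    · exact disj_below (by norm_num) (by norm_num) 2 3 (by norm_num) (by norm_num)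
        (by simp only [hdiff]; linarith) (by simp only [hdiff]; linarith)
    · exact disj_below (by norm_num) (by norm_num) 2 3 (by norm_num) (by norm_num)
        (by simp only [hdiff]; linarith) (by simp only [hdiff]; linarith)
    · exact disj_below (by norm_num) (by norm_num) 2 4 (by norm_num) (by norm_num)
        (by simp only [hdiff]; linarith) (by simp only [hdiff]; linarith)
    · exact disj_below (by norm_num) (by norm_num) 4 5 (by norm_num) (by norm_num)
        (by simp only [hdiff]; linarith) (by simp only [hdiff]; linarith)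
    · exact disj_below (by norm_num) (by norm_num) 4 6 (by norm_num) (by norm_num)
        (by simp only [hdiff]; linarith) (by simp only [hdiff]; linarith)
    · exact disj_below (by norm_num) (by norm_num) 2 6 (by norm_num) (by norm_num)
        (by simp only [hdiff]; linarith) (by simp only [hdiff]; linarith)
    · exact disj_below (by norm_num) (by norm_num) 2 5 (by norm_num) (by norm_num)
        (by simp only [hdiff]; linarith) (by simp only [hdiff]; linarith)
    · exact disj_below (by norm_num) (by norm_num) 2 4 (by norm_num) (by norm_num)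
        (by simp only [hdiff]; linarith) (by simp only [hdiff]; linarith)
    · exact disj_below (by norm_num) (by norm_num) 2 3 (by norm_num) (by norm_num)
        (by simp only [hdiff]; linarith) (by simp only [hdiff]; linarith)
    · exact disj_below (by norm_num) (by norm_num) 4 5 (by norm_num) (by norm_num)
        (by simp only [hdiff]; linarith) (by simp only [hdiff]; linarith)
    · exact disj_below (by norm_num) (by norm_num) 2 3 (by norm_num) (by norm_num)
        (by simp only [hdiff]; linarith) (by simp only [hdiff]; linarith)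
    · exact disj_below (by norm_num) (by norm_num) 2 4 (by norm_num) (by norm_num)
        (by simp only [hdiff]; linarith) (by simp only [hdiff]; linarith)
    · exact disj_below (by norm_num) (by norm_num) 4 5 (by norm_num) (by norm_num)
        (by simp only [hdiff]; linarith) (by simp only [hdiff]; linarith)
    · exact disj_below (by norm_num) (by norm_num) 4 6 (by norm_num) (by norm_num)
        (by simp only [hdiff]; linarith) (by simp only [hdiff]; linarith)
    · exact disj_below (by norm_num) (by norm_num) 6 10 (by norm_num) (by norm_num)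
        (by simp only [hdiff]; linarith) (by simp only [hdiff]; linarith)
    · exact disj_below (by norm_num) (by norm_num) 6 8 (by norm_num) (by norm_num)
        (by simp only [hdiff]; linarith) (by simp only [hdiff]; linarith)
    · exact disj_below (by norm_num) (by norm_num) 2 8 (by norm_num) (by norm_num)
        (by simp only [hdiff]; linarith) (by simp only [hdiff]; linarith)
    · exact disj_below (by norm_num) (by norm_num) 2 5 (by norm_num) (by norm_num)
        (by simp only [hdiff]; linarith) (by simp only [hdiff]; linarith)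
    · exact disj_below (by norm_num) (by norm_num) 2 4 (by norm_num) (by norm_num)
        (by simp only [hdiff]; linarith) (by simp only [hdiff]; linarith)
    · exact disj_below (by norm_num) (by norm_num) 2 3 (by norm_num) (by norm_num)
        (by simp only [hdiff]; linarith) (by simp only [hdiff]; linarith)
    · exact disj_below (by norm_num) (by norm_num) 4 5 (by norm_num) (by norm_num)
        (by simp only [hdiff]; linarith) (by simp only [hdiff]; linarith)
    · exact disj_below (by norm_num) (by norm_num) 4 6 (by norm_num) (by norm_num)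
        (by simp only [hdiff]; linarith) (by simp only [hdiff]; linarith)
    · exact disj_below (by norm_num) (by norm_num) 10 11 (by norm_num) (by norm_num)
        (by simp only [hdiff]; linarith) (by simp only [hdiff]; linarith)
    · exact disj_below (by norm_num) (by norm_num) 10 12 (by norm_num) (by norm_num)
        (by simp only [hdiff]; linarith) (by simp only [hdiff]; linarith)
    · exact disj_below (by norm_num) (by norm_num) 2 3 (by norm_num) (by norm_num)
        (by simp only [hdiff]; linarith) (by simp only [hdiff]; linarith)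
    · exact disj_below (by norm_num) (by norm_num) 2 3 (by norm_num) (by norm_num)
        (by simp only [hdiff]; linarith) (by simp only [hdiff]; linarith)
    · exact disj_below (by norm_num) (by norm_num) 2 3 (by norm_num) (by norm_num)
        (by simp only [hdiff]; linarith) (by simp only [hdiff]; linarith)
    · exact disj_below (by norm_num) (by norm_num) 2 3 (by norm_num) (by norm_num)
        (by simp only [hdiff]; linarith) (by simp only [hdiff]; linarith)
    · exact disj_below (by norm_num) (by norm_num) 2 4 (by norm_num) (by norm_num)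
        (by simp only [hdiff]; linarith) (by simp only [hdiff]; linarith)
    · exact disj_below (by norm_num) (by norm_num) 2 4 (by norm_num) (by norm_num)
        (by simp only [hdiff]; linarith) (by simp only [hdiff]; linarith)
    · exact disj_below (by norm_num) (by norm_num) 2 4 (by norm_num) (by norm_num)
        (by simp only [hdiff]; linarith) (by simp only [hdiff]; linarith)
    · exact disj_below (by norm_num) (by norm_num) 2 3 (by norm_num) (by norm_num)
        (by simp only [hdiff]; linarith) (by simp only [hdiff]; linarith)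
    · exact disj_below (by norm_num) (by norm_num) 4 5 (by norm_num) (by norm_num)
        (by simp only [hdiff]; linarith) (by simp only [hdiff]; linarith)
    · exact disj_below (by norm_num) (by norm_num) 4 5 (by norm_num) (by norm_num)
        (by simp only [hdiff]; linarith) (by simp only [hdiff]; linarith)
    · exact disj_below (by norm_num) (by norm_num) 4 5 (by norm_num) (by norm_num)
        (by simp only [hdiff]; linarith) (by simp only [hdiff]; linarith)
    · exact disj_below (by norm_num) (by norm_num) 4 5 (by norm_num) (by norm_num)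
        (by simp only [hdiff]; linarith) (by simp only [hdiff]; linarith)
    · exact disj_below (by norm_num) (by norm_num) 4 6 (by norm_num) (by norm_num)
        (by simp only [hdiff]; linarith) (by simp only [hdiff]; linarith)
    · exact disj_below (by norm_num) (by norm_num) 4 5 (by norm_num) (by norm_num)
        (by simp only [hdiff]; linarith) (by simp only [hdiff]; linarith)
    · exact disj_below (by norm_num) (by norm_num) 4 5 (by norm_num) (by norm_num)
        (by simp only [hdiff]; linarith) (by simp only [hdiff]; linarith)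
    · exact disj_below (by norm_num) (by norm_num) 4 6 (by norm_num) (by norm_num)
        (by simp only [hdiff]; linarith) (by simp only [hdiff]; linarith)
    · exact disj_below (by norm_num) (by norm_num) 6 8 (by norm_num) (by norm_num)
        (by simp only [hdiff]; linarith) (by simp only [hdiff]; linarith)
    · exact disj_below (by norm_num) (by norm_num) 4 5 (by norm_num) (by norm_num)
        (by simp only [hdiff]; linarith) (by simp only [hdiff]; linarith)
    · exact disj_below (by norm_num) (by norm_num) 4 6 (by norm_num) (by norm_num)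
        (by simp only [hdiff]; linarith) (by simp only [hdiff]; linarith)
    · exact disj_below (by norm_num) (by norm_num) 4 5 (by norm_num) (by norm_num)
        (by simp only [hdiff]; linarith) (by simp only [hdiff]; linarith)
    · exact disj_below (by norm_num) (by norm_num) 4 5 (by norm_num) (by norm_num)
        (by simp only [hdiff]; linarith) (by simp only [hdiff]; linarith)
  · unfold swapX
    simp only [List.forall_mem_cons, swap_q0_0 lo ro o, swap_q0_1 lo ro o, swap_q1_0 lo ro o, swap_q1_1 lo ro o, swap_q2_0 lo ro o, swap_q2_1 lo ro o, swap_q2_2 lo ro o, swap_q2_3 lo ro o, swap_q2_4 lo ro o, swap_q2_5 lo ro o, swap_q2_6 lo ro o, swap_q2_7 lo ro o, swap_q2_8 lo ro o, swap_q2_9 lo ro o, swap_q2_10 lo ro o, swap_q2_11 lo ro o, swap_q2_12 lo ro o, swap_q2_13 lo ro o, swap_q2_14 lo ro o]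
    refine ⟨?_, ?_, ?_, ?_, ?_, ?_, ?_, by simp⟩ <;> (intro hc; linarith)

/-- Pairs of inner vertices of the gadget lin with the same abscissa. -/
def linX : List (ℕ × ℕ) := [(0, 4), (1, 5)]

theorem linX_ok : numB linG linX = true := by decide +kernel

theorem lin_trR : trR linG =
    [((0, 0), (2, 3), (2, 5)), ((0, 1), (2, 5), (2, 4)), ((0, 2), (2, 1), (2, 0)), ((2, 1), (2, 2), (2, 3))] := by
  decide +kernel

theorem lin_trL : trL linG =
    [((2, 3), (2, 1), (0, 0)), ((2, 5), (0, 1), (0, 0))] := by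
  decide +kernel

theorem lin_q0_0 (lo ro o : ℕ → ℝ) : cfg linG lo ro o (0, 0) = (0, lo 0) := by
  norm_num [cfg, linG]

theorem lin_q0_1 (lo ro o : ℕ → ℝ) : cfg linG lo ro o (0, 1) = (0, 192 + lo 1) := by
  norm_num [cfg, linG]

theorem lin_q0_2 (lo ro o : ℕ → ℝ) : cfg linG lo ro o (0, 2) = (0, 384 + lo 2) := by
  norm_num [cfg, linG]

theorem lin_q2_0 (lo ro o : ℕ → ℝ) : cfg linG lo ro o (2, 0) = (1, 384 + o 0) := by
  norm_num [cfg, linG]

theorem lin_q2_1 (lo ro o : ℕ → ℝ) : cfg linG lo ro o (2, 1) = (2, 384 + o 1) := by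
  norm_num [cfg, linG]

theorem lin_q2_2 (lo ro o : ℕ → ℝ) : cfg linG lo ro o (2, 2) = (3, 384 + o 2) := by
  norm_num [cfg, linG]

theorem lin_q2_3 (lo ro o : ℕ → ℝ) : cfg linG lo ro o (2, 3) = (4, 384 + o 3) := by
  norm_num [cfg, linG]

theorem lin_q2_4 (lo ro o : ℕ → ℝ) : cfg linG lo ro o (2, 4) = (1, 192 + o 4) := by
  norm_num [cfg, linG]

theorem lin_q2_5 (lo ro o : ℕ → ℝ) : cfg linG lo ro o (2, 5) = (2, 192 + o 5) := by
  norm_num [cfg, linG]

theorem lin_geo {lo ro o : ℕ → ℝ} (hl : ∀ i < 3, 0 < lo i ∧ lo i < 16)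
    (hr : ∀ i < 0, 0 < ro i ∧ ro i < 16) (ho : OffOK linG o)
    (g0 : lo 2 + o 1 < 2 * o 0)
    (g1 : 2 * o 2 < o 1 + o 3)
    (g2 : lo 1 + o 5 < 2 * o 4)
    (g3 : o 3 + lo 0 < 2 * o 5)
    : GeoOK linG (cfg linG lo ro o) := by
  obtain ⟨l0a, l0b⟩ := hl 0 (by norm_num)
  obtain ⟨l1a, l1b⟩ := hl 1 (by norm_num)
  obtain ⟨l2a, l2b⟩ := hl 2 (by norm_num)
  obtain ⟨o0a, o0b⟩ := (ho 0 _ rfl).1 (by norm_num)
  obtain ⟨o1a, o1b⟩ := (ho 1 _ rfl).1 (by norm_num)
  obtain ⟨o2a, o2b⟩ := (ho 2 _ rfl).1 (by norm_num)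
  obtain ⟨o3a, o3b⟩ := (ho 3 _ rfl).1 (by norm_num)
  obtain ⟨o4a, o4b⟩ := (ho 4 _ rfl).1 (by norm_num)
  obtain ⟨o5a, o5b⟩ := (ho 5 _ rfl).1 (by norm_num)
  refine geo_of_cfg linG_ok linX_ok hl hr ho ?_ ?_ linT_ok ?_ ?_
  · rw [lin_trR]
    simp only [List.forall_mem_cons, lin_q0_0 lo ro o, lin_q0_1 lo ro o, lin_q0_2 lo ro o, lin_q2_0 lo ro o, lin_q2_1 lo ro o, lin_q2_2 lo ro o, lin_q2_3 lo ro o, lin_q2_4 lo ro o, lin_q2_5 lo ro o, cr]
    refine ⟨?_, ?_, ?_, ?_, by simp⟩ <;> linarith
  · rw [lin_trL]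
    simp only [List.forall_mem_cons, lin_q0_0 lo ro o, lin_q0_1 lo ro o, lin_q0_2 lo ro o, lin_q2_0 lo ro o, lin_q2_1 lo ro o, lin_q2_2 lo ro o, lin_q2_3 lo ro o, lin_q2_4 lo ro o, lin_q2_5 lo ro o, cr]
    refine ⟨?_, ?_, by simp⟩ <;> linarith
  · unfold linT
    simp only [List.forall_mem_cons, lin_q0_0 lo ro o, lin_q0_1 lo ro o, lin_q0_2 lo ro o, lin_q2_0 lo ro o, lin_q2_1 lo ro o, lin_q2_2 lo ro o, lin_q2_3 lo ro o, lin_q2_4 lo ro o, lin_q2_5 lo ro o]
    refine ⟨?_, ?_, ?_, ?_, ?_, ?_, ?_, ?_, ?_, ?_, ?_, ?_, by simp⟩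
    · exact disj_below (by norm_num) (by norm_num) 0 2 (by norm_num) (by norm_num)
        (by simp only [hdiff]; linarith) (by simp only [hdiff]; linarith)
    · exact disj_below (by norm_num) (by norm_num) 0 1 (by norm_num) (by norm_num)
        (by simp only [hdiff]; linarith) (by simp only [hdiff]; linarith)
    · exact disj_below (by norm_num) (by norm_num) 0 2 (by norm_num) (by norm_num)
        (by simp only [hdiff]; linarith) (by simp only [hdiff]; linarith)
    · exact disj_below (by norm_num) (by norm_num) 0 1 (by norm_num) (by norm_num)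
        (by simp only [hdiff]; linarith) (by simp only [hdiff]; linarith)
    · exact disj_below (by norm_num) (by norm_num) 2 3 (by norm_num) (by norm_num)
        (by simp only [hdiff]; linarith) (by simp only [hdiff]; linarith)
    · exact disj_below (by norm_num) (by norm_num) 0 1 (by norm_num) (by norm_num)
        (by simp only [hdiff]; linarith) (by simp only [hdiff]; linarith)
    · exact disj_below (by norm_num) (by norm_num) 0 2 (by norm_num) (by norm_num)
        (by simp only [hdiff]; linarith) (by simp only [hdiff]; linarith)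
    · exact disj_below (by norm_num) (by norm_num) 0 1 (by norm_num) (by norm_num)
        (by simp only [hdiff]; linarith) (by simp only [hdiff]; linarith)
    · exact disj_below (by norm_num) (by norm_num) 0 2 (by norm_num) (by norm_num)
        (by simp only [hdiff]; linarith) (by simp only [hdiff]; linarith)
    · exact disj_below (by norm_num) (by norm_num) 0 1 (by norm_num) (by norm_num)
        (by simp only [hdiff]; linarith) (by simp only [hdiff]; linarith)
    · exact disj_below (by norm_num) (by norm_num) 0 1 (by norm_num) (by norm_num)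
        (by simp only [hdiff]; linarith) (by simp only [hdiff]; linarith)
    · exact disj_below (by norm_num) (by norm_num) 0 1 (by norm_num) (by norm_num)
        (by simp only [hdiff]; linarith) (by simp only [hdiff]; linarith)
  · unfold linX
    simp only [List.forall_mem_cons, lin_q0_0 lo ro o, lin_q0_1 lo ro o, lin_q0_2 lo ro o, lin_q2_0 lo ro o, lin_q2_1 lo ro o, lin_q2_2 lo ro o, lin_q2_3 lo ro o, lin_q2_4 lo ro o, lin_q2_5 lo ro o]
    refine ⟨?_, ?_, by simp⟩ <;> (intro hc; linarith)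

/-- Pairs of inner vertices of the gadget prod with the same abscissa. -/
def prodX : List (ℕ × ℕ) := [(0, 4), (1, 5), (2, 7), (2, 11), (3, 9), (6, 8), (7, 11)]

theorem prodX_ok : numB prodG prodX = true := by decide +kernel

theorem prod_trR : trR prodG =
    [((0, 0), (2, 1), (2, 0)), ((0, 1), (2, 5), (2, 4)), ((0, 2), (2, 9), (2, 8)), ((2, 1), (2, 2), (2, 3)), ((2, 5), (2, 6), (2, 7))] := by
  decide +kernel

theorem prod_trL : trL prodG =
    [((2, 10), (2, 9), (2, 7)), ((2, 10), (2, 9), (2, 11)), ((2, 10), (2, 9), (2, 3)), ((2, 10), (2, 7), (2, 11)), ((2, 10), (2, 7), (2, 3)), ((2, 10), (2, 11), (2, 3))] := by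
  decide +kernel

theorem prod_q0_0 (lo ro o : ℕ → ℝ) : cfg prodG lo ro o (0, 0) = (0, lo 0) := by
  norm_num [cfg, prodG]

theorem prod_q0_1 (lo ro o : ℕ → ℝ) : cfg prodG lo ro o (0, 1) = (0, 192 + lo 1) := by
  norm_num [cfg, prodG]

theorem prod_q0_2 (lo ro o : ℕ → ℝ) : cfg prodG lo ro o (0, 2) = (0, 384 + lo 2) := by
  norm_num [cfg, prodG]

theorem prod_q2_0 (lo ro o : ℕ → ℝ) : cfg prodG lo ro o (2, 0) = (1, o 0) := by
  norm_num [cfg, prodG]

theorem prod_q2_1 (lo ro o : ℕ → ℝ) : cfg prodG lo ro o (2, 1) = (2, o 1) := by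
  norm_num [cfg, prodG]

theorem prod_q2_2 (lo ro o : ℕ → ℝ) : cfg prodG lo ro o (2, 2) = (4, o 2) := by
  norm_num [cfg, prodG]

theorem prod_q2_3 (lo ro o : ℕ → ℝ) : cfg prodG lo ro o (2, 3) = (6, o 3) := by
  norm_num [cfg, prodG]

theorem prod_q2_4 (lo ro o : ℕ → ℝ) : cfg prodG lo ro o (2, 4) = (1, 148 + o 4) := by
  norm_num [cfg, prodG]

theorem prod_q2_5 (lo ro o : ℕ → ℝ) : cfg prodG lo ro o (2, 5) = (2, 104 + o 5) := by
  norm_num [cfg, prodG]

theorem prod_q2_6 (lo ro o : ℕ → ℝ) : cfg prodG lo ro o (2, 6) = (3, 60 + o 6) := by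
  norm_num [cfg, prodG]

theorem prod_q2_7 (lo ro o : ℕ → ℝ) : cfg prodG lo ro o (2, 7) = (4, 16 + o 7) := by
  norm_num [cfg, prodG]

theorem prod_q2_8 (lo ro o : ℕ → ℝ) : cfg prodG lo ro o (2, 8) = (3, 194 + o 8) := by
  norm_num [cfg, prodG]

theorem prod_q2_9 (lo ro o : ℕ → ℝ) : cfg prodG lo ro o (2, 9) = (6, 4 + o 9) := by
  norm_num [cfg, prodG]

theorem prod_q2_10 (lo ro o : ℕ → ℝ) : cfg prodG lo ro o (2, 10) = (o 10, 0) := by
  norm_num [cfg, prodG]

theorem prod_q2_11 (lo ro o : ℕ → ℝ) : cfg prodG lo ro o (2, 11) = (4, 8 + o 11) := by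
  norm_num [cfg, prodG]

theorem prod_q2_12 (lo ro o : ℕ → ℝ) : cfg prodG lo ro o (2, 12) = (11, o 12) := by
  norm_num [cfg, prodG]

theorem prod_geo {lo ro o : ℕ → ℝ} (hl : ∀ i < 3, 0 < lo i ∧ lo i < 16)
    (hr : ∀ i < 0, 0 < ro i ∧ ro i < 16) (ho : OffOK prodG o)
    (g0 : lo 0 + o 1 < 2 * o 0)
    (g1 : 2 * o 2 < o 1 + o 3)
    (g2 : lo 1 + o 5 < 2 * o 4)
    (g3 : 2 * o 6 < o 5 + o 7)
    (g4 : lo 2 + o 9 < 2 * o 8)
    (g5 : (16 + o 7) * (o 10 - 6) < (4 + o 9) * (o 10 - 4))
    (g6 : o 3 * (o 10 - 4) < 16 * (o 10 - 6)) (gP : o 11 = 8)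
    : GeoOK prodG (cfg prodG lo ro o) := by
  obtain ⟨l0a, l0b⟩ := hl 0 (by norm_num)
  obtain ⟨l1a, l1b⟩ := hl 1 (by norm_num)
  obtain ⟨l2a, l2b⟩ := hl 2 (by norm_num)
  obtain ⟨o0a, o0b⟩ := (ho 0 _ rfl).1 (by norm_num)
  obtain ⟨o1a, o1b⟩ := (ho 1 _ rfl).1 (by norm_num)
  obtain ⟨o2a, o2b⟩ := (ho 2 _ rfl).1 (by norm_num)
  obtain ⟨o3a, o3b⟩ := (ho 3 _ rfl).1 (by norm_num)
  obtain ⟨o4a, o4b⟩ := (ho 4 _ rfl).1 (by norm_num)
  obtain ⟨o5a, o5b⟩ := (ho 5 _ rfl).1 (by norm_num)
  obtain ⟨o6a, o6b⟩ := (ho 6 _ rfl).1 (by norm_num)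
  obtain ⟨o7a, o7b⟩ := (ho 7 _ rfl).1 (by norm_num)
  obtain ⟨o8a, o8b⟩ := (ho 8 _ rfl).1 (by norm_num)
  obtain ⟨o9a, o9b⟩ := (ho 9 _ rfl).1 (by norm_num)
  obtain ⟨o10a, o10b⟩ := (ho 10 _ rfl).2 rfl
  norm_num at o10a o10b
  obtain ⟨o11a, o11b⟩ := (ho 11 _ rfl).1 (by norm_num)
  obtain ⟨o12a, o12b⟩ := (ho 12 _ rfl).1 (by norm_num)
  have v6 : 0 < o 10 - 6 := by linarith
  have v4 : 0 < o 10 - 4 := by linarith
  have w6 : 0 < o 7 * (o 10 - 6) := mul_pos o7a v6
  have w4 : 0 < o 7 * (o 10 - 4) := mul_pos o7a v4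
  have m4 : 0 < (16 - o 3) * (o 10 - 4) := mul_pos (by linarith) v4
  have m4b : 0 < (16 - o 1) * (o 10 - 4) := mul_pos (by linarith) v4
  have c4 : 0 < lo 2 * (o 10 - 4) := mul_pos l2a v4
  have u4 : 0 < o 9 * (o 10 - 4) := mul_pos o9a v4
  have u6 : 0 < o 9 * (o 10 - 6) := mul_pos o9a v6
  have w4b : 0 < (16 - o 7) * (o 10 - 4) := mul_pos (by linarith) v4
  have um : o 3 < 4 + o 9 := by
    by_contra hc
    rw [not_lt] at hc
    have := mul_le_mul_of_nonneg_right hc v4.le
    linarith
  have um6 : 0 < (4 + o 9 - o 3) * (o 10 - 6) := mul_pos (by linarith) v6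
  refine geo_of_cfg prodG_ok prodX_ok hl hr ho ?_ ?_ prodT_ok ?_ ?_
  · rw [prod_trR]
    simp only [List.forall_mem_cons, prod_q0_0 lo ro o, prod_q0_1 lo ro o, prod_q0_2 lo ro o, prod_q2_0 lo ro o, prod_q2_1 lo ro o, prod_q2_2 lo ro o, prod_q2_3 lo ro o, prod_q2_4 lo ro o, prod_q2_5 lo ro o, prod_q2_6 lo ro o, prod_q2_7 lo ro o, prod_q2_8 lo ro o, prod_q2_9 lo ro o, prod_q2_10 lo ro o, prod_q2_11 lo ro o, prod_q2_12 lo ro o, gP, cr]
    refine ⟨?_, ?_, ?_, ?_, ?_, by simp⟩ <;> linarith
  · rw [prod_trL]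
    simp only [List.forall_mem_cons, prod_q0_0 lo ro o, prod_q0_1 lo ro o, prod_q0_2 lo ro o, prod_q2_0 lo ro o, prod_q2_1 lo ro o, prod_q2_2 lo ro o, prod_q2_3 lo ro o, prod_q2_4 lo ro o, prod_q2_5 lo ro o, prod_q2_6 lo ro o, prod_q2_7 lo ro o, prod_q2_8 lo ro o, prod_q2_9 lo ro o, prod_q2_10 lo ro o, prod_q2_11 lo ro o, prod_q2_12 lo ro o, gP, cr]
    refine ⟨?_, ?_, ?_, ?_, ?_, ?_, by simp⟩ <;> linarith
  · unfold prodT
    simp only [List.forall_mem_cons, prod_q0_0 lo ro o, prod_q0_1 lo ro o, prod_q0_2 lo ro o, prod_q2_0 lo ro o, prod_q2_1 lo ro o, prod_q2_2 lo ro o, prod_q2_3 lo ro o, prod_q2_4 lo ro o, prod_q2_5 lo ro o, prod_q2_6 lo ro o, prod_q2_7 lo ro o, prod_q2_8 lo ro o, prod_q2_9 lo ro o, prod_q2_10 lo ro o, prod_q2_11 lo ro o, prod_q2_12 lo ro o, gP]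
    refine ⟨?_, ?_, ?_, ?_, ?_, ?_, ?_, ?_, ?_, ?_, ?_, ?_, ?_, ?_, ?_, ?_, ?_, ?_, ?_, ?_, ?_, ?_, ?_, ?_, ?_, ?_, ?_, ?_, by simp⟩
    · exact disj_below (by norm_num) (by norm_num) 0 2 (by norm_num) (by norm_num)
        (by simp only [hdiff]; linarith) (by simp only [hdiff]; linarith)
    · exact disj_below (by norm_num) (by norm_num) 0 1 (by norm_num) (by norm_num)
        (by simp only [hdiff]; linarith) (by simp only [hdiff]; linarith)
    · exact disj_below (by norm_num) (by norm_num) 0 2 (by norm_num) (by norm_num)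
        (by simp only [hdiff]; linarith) (by simp only [hdiff]; linarith)
    · exact disj_below (by norm_num) (by norm_num) 0 2 (by norm_num) (by norm_num)
        (by simp only [hdiff]; linarith) (by simp only [hdiff]; linarith)
    · exact disj_below (by norm_num) (by norm_num) 0 1 (by norm_num) (by norm_num)
        (by simp only [hdiff]; linarith) (by simp only [hdiff]; linarith)
    · exact disj_below (by norm_num) (by norm_num) 0 1 (by norm_num) (by norm_num)
        (by simp only [hdiff]; linarith) (by simp only [hdiff]; linarith)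
    · exact disj_below (by norm_num) (by norm_num) 0 1 (by norm_num) (by norm_num)
        (by simp only [hdiff]; linarith) (by simp only [hdiff]; linarith)
    · exact disj_below (by norm_num) (by norm_num) 0 1 (by norm_num) (by norm_num)
        (by simp only [hdiff]; linarith) (by simp only [hdiff]; linarith)
    · exact disj_below (by norm_num) (by norm_num) 0 2 (by norm_num) (by norm_num)
        (by simp only [hdiff]; linarith) (by simp only [hdiff]; linarith)
    · exact disj_below (by norm_num) (by norm_num) 0 2 (by norm_num) (by norm_num)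
        (by simp only [hdiff]; linarith) (by simp only [hdiff]; linarith)
    · exact disj_below (by norm_num) (by norm_num) 0 1 (by norm_num) (by norm_num)
        (by simp only [hdiff]; linarith) (by simp only [hdiff]; linarith)
    · exact disj_below (by norm_num) (by norm_num) 0 1 (by norm_num) (by norm_num)
        (by simp only [hdiff]; linarith) (by simp only [hdiff]; linarith)
    · exact disj_below (by norm_num) (by norm_num) 2 4 (by norm_num) (by norm_num)
        (by simp only [hdiff]; linarith) (by simp only [hdiff]; linarith)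
    · exact disj_below (by norm_num) (by norm_num) 2 6 (by norm_num) (by norm_num)
        (by simp only [hdiff]; linarith) (by simp only [hdiff]; linarith)
    · exact disj_below (by norm_num) (by norm_num) 2 3 (by norm_num) (by norm_num)
        (by simp only [hdiff]; linarith) (by simp only [hdiff]; linarith)
    · exact disj_below (by norm_num) (by norm_num) 2 4 (by norm_num) (by norm_num)
        (by simp only [hdiff]; linarith) (by simp only [hdiff]; linarith)
    · exact (disj_below (by simp only; linarith) (by simp only; linarith) 4 6 (by norm_num) (by norm_num)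
        (by simp only [hdiff]; linarith) (by simp only [hdiff]; linarith)).symm
    · exact (disj_below (by simp only; linarith) (by simp only; linarith) 4 6 (by norm_num) (by norm_num)
        (by simp only [hdiff]; linarith) (by simp only [hdiff]; linarith)).symm
    · exact disj_below (by norm_num) (by norm_num) 2 3 (by norm_num) (by norm_num)
        (by simp only [hdiff]; linarith) (by simp only [hdiff]; linarith)
    · exact disj_below (by norm_num) (by norm_num) 2 3 (by norm_num) (by norm_num)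
        (by simp only [hdiff]; linarith) (by simp only [hdiff]; linarith)
    · exact disj_below (by norm_num) (by norm_num) 2 3 (by norm_num) (by norm_num)
        (by simp only [hdiff]; linarith) (by simp only [hdiff]; linarith)
    · exact disj_below (by norm_num) (by norm_num) 2 3 (by norm_num) (by norm_num)
        (by simp only [hdiff]; linarith) (by simp only [hdiff]; linarith)
    · exact disj_below (by norm_num) (by norm_num) 2 3 (by norm_num) (by norm_num)
        (by simp only [hdiff]; linarith) (by simp only [hdiff]; linarith)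
    · exact disj_below (by norm_num) (by norm_num) 2 4 (by norm_num) (by norm_num)
        (by simp only [hdiff]; linarith) (by simp only [hdiff]; linarith)
    · exact disj_below (by norm_num) (by norm_num) 2 3 (by norm_num) (by norm_num)
        (by simp only [hdiff]; linarith) (by simp only [hdiff]; linarith)
    · exact disj_below (by norm_num) (by norm_num) 2 4 (by norm_num) (by norm_num)
        (by simp only [hdiff]; linarith) (by simp only [hdiff]; linarith)
    · exact disj_below (by simp only; linarith) (by simp only; linarith) 4 6 (by norm_num) (by norm_num)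
        (by simp only [hdiff]; linarith) (by simp only [hdiff]; linarith)
    · exact disj_below (by simp only; linarith) (by simp only; linarith) 4 6 (by norm_num) (by norm_num)
        (by simp only [hdiff]; linarith) (by simp only [hdiff]; linarith)
  · unfold prodX
    simp only [List.forall_mem_cons, prod_q0_0 lo ro o, prod_q0_1 lo ro o, prod_q0_2 lo ro o, prod_q2_0 lo ro o, prod_q2_1 lo ro o, prod_q2_2 lo ro o, prod_q2_3 lo ro o, prod_q2_4 lo ro o, prod_q2_5 lo ro o, prod_q2_6 lo ro o, prod_q2_7 lo ro o, prod_q2_8 lo ro o, prod_q2_9 lo ro o, prod_q2_10 lo ro o, prod_q2_11 lo ro o, prod_q2_12 lo ro o, gP]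
    refine ⟨?_, ?_, ?_, ?_, ?_, ?_, ?_, by simp⟩ <;> (intro hc; linarith)

end Pool.Agent.K4H90.SegDraw
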