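import Pool.Agent.K4H90.Seg.GadGeo

/-!
# What a drawing of a gadget forces
-/

namespace Pool.Agent.K4H90.SegDraw

/-- The triples `(s, a, b)` with `a` before `b` among the right neighbours of `s`, for `s` having a
left neighbour. -/
def trRs (g : Gadget) : List (Ref × Ref × Ref) :=
  (refs g).flatMap fun s => if s.1 = 0 ∨ ll g s ≠ [] then (prs (rl g s)).map fun p => (s, p) else []

/-- The triples `(s, a, b)` with `a` before `b` among the left neighbours of `s`, for `s` having a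
right neighbour. -/
def trLs (g : Gadget) : List (Ref × Ref × Ref) :=
  (refs g).flatMap fun s => if rl g s ≠ [] then (prs (ll g s)).map fun p => (s, p) else []

/-- The offsets of the inner vertices, end points of the segments allowed. -/
def OffCl (g : Gadget) (o : ℕ → ℝ) : Prop :=
  ∀ i w, g.1[i]? = some w → (w.2.2.1 = 0 → 0 ≤ o i ∧ o i ≤ 16) ∧ (w.2.2.1 = 1 → o i = 8) ∧
    (w.2.2.1 = 2 → (w.1 : ℝ) ≤ o i ∧ o i ≤ (w.1 : ℝ) + 3)

/-- The facts about the positions in a gadget given by a drawing. -/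
structure SndOK (g : Gadget) (lo ro o : ℕ → ℝ) : Prop where
  off : OffCl g o
  hR : ∀ t ∈ trRs g, 0 < cr (cfg g lo ro o t.1) (cfg g lo ro o t.2.1) (cfg g lo ro o t.2.2)
  hL : ∀ t ∈ trLs g, 0 < cr (cfg g lo ro o t.1) (cfg g lo ro o t.2.1) (cfg g lo ro o t.2.2)

theorem plain_trRs : trRs plainG =
    [((0, 0), (2, 1), (2, 0)), ((2, 1), (2, 2), (1, 0))] := by
  decide +kernel

theorem plain_trLs : trLs plainG =
    [] := by
  decide +kernel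

theorem plain_snd {lo ro o : ℕ → ℝ} (h : SndOK plainG lo ro o) :
    lo 0 < ro 0 := by
  obtain ⟨ho, hR, hL⟩ := h
  have e0 : o 0 = 8 := (ho 0 _ rfl).2.1 rfl
  have e2 : o 2 = 8 := (ho 2 _ rfl).2.1 rfl
  rw [plain_trRs] at hR
  simp only [List.forall_mem_cons, plain_q0_0 lo ro o, plain_q1_0 lo ro o, plain_q2_0 lo ro o, plain_q2_1 lo ro o, plain_q2_2 lo ro o, cr, e0, e2] at hR
  obtain ⟨r0, r1, -⟩ := hR
  linarith

theorem neg_trRs : trRs negG =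
    [((0, 0), (2, 0), (1, 0))] := by
  decide +kernel

theorem neg_trLs : trLs negG =
    [] := by
  decide +kernel

theorem neg_snd {lo ro o : ℕ → ℝ} (h : SndOK negG lo ro o) :
    16 < lo 0 + ro 0 := by
  obtain ⟨ho, hR, hL⟩ := h
  have e0 : o 0 = 8 := (ho 0 _ rfl).2.1 rfl
  rw [neg_trRs] at hR
  simp only [List.forall_mem_cons, neg_q0_0 lo ro o, neg_q1_0 lo ro o, neg_q2_0 lo ro o, cr, e0] at hR
  obtain ⟨r0, -⟩ := hR
  linarith

theorem swap_trRs : trRs swapG =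
    [((0, 0), (2, 1), (2, 0)), ((0, 1), (2, 3), (2, 6)), ((0, 1), (2, 3), (2, 10)), ((0, 1), (2, 3), (1, 1)), ((0, 1), (2, 6), (2, 10)), ((0, 1), (2, 6), (1, 1)), ((0, 1), (2, 10), (1, 1)), ((2, 1), (2, 2), (2, 3)), ((2, 3), (2, 4), (2, 5)), ((2, 5), (2, 13), (2, 12)), ((2, 6), (2, 12), (2, 11)), ((2, 6), (2, 12), (2, 8)), ((2, 6), (2, 12), (2, 7)), ((2, 6), (2, 11), (2, 8)), ((2, 6), (2, 11), (2, 7)), ((2, 6), (2, 8), (2, 7)), ((2, 8), (2, 9), (2, 10)), ((2, 13), (2, 14), (1, 0))] := by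
  decide +kernel

theorem swap_trLs : trLs swapG =
    [((2, 3), (0, 1), (2, 1))] := by
  decide +kernel

theorem swap_snd {lo ro o : ℕ → ℝ} (h : SndOK swapG lo ro o) :
    lo 0 < ro 1 ∧ lo 1 < ro 0 := by
  obtain ⟨ho, hR, hL⟩ := h
  have e0 : o 0 = 8 := (ho 0 _ rfl).2.1 rfl
  have e2 : o 2 = 8 := (ho 2 _ rfl).2.1 rfl
  have e4 : o 4 = 8 := (ho 4 _ rfl).2.1 rfl
  have e7 : o 7 = 8 := (ho 7 _ rfl).2.1 rfl
  have e9 : o 9 = 8 := (ho 9 _ rfl).2.1 rfl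
  have e11 : o 11 = 8 := (ho 11 _ rfl).2.1 rfl
  have e14 : o 14 = 8 := (ho 14 _ rfl).2.1 rfl
  rw [swap_trRs] at hR
  simp only [List.forall_mem_cons, swap_q0_0 lo ro o, swap_q0_1 lo ro o, swap_q1_0 lo ro o, swap_q1_1 lo ro o, swap_q2_0 lo ro o, swap_q2_1 lo ro o, swap_q2_2 lo ro o, swap_q2_3 lo ro o, swap_q2_4 lo ro o, swap_q2_5 lo ro o, swap_q2_6 lo ro o, swap_q2_7 lo ro o, swap_q2_8 lo ro o, swap_q2_9 lo ro o, swap_q2_10 lo ro o, swap_q2_11 lo ro o, swap_q2_12 lo ro o, swap_q2_13 lo ro o, swap_q2_14 lo ro o, cr, e0, e2, e4, e7, e9, e11, e14] at hR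
  obtain ⟨r0, r1, r2, r3, r4, r5, r6, r7, r8, r9, r10, r11, r12, r13, r14, r15, r16, r17, -⟩ := hR
  rw [swap_trLs] at hL
  simp only [List.forall_mem_cons, swap_q0_0 lo ro o, swap_q0_1 lo ro o, swap_q1_0 lo ro o, swap_q1_1 lo ro o, swap_q2_0 lo ro o, swap_q2_1 lo ro o, swap_q2_2 lo ro o, swap_q2_3 lo ro o, swap_q2_4 lo ro o, swap_q2_5 lo ro o, swap_q2_6 lo ro o, swap_q2_7 lo ro o, swap_q2_8 lo ro o, swap_q2_9 lo ro o, swap_q2_10 lo ro o, swap_q2_11 lo ro o, swap_q2_12 lo ro o, swap_q2_13 lo ro o, swap_q2_14 lo ro o, cr, e0, e2, e4, e7, e9, e11, e14] at hL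
  obtain ⟨s0, -⟩ := hL
  constructor <;> linarith

theorem lin_trRs : trRs linG =
    [((0, 0), (2, 3), (2, 5)), ((0, 1), (2, 5), (2, 4)), ((0, 2), (2, 1), (2, 0)), ((2, 1), (2, 2), (2, 3))] := by
  decide +kernel

theorem lin_trLs : trLs linG =
    [] := by
  decide +kernel

theorem lin_snd {lo ro o : ℕ → ℝ} (h : SndOK linG lo ro o) :
    lo 0 + lo 2 + 2 * lo 1 < 32 := by
  obtain ⟨ho, hR, hL⟩ := h
  have e0 : o 0 = 8 := (ho 0 _ rfl).2.1 rfl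
  have e2 : o 2 = 8 := (ho 2 _ rfl).2.1 rfl
  have e4 : o 4 = 8 := (ho 4 _ rfl).2.1 rfl
  rw [lin_trRs] at hR
  simp only [List.forall_mem_cons, lin_q0_0 lo ro o, lin_q0_1 lo ro o, lin_q0_2 lo ro o, lin_q2_0 lo ro o, lin_q2_1 lo ro o, lin_q2_2 lo ro o, lin_q2_3 lo ro o, lin_q2_4 lo ro o, lin_q2_5 lo ro o, cr, e0, e2, e4] at hR
  obtain ⟨r0, r1, r2, r3, -⟩ := hR
  linarith

theorem prod_trRs : trRs prodG =
    [((0, 0), (2, 1), (2, 0)), ((0, 1), (2, 5), (2, 4)), ((0, 2), (2, 9), (2, 8)), ((2, 1), (2, 2), (2, 3)), ((2, 5), (2, 6), (2, 7))] := by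
  decide +kernel

theorem prod_trLs : trLs prodG =
    [((2, 10), (2, 9), (2, 7)), ((2, 10), (2, 9), (2, 11)), ((2, 10), (2, 9), (2, 3)), ((2, 10), (2, 7), (2, 11)), ((2, 10), (2, 7), (2, 3)), ((2, 10), (2, 11), (2, 3))] := by
  decide +kernel

theorem prod_snd {lo ro o : ℕ → ℝ} (h : SndOK prodG lo ro o) (h0 : 0 ≤ lo 0) (h1 : 0 ≤ lo 1) :
    (16 + lo 1) * lo 0 + 16 * lo 2 < 320 := by
  obtain ⟨ho, hR, hL⟩ := h
  have e0 : o 0 = 8 := (ho 0 _ rfl).2.1 rfl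
  have e2 : o 2 = 8 := (ho 2 _ rfl).2.1 rfl
  have e4 : o 4 = 8 := (ho 4 _ rfl).2.1 rfl
  have e6 : o 6 = 8 := (ho 6 _ rfl).2.1 rfl
  have e8 : o 8 = 8 := (ho 8 _ rfl).2.1 rfl
  obtain ⟨e10a, e10b⟩ := (ho 10 _ rfl).2.2 rfl
  norm_num at e10a e10b
  have e11 : o 11 = 8 := (ho 11 _ rfl).2.1 rfl
  have e12 : o 12 = 8 := (ho 12 _ rfl).2.1 rfl
  rw [prod_trRs] at hR
  simp only [List.forall_mem_cons, prod_q0_0 lo ro o, prod_q0_1 lo ro o, prod_q0_2 lo ro o, prod_q2_0 lo ro o, prod_q2_1 lo ro o, prod_q2_2 lo ro o, prod_q2_3 lo ro o, prod_q2_4 lo ro o, prod_q2_5 lo ro o, prod_q2_6 lo ro o, prod_q2_7 lo ro o, prod_q2_8 lo ro o, prod_q2_9 lo ro o, prod_q2_10 lo ro o, prod_q2_11 lo ro o, prod_q2_12 lo ro o, cr, e0, e2, e4, e6, e8, e11, e12] at hR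
  obtain ⟨r0, r1, r2, r3, r4, -⟩ := hR
  rw [prod_trLs] at hL
  simp only [List.forall_mem_cons, prod_q0_0 lo ro o, prod_q0_1 lo ro o, prod_q0_2 lo ro o, prod_q2_0 lo ro o, prod_q2_1 lo ro o, prod_q2_2 lo ro o, prod_q2_3 lo ro o, prod_q2_4 lo ro o, prod_q2_5 lo ro o, prod_q2_6 lo ro o, prod_q2_7 lo ro o, prod_q2_8 lo ro o, prod_q2_9 lo ro o, prod_q2_10 lo ro o, prod_q2_11 lo ro o, prod_q2_12 lo ro o, cr, e0, e2, e4, e6, e8, e11, e12] at hL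
  obtain ⟨s0, s1, s2, s3, s4, s5, -⟩ := hL
  have v6 : 0 < o 10 - 6 := by linarith
  have v4 : 0 < o 10 - 4 := by linarith
  have b1 : lo 0 < o 3 := by linarith
  have b2 : lo 1 < o 7 := by linarith
  have b3 : lo 2 + o 9 < 16 := by linarith
  have b4 : o 3 * (o 10 - 4) < 16 * (o 10 - 6) := by linarith
  have b5 : (16 + o 7) * (o 10 - 6) < (4 + o 9) * (o 10 - 4) := by linarith
  have b6 : (16 + lo 1) * lo 0 ≤ (16 + o 7) * o 3 :=
    mul_le_mul (by linarith) b1.le h0 (by linarith)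
  have b7 : (16 + o 7) * (o 3 * (o 10 - 4)) < (16 + o 7) * (16 * (o 10 - 6)) :=
    mul_lt_mul_of_pos_left b4 (by linarith)
  have b8 : (16 + o 7) * o 3 < 16 * (4 + o 9) := by
    by_contra hc
    rw [not_lt] at hc
    have := mul_le_mul_of_nonneg_right hc v4.le
    linarith
  linarith

end Pool.Agent.K4H90.SegDraw
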