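import Pool.Agent.K4H90.Seg.Plane

/-!
# Gadgets
-/

namespace Pool.Agent.K4H90.SegDraw

/-- A local reference: `(0, i)` is the left port `i`, `(1, i)` the right port `i`, `(2, i)` the inner
vertex `i`. -/
abbrev Ref : Type := ℕ × ℕ

/-- An inner vertex: abscissa, ordinate, kind, list of left neighbours (from top to bottom), list of
right neighbours (from bottom to top). -/
abbrev Row : Type := ℕ × ℕ × ℕ × List Ref × List Ref

/-- A gadget: its inner vertices, the right neighbours of its left ports, the left neighbours of its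
right ports. -/
abbrev Gadget : Type := List Row × List (List Ref) × List (List Ref)

/-- Right neighbours. -/
def rl (g : Gadget) (r : Ref) : List Ref :=
  if r.1 = 0 then (g.2.1[r.2]?).getD [] else
  if r.1 = 2 then ((g.1[r.2]?).map fun w => w.2.2.2.2).getD [] else []

/-- Left neighbours. -/
def ll (g : Gadget) (r : Ref) : List Ref :=
  if r.1 = 1 then (g.2.2[r.2]?).getD [] else
  if r.1 = 2 then ((g.1[r.2]?).map fun w => w.2.2.2.1).getD [] else []

/-- All references of a gadget. -/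
def refs (g : Gadget) : List Ref :=
  (List.range g.2.1.length).map (fun i => (0, i)) ++
    ((List.range g.2.2.length).map (fun i => (1, i)) ++
      (List.range g.1.length).map (fun i => (2, i)))

theorem mem_refs {g : Gadget} {r : Ref} : r ∈ refs g ↔ (r.1 = 0 ∧ r.2 < g.2.1.length) ∨
    (r.1 = 1 ∧ r.2 < g.2.2.length) ∨ (r.1 = 2 ∧ r.2 < g.1.length) := by
  unfold refs
  obtain ⟨a, b⟩ := r
  simp only [List.mem_append, List.mem_map, List.mem_range, Prod.mk.injEq]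
  constructor
  · rintro (⟨i, h, rfl, rfl⟩ | ⟨i, h, rfl, rfl⟩ | ⟨i, h, rfl, rfl⟩)
    · exact Or.inl ⟨rfl, h⟩
    · exact Or.inr (Or.inl ⟨rfl, h⟩)
    · exact Or.inr (Or.inr ⟨rfl, h⟩)
  · rintro (⟨rfl, h⟩ | ⟨rfl, h⟩ | ⟨rfl, h⟩)
    · exact Or.inl ⟨b, h, rfl, rfl⟩
    · exact Or.inr (Or.inl ⟨b, h, rfl, rfl⟩)
    · exact Or.inr (Or.inr ⟨b, h, rfl, rfl⟩)

/-- The edges of a gadget, from left to right. -/
def edgesOf (g : Gadget) : List (Ref × Ref) :=
  (refs g).flatMap fun s => (rl g s).map fun r => (s, r)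

theorem mem_edgesOf {g : Gadget} {s r : Ref} : (s, r) ∈ edgesOf g ↔ s ∈ refs g ∧ r ∈ rl g s := by
  unfold edgesOf
  simp only [List.mem_flatMap, List.mem_map, Prod.mk.injEq]
  constructor
  · rintro ⟨a, ha, b, hb, rfl, rfl⟩
    exact ⟨ha, hb⟩
  · rintro ⟨h1, h2⟩
    exact ⟨s, h1, r, h2, rfl, rfl⟩

/-- The number of tracks a gadget occupies. -/
def ht (g : Gadget) : ℕ := max g.2.1.length g.2.2.length

/-- The combinatorial soundness of the data of a gadget. -/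
def GadOK (g : Gadget) : Prop :=
  (∀ s ∈ refs g, ∀ r ∈ rl g s, r ∈ refs g ∧ r.1 ≠ 0 ∧ s ∈ ll g r ∧ s ≠ r) ∧
  (∀ s ∈ refs g, ∀ r ∈ ll g s, r ∈ refs g ∧ r.1 ≠ 1 ∧ s ∈ rl g r) ∧
  (∀ s ∈ refs g, (ll g s ++ rl g s).Nodup) ∧
  (∀ i < g.1.length, ∃ r ∈ ll g (2, i) ++ rl g (2, i), r.1 = 0 ∨ (r.1 = 2 ∧ r.2 < i)) ∧
  (∀ i < g.2.2.length, ll g (1, i) ≠ []) ∧
  (g.1 = [] ∨ 0 < g.2.1.length)

instance (g : Gadget) : Decidable (GadOK g) := by unfold GadOK; infer_instance

/-- All pairs of entries of a list, in order. -/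
def prs {α : Type} : List α → List (α × α)
  | [] => []
  | a :: l => l.map (fun b => (a, b)) ++ prs l

theorem pairwise_of_prs {α : Type} {R : α → α → Prop} {l : List α}
    (h : ∀ p ∈ prs l, R p.1 p.2) : l.Pairwise R := by
  induction l with
  | nil => exact List.Pairwise.nil
  | cons a l ih =>
    unfold prs at h
    rw [List.forall_mem_append] at h
    refine List.Pairwise.cons (fun b hb => ?_) (ih h.2)
    exact h.1 (a, b) (List.mem_map.2 ⟨b, hb, rfl⟩)

theorem prs_of_pairwise {α : Type} {R : α → α → Prop} {l : List α}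
    (h : l.Pairwise R) : ∀ p ∈ prs l, R p.1 p.2 := by
  induction l with
  | nil => intro p hp; simp [prs] at hp
  | cons a l ih =>
    rw [List.pairwise_cons] at h
    intro p hp
    unfold prs at hp
    rw [List.mem_append, List.mem_map] at hp
    rcases hp with ⟨b, hb, rfl⟩ | hp
    · exact h.1 b hb
    · exact ih h.2 p hp

/-- The triples `(s, a, b)` with `a` before `b` among the right neighbours of `s`. -/
def trR (g : Gadget) : List (Ref × Ref × Ref) :=
  (refs g).flatMap fun s => (prs (rl g s)).map fun p => (s, p)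

/-- The triples `(s, a, b)` with `a` before `b` among the left neighbours of `s`. -/
def trL (g : Gadget) : List (Ref × Ref × Ref) :=
  (refs g).flatMap fun s => (prs (ll g s)).map fun p => (s, p)

/-- The geometric correctness of a gadget whose vertices are at the points `q r`. -/
structure GeoOK (g : Gadget) (q : Ref → ℝ × ℝ) : Prop where
  lp : ∀ i < g.2.1.length, (q (0, i)).1 = 0 ∧ 192 * (i : ℝ) < (q (0, i)).2 ∧
    (q (0, i)).2 < 192 * (i : ℝ) + 16
  rp : ∀ i < g.2.2.length, (q (1, i)).1 = 12 ∧ 192 * (i : ℝ) < (q (1, i)).2 ∧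
    (q (1, i)).2 < 192 * (i : ℝ) + 16
  inn : ∀ i < g.1.length, 0 < (q (2, i)).1 ∧ (q (2, i)).1 < 12 ∧ 0 ≤ (q (2, i)).2 ∧
    (q (2, i)).2 + 176 ≤ 192 * (ht g : ℝ)
  inj : ∀ i < g.1.length, ∀ j < g.1.length, q (2, i) = q (2, j) → i = j
  dir : ∀ e ∈ edgesOf g, (q e.1).1 < (q e.2).1
  srtR : ∀ s ∈ refs g, (rl g s).Pairwise fun a b => 0 < cr (q s) (q a) (q b)
  srtL : ∀ s ∈ refs g, (ll g s).Pairwise fun a b => 0 < cr (q s) (q a) (q b)
  nc : ∀ e ∈ edgesOf g, ∀ f ∈ edgesOf g, e = f ∨ NC (q e.1) (q e.2) (q f.1) (q f.2)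

/-- Lower bound of the abscissa. -/
def xlo (g : Gadget) (r : Ref) : ℕ :=
  if r.1 = 0 then 0 else if r.1 = 1 then 12 else ((g.1[r.2]?).map fun w => w.1).getD 0

/-- Upper bound of the abscissa. -/
def xhi (g : Gadget) (r : Ref) : ℕ :=
  if r.1 = 0 then 0 else if r.1 = 1 then 12 else
    ((g.1[r.2]?).map fun w => if w.2.2.1 = 2 then w.1 + 3 else w.1).getD 0

/-- Every two edges have a common end point, or are separated by a vertical line, or are in the
table. -/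
def tabB (g : Gadget) (hp : List ((Ref × Ref) × (Ref × Ref))) : Bool :=
  (edgesOf g).all fun e => (edgesOf g).all fun f =>
    decide (e.1 = f.1) || (decide (e.2 = f.2) || (decide (xhi g e.2 ≤ xlo g f.1) ||
      (decide (xhi g f.2 ≤ xlo g e.1) || (decide (e.2 = f.1) || (decide (f.2 = e.1) ||
        (decide ((e, f) ∈ hp) || decide ((f, e) ∈ hp)))))))

theorem tabB_spec {g : Gadget} {hp : List ((Ref × Ref) × (Ref × Ref))} (h : tabB g hp = true) :
    ∀ e ∈ edgesOf g, ∀ f ∈ edgesOf g, e.1 = f.1 ∨ e.2 = f.2 ∨ xhi g e.2 ≤ xlo g f.1 ∨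
      xhi g f.2 ≤ xlo g e.1 ∨ e.2 = f.1 ∨ f.2 = e.1 ∨ (e, f) ∈ hp ∨ (f, e) ∈ hp := by
  unfold tabB at h
  intro e he f hf
  have h1 := List.all_eq_true.1 (List.all_eq_true.1 h e he) f hf
  simpa only [Bool.or_eq_true, decide_eq_true_eq] using h1

theorem pw_ne {α : Type} {R : α → α → Prop} (hs : ∀ a b, R a b → R b a) {l : List α}
    (h : l.Pairwise R) {a b : α} (ha : a ∈ l) (hb : b ∈ l) (hne : a ≠ b) : R a b :=
  haveI : Std.Symm R := ⟨hs⟩
  h.forall ha hb hne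

theorem nc_of_table {g : Gadget} (hg : GadOK g) {q : Ref → ℝ × ℝ}
    (hx : ∀ r ∈ refs g, (xlo g r : ℝ) ≤ (q r).1 ∧ (q r).1 ≤ (xhi g r : ℝ))
    (dir : ∀ e ∈ edgesOf g, (q e.1).1 < (q e.2).1)
    (srtR : ∀ s ∈ refs g, (rl g s).Pairwise fun a b => 0 < cr (q s) (q a) (q b))
    (srtL : ∀ s ∈ refs g, (ll g s).Pairwise fun a b => 0 < cr (q s) (q a) (q b))
    {hp : List ((Ref × Ref) × (Ref × Ref))} (ht : tabB g hp = true)
    (hh : ∀ p ∈ hp, Disj (q p.1.1) (q p.1.2) (q p.2.1) (q p.2.2)) :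
    ∀ e ∈ edgesOf g, ∀ f ∈ edgesOf g, e = f ∨ NC (q e.1) (q e.2) (q f.1) (q f.2) := by
  intro e he f hf
  obtain ⟨e1, e2⟩ := e
  obtain ⟨f1, f2⟩ := f
  have de := dir _ he
  have df := dir _ hf
  obtain ⟨re, le⟩ := mem_edgesOf.1 he
  obtain ⟨rf, lf⟩ := mem_edgesOf.1 hf
  have cra : ∀ o a b : ℝ × ℝ, cr o b a = - cr o a b := fun o a b => by unfold cr; ring
  rcases tabB_spec ht _ he _ hf with h | h | h | h | h | h | h | h
  · simp only at h
    subst h
    by_cases h2 : e2 = f2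
    · left; rw [h2]
    · right
      refine nc_left de ?_
      have key : ∀ a ∈ rl g e1, ∀ b ∈ rl g e1, a ≠ b → cr (q e1) (q a) (q b) ≠ 0 := by
        intro a ha b hb
        exact pw_ne (fun x y hxy h0 => hxy (by rw [cra, h0, neg_zero]))
          ((srtR _ re).imp fun h => ne_of_gt h) ha hb
      exact key _ le _ lf h2
  · simp only at h
    subst h
    by_cases h2 : e1 = f1
    · left; rw [h2]
    · right
      refine nc_right de ?_
      obtain ⟨r1, -, m1, -⟩ := hg.1 _ re _ le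
      obtain ⟨-, -, m2, -⟩ := hg.1 _ rf _ lf
      have key : ∀ a ∈ ll g e2, ∀ b ∈ ll g e2, a ≠ b → cr (q e2) (q a) (q b) ≠ 0 := by
        intro a ha b hb
        exact pw_ne (fun x y hxy h0 => hxy (by rw [cra, h0, neg_zero]))
          ((srtL _ r1).imp fun h => ne_of_gt h) ha hb
      exact key _ m1 _ m2 h2
  · right
    refine nc_touch de df ?_
    have h1 := (hx _ (hg.1 _ re _ le).1).2
    have h2 := (hx _ rf).1
    have h3 : ((xhi g e2 : ℕ) : ℝ) ≤ (xlo g f1 : ℕ) := by exact_mod_cast h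
    simp only
    linarith
  · right
    refine (nc_touch df de ?_).symm
    have h1 := (hx _ (hg.1 _ rf _ lf).1).2
    have h2 := (hx _ re).1
    have h3 : ((xhi g f2 : ℕ) : ℝ) ≤ (xlo g e1 : ℕ) := by exact_mod_cast h
    simp only
    linarith
  · right
    simp only at h
    subst h
    exact nc_touch de df le_rfl
  · right
    simp only at h
    subst h
    exact (nc_touch df de le_rfl).symm
  · right
    exact (hh _ h).nc
  · right
    exact (hh _ h).symm.nc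

theorem srtR_of_tr {g : Gadget} {q : Ref → ℝ × ℝ}
    (h : ∀ t ∈ trR g, 0 < cr (q t.1) (q t.2.1) (q t.2.2)) :
    ∀ s ∈ refs g, (rl g s).Pairwise fun a b => 0 < cr (q s) (q a) (q b) := fun s hs =>
  pairwise_of_prs fun p hp => h (s, p) (List.mem_flatMap.2 ⟨s, hs, List.mem_map.2 ⟨p, hp, rfl⟩⟩)

theorem srtL_of_tr {g : Gadget} {q : Ref → ℝ × ℝ}
    (h : ∀ t ∈ trL g, 0 < cr (q t.1) (q t.2.1) (q t.2.2)) :
    ∀ s ∈ refs g, (ll g s).Pairwise fun a b => 0 < cr (q s) (q a) (q b) := fun s hs =>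
  pairwise_of_prs fun p hp => h (s, p) (List.mem_flatMap.2 ⟨s, hs, List.mem_map.2 ⟨p, hp, rfl⟩⟩)

/-- The positions of the vertices of a gadget, for given offsets. -/
noncomputable def cfg (g : Gadget) (lo ro o : ℕ → ℝ) (r : Ref) : ℝ × ℝ :=
  if r.1 = 0 then (0, 192 * (r.2 : ℝ) + lo r.2) else
  if r.1 = 1 then (12, 192 * (r.2 : ℝ) + ro r.2) else
  match g.1[r.2]? with
  | some w => if w.2.2.1 = 2 then (o r.2, (w.2.1 : ℝ)) else ((w.1 : ℝ), (w.2.1 : ℝ) + o r.2)
  | none => (0, 0)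

/-- The numerical conditions on the data of a gadget. -/
def numB (g : Gadget) (sx : List (ℕ × ℕ)) : Bool :=
  ((edgesOf g).all fun e => decide (xhi g e.1 < xlo g e.2)) &&
  (((List.range g.1.length).all fun i => decide (0 < xlo g (2, i) ∧ xhi g (2, i) < 12 ∧
    ((g.1[i]?).map fun w => w.2.1).getD 0 + 192 ≤ 192 * ht g)) &&
  ((List.range g.1.length).all fun i => (List.range g.1.length).all fun j =>
    decide (j ≤ i) || (decide (xhi g (2, i) < xlo g (2, j)) ||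
      (decide (xhi g (2, j) < xlo g (2, i)) || decide ((i, j) ∈ sx)))))

theorem cfg_lp (g : Gadget) (lo ro o : ℕ → ℝ) (i : ℕ) :
    cfg g lo ro o (0, i) = (0, 192 * (i : ℝ) + lo i) := by simp [cfg]

theorem cfg_rp (g : Gadget) (lo ro o : ℕ → ℝ) (i : ℕ) :
    cfg g lo ro o (1, i) = (12, 192 * (i : ℝ) + ro i) := by simp [cfg]

theorem cfg_inn {g : Gadget} (lo ro o : ℕ → ℝ) {i : ℕ} {w : Row} (h : g.1[i]? = some w) :
    cfg g lo ro o (2, i) = if w.2.2.1 = 2 then (o i, (w.2.1 : ℝ)) else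
      ((w.1 : ℝ), (w.2.1 : ℝ) + o i) := by
  unfold cfg
  simp [h]

/-- The conditions on the offsets of the inner vertices. -/
def OffOK (g : Gadget) (o : ℕ → ℝ) : Prop :=
  ∀ i w, g.1[i]? = some w → (w.2.2.1 ≠ 2 → 0 < o i ∧ o i < 16) ∧
    (w.2.2.1 = 2 → (w.1 : ℝ) < o i ∧ o i < (w.1 : ℝ) + 3)

theorem geo_of_cfg {g : Gadget} (hg : GadOK g) {sx : List (ℕ × ℕ)} (hn : numB g sx = true)
    {lo ro o : ℕ → ℝ} (hl : ∀ i < g.2.1.length, 0 < lo i ∧ lo i < 16)
    (hr : ∀ i < g.2.2.length, 0 < ro i ∧ ro i < 16) (ho : OffOK g o)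
    (hR : ∀ t ∈ trR g, 0 < cr (cfg g lo ro o t.1) (cfg g lo ro o t.2.1) (cfg g lo ro o t.2.2))
    (hL : ∀ t ∈ trL g, 0 < cr (cfg g lo ro o t.1) (cfg g lo ro o t.2.1) (cfg g lo ro o t.2.2))
    {hp : List ((Ref × Ref) × (Ref × Ref))} (ht' : tabB g hp = true)
    (hh : ∀ p ∈ hp, Disj (cfg g lo ro o p.1.1) (cfg g lo ro o p.1.2) (cfg g lo ro o p.2.1)
      (cfg g lo ro o p.2.2))
    (hsx : ∀ p ∈ sx, (cfg g lo ro o (2, p.1)).2 ≠ (cfg g lo ro o (2, p.2)).2) :
    GeoOK g (cfg g lo ro o) := by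
  unfold numB at hn
  rw [Bool.and_eq_true, Bool.and_eq_true] at hn
  obtain ⟨n1, n2, n3⟩ := hn
  have n1' : ∀ e ∈ edgesOf g, xhi g e.1 < xlo g e.2 := fun e he => by
    simpa using List.all_eq_true.1 n1 e he
  have n2' : ∀ i < g.1.length, 0 < xlo g (2, i) ∧ xhi g (2, i) < 12 ∧
      ((g.1[i]?).map fun w => w.2.1).getD 0 + 192 ≤ 192 * ht g := fun i hi => by
    have := List.all_eq_true.1 n2 i (List.mem_range.2 hi)
    rwa [decide_eq_true_eq] at this
  have n3' : ∀ i < g.1.length, ∀ j < g.1.length, j ≤ i ∨ xhi g (2, i) < xlo g (2, j) ∨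
      xhi g (2, j) < xlo g (2, i) ∨ (i, j) ∈ sx := fun i hi j hj => by
    have := List.all_eq_true.1 (List.all_eq_true.1 n3 i (List.mem_range.2 hi)) j
      (List.mem_range.2 hj)
    simpa only [Bool.or_eq_true, decide_eq_true_eq] using this
  have hx : ∀ r ∈ refs g, (xlo g r : ℝ) ≤ (cfg g lo ro o r).1 ∧
      (cfg g lo ro o r).1 ≤ (xhi g r : ℝ) := by
    rintro ⟨a, i⟩ hr'
    rcases mem_refs.1 hr' with ⟨h1, h2⟩ | ⟨h1, h2⟩ | ⟨h1, h2⟩
    · simp only at h1; subst h1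
      rw [cfg_lp]; simp [xlo, xhi]
    · simp only at h1; subst h1
      rw [cfg_rp]; simp [xlo, xhi]
    · simp only at h1 h2; subst h1
      have hw : g.1[i]? = some g.1[i] := List.getElem?_eq_getElem h2
      obtain ⟨-, o2⟩ := ho i _ hw
      rw [cfg_inn lo ro o hw]
      unfold xlo xhi
      simp only [show (2 : ℕ) ≠ 0 by norm_num, show (2 : ℕ) ≠ 1 by norm_num, if_false, hw,
        Option.map_some, Option.getD_some]
      split_ifs with hk
      · have := o2 hk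
        push_cast
        constructor <;> linarith
      · simp
  have dir : ∀ e ∈ edgesOf g, (cfg g lo ro o e.1).1 < (cfg g lo ro o e.2).1 := by
    intro e he
    have m := mem_edgesOf.1 (show (e.1, e.2) ∈ edgesOf g from he)
    have h1 := (hx _ m.1).2
    have h2 := (hx _ (hg.1 _ m.1 _ m.2).1).1
    have h3 : (xhi g e.1 : ℝ) < (xlo g e.2 : ℝ) := by exact_mod_cast n1' e he
    linarith
  have ref2 : ∀ i < g.1.length, ((2, i) : Ref) ∈ refs g := fun i hi =>
    mem_refs.2 (Or.inr (Or.inr ⟨rfl, hi⟩))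
  have hinj : ∀ i < g.1.length, ∀ j < g.1.length, i < j →
      cfg g lo ro o (2, i) ≠ cfg g lo ro o (2, j) := by
    intro i hi j hj hij he
    have k1 := hx _ (ref2 i hi)
    have k2 := hx _ (ref2 j hj)
    rcases n3' i hi j hj with h | h | h | h
    · omega
    · have : (xhi g (2, i) : ℝ) < (xlo g (2, j) : ℝ) := by exact_mod_cast h
      rw [he] at k1
      linarith [k1.2, k2.1]
    · have : (xhi g (2, j) : ℝ) < (xlo g (2, i) : ℝ) := by exact_mod_cast h
      rw [he] at k1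
      linarith [k1.1, k2.2]
    · exact hsx _ h (by simp only [he])
  refine ⟨?_, ?_, ?_, ?_, dir, srtR_of_tr hR, srtL_of_tr hL, ?_⟩
  · intro i hi
    have := hl i hi
    rw [cfg_lp]
    refine ⟨rfl, ?_, ?_⟩ <;> simp only <;> linarith
  · intro i hi
    have := hr i hi
    rw [cfg_rp]
    refine ⟨rfl, ?_, ?_⟩ <;> simp only <;> linarith
  · intro i hi
    obtain ⟨m1, m2, m3⟩ := n2' i hi
    have k1 := hx _ (ref2 i hi)
    have m1' : (0 : ℝ) < (xlo g (2, i) : ℝ) := by exact_mod_cast m1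
    have m2' : (xhi g (2, i) : ℝ) < 12 := by exact_mod_cast m2
    refine ⟨by linarith, by linarith, ?_⟩
    have hw : g.1[i]? = some g.1[i] := List.getElem?_eq_getElem hi
    rw [hw, Option.map_some, Option.getD_some] at m3
    have m3' : (g.1[i].2.1 : ℝ) + 192 ≤ 192 * (ht g : ℝ) := by exact_mod_cast m3
    have m4 : (0 : ℝ) ≤ (g.1[i].2.1 : ℝ) := Nat.cast_nonneg _
    obtain ⟨o1, -⟩ := ho i _ hw
    rw [cfg_inn lo ro o hw]
    split_ifs with hk
    · simp only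
      constructor <;> linarith
    · have := o1 hk
      simp only
      constructor <;> linarith
  · intro i hi j hj he
    rcases lt_trichotomy i j with h | h | h
    · exact (hinj i hi j hj h he).elim
    · exact h
    · exact (hinj j hj i hi h he.symm).elim
  · exact nc_of_table hg hx dir (srtR_of_tr hR) (srtL_of_tr hL) ht' hh

/-! ### The gadgets -/

/-- The empty gadget. -/
def emptyG : Gadget := ([], [], [])

/-- The gadget plain. -/
def plainG : Gadget :=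
  ([(3, 0, 1, [(0, 0)], []),
    (6, 0, 0, [(0, 0)], [(2, 2), (1, 0)]),
    (9, 0, 1, [(2, 1)], [])],
    [[(2, 1), (2, 0)]],
    [[(2, 1)]])

theorem plainG_ok : GadOK plainG := by decide +kernel

/-- The table of the pairs of edges of the gadget plain that have to be compared. -/
def plainT : List ((Ref × Ref) × (Ref × Ref)) :=
  []

theorem plainT_ok : tabB plainG plainT = true := by decide +kernel

/-- The gadget neg. -/
def negG : Gadget :=
  ([(6, 0, 1, [(0, 0)], [])],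
    [[(2, 0), (1, 0)]],
    [[(0, 0)]])

theorem negG_ok : GadOK negG := by decide +kernel

/-- The table of the pairs of edges of the gadget neg that have to be compared. -/
def negT : List ((Ref × Ref) × (Ref × Ref)) :=
  []

theorem negT_ok : tabB negG negT = true := by decide +kernel

/-- The gadget swap. -/
def swapG : Gadget :=
  ([(1, 0, 1, [(0, 0)], []),
    (2, 0, 0, [(0, 0)], [(2, 2), (2, 3)]),
    (3, 0, 1, [(2, 1)], []),
    (4, 0, 0, [(0, 1), (2, 1)], [(2, 4), (2, 5)]),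
    (5, 0, 1, [(2, 3)], []),
    (6, 0, 0, [(2, 3)], [(2, 13), (2, 12)]),
    (2, 96, 0, [(0, 1)], [(2, 12), (2, 11), (2, 8), (2, 7)]),
    (3, 120, 1, [(2, 6)], []),
    (4, 144, 0, [(2, 6)], [(2, 9), (2, 10)]),
    (5, 168, 1, [(2, 8)], []),
    (6, 192, 0, [(0, 1), (2, 8)], []),
    (5, 48, 1, [(2, 6)], []),
    (8, 0, 0, [(2, 6), (2, 5)], []),
    (10, 0, 0, [(2, 5)], [(2, 14), (1, 0)]),
    (11, 0, 1, [(2, 13)], [])],
    [[(2, 1), (2, 0)], [(2, 3), (2, 6), (2, 10), (1, 1)]],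
    [[(2, 13)], [(0, 1)]])

theorem swapG_ok : GadOK swapG := by decide +kernel

/-- The table of the pairs of edges of the gadget swap that have to be compared. -/
def swapT : List ((Ref × Ref) × (Ref × Ref)) :=
  [(((0, 0), (2, 1)), ((0, 1), (2, 3))),
    (((0, 0), (2, 1)), ((0, 1), (2, 6))),
    (((0, 0), (2, 1)), ((0, 1), (2, 10))),
    (((0, 0), (2, 1)), ((0, 1), (1, 1))),
    (((0, 0), (2, 0)), ((0, 1), (2, 3))),
    (((0, 0), (2, 0)), ((0, 1), (2, 6))),
    (((0, 0), (2, 0)), ((0, 1), (2, 10))),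
    (((0, 0), (2, 0)), ((0, 1), (1, 1))),
    (((2, 1), (2, 2)), ((0, 1), (2, 3))),
    (((0, 1), (2, 3)), ((2, 6), (2, 12))),
    (((0, 1), (2, 3)), ((2, 6), (2, 11))),
    (((0, 1), (2, 3)), ((2, 6), (2, 8))),
    (((0, 1), (2, 3)), ((2, 6), (2, 7))),
    (((2, 1), (2, 2)), ((0, 1), (2, 10))),
    (((2, 1), (2, 3)), ((0, 1), (2, 10))),
    (((2, 3), (2, 4)), ((0, 1), (2, 10))),
    (((2, 3), (2, 5)), ((0, 1), (2, 10))),
    (((2, 6), (2, 12)), ((0, 1), (2, 10))),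
    (((2, 6), (2, 11)), ((0, 1), (2, 10))),
    (((2, 6), (2, 8)), ((0, 1), (2, 10))),
    (((2, 6), (2, 7)), ((0, 1), (2, 10))),
    (((2, 8), (2, 9)), ((0, 1), (2, 10))),
    (((2, 1), (2, 2)), ((0, 1), (1, 1))),
    (((2, 1), (2, 3)), ((0, 1), (1, 1))),
    (((2, 3), (2, 4)), ((0, 1), (1, 1))),
    (((2, 3), (2, 5)), ((0, 1), (1, 1))),
    (((2, 5), (2, 13)), ((0, 1), (1, 1))),
    (((2, 5), (2, 12)), ((0, 1), (1, 1))),
    (((2, 6), (2, 12)), ((0, 1), (1, 1))),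
    (((2, 6), (2, 11)), ((0, 1), (1, 1))),
    (((2, 6), (2, 8)), ((0, 1), (1, 1))),
    (((2, 6), (2, 7)), ((0, 1), (1, 1))),
    (((2, 8), (2, 9)), ((0, 1), (1, 1))),
    (((2, 8), (2, 10)), ((0, 1), (1, 1))),
    (((2, 13), (2, 14)), ((0, 1), (1, 1))),
    (((2, 13), (1, 0)), ((0, 1), (1, 1))),
    (((2, 1), (2, 2)), ((2, 6), (2, 12))),
    (((2, 1), (2, 2)), ((2, 6), (2, 11))),
    (((2, 1), (2, 2)), ((2, 6), (2, 8))),
    (((2, 1), (2, 2)), ((2, 6), (2, 7))),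
    (((2, 1), (2, 3)), ((2, 6), (2, 12))),
    (((2, 1), (2, 3)), ((2, 6), (2, 11))),
    (((2, 1), (2, 3)), ((2, 6), (2, 8))),
    (((2, 1), (2, 3)), ((2, 6), (2, 7))),
    (((2, 3), (2, 4)), ((2, 6), (2, 12))),
    (((2, 3), (2, 4)), ((2, 6), (2, 11))),
    (((2, 3), (2, 4)), ((2, 8), (2, 9))),
    (((2, 3), (2, 4)), ((2, 8), (2, 10))),
    (((2, 3), (2, 5)), ((2, 6), (2, 12))),
    (((2, 3), (2, 5)), ((2, 6), (2, 11))),
    (((2, 3), (2, 5)), ((2, 8), (2, 9))),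
    (((2, 3), (2, 5)), ((2, 8), (2, 10))),
    (((2, 5), (2, 13)), ((2, 6), (2, 12))),
    (((2, 6), (2, 12)), ((2, 8), (2, 9))),
    (((2, 6), (2, 12)), ((2, 8), (2, 10))),
    (((2, 6), (2, 11)), ((2, 8), (2, 9))),
    (((2, 6), (2, 11)), ((2, 8), (2, 10)))]

theorem swapT_ok : tabB swapG swapT = true := by decide +kernel

/-- The gadget lin. -/
def linG : Gadget :=
  ([(1, 384, 1, [(0, 2)], []),
    (2, 384, 0, [(0, 2)], [(2, 2), (2, 3)]),
    (3, 384, 1, [(2, 1)], []),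
    (4, 384, 0, [(2, 1), (0, 0)], []),
    (1, 192, 1, [(0, 1)], []),
    (2, 192, 0, [(0, 1), (0, 0)], [])],
    [[(2, 3), (2, 5)], [(2, 5), (2, 4)], [(2, 1), (2, 0)]],
    [])

theorem linG_ok : GadOK linG := by decide +kernel

/-- The table of the pairs of edges of the gadget lin that have to be compared. -/
def linT : List ((Ref × Ref) × (Ref × Ref)) :=
  [(((0, 0), (2, 3)), ((0, 1), (2, 5))),
    (((0, 0), (2, 3)), ((0, 1), (2, 4))),
    (((0, 0), (2, 3)), ((0, 2), (2, 1))),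
    (((0, 0), (2, 3)), ((0, 2), (2, 0))),
    (((0, 0), (2, 3)), ((2, 1), (2, 2))),
    (((0, 0), (2, 5)), ((0, 1), (2, 4))),
    (((0, 0), (2, 5)), ((0, 2), (2, 1))),
    (((0, 0), (2, 5)), ((0, 2), (2, 0))),
    (((0, 1), (2, 5)), ((0, 2), (2, 1))),
    (((0, 1), (2, 5)), ((0, 2), (2, 0))),
    (((0, 1), (2, 4)), ((0, 2), (2, 1))),
    (((0, 1), (2, 4)), ((0, 2), (2, 0)))]

theorem linT_ok : tabB linG linT = true := by decide +kernel

/-- The gadget prod. -/
def prodG : Gadget :=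
  ([(1, 0, 1, [(0, 0)], []),
    (2, 0, 0, [(0, 0)], [(2, 2), (2, 3)]),
    (4, 0, 1, [(2, 1)], []),
    (6, 0, 0, [(2, 1)], [(2, 10)]),
    (1, 148, 1, [(0, 1)], []),
    (2, 104, 0, [(0, 1)], [(2, 6), (2, 7)]),
    (3, 60, 1, [(2, 5)], []),
    (4, 16, 0, [(2, 5)], [(2, 10)]),
    (3, 194, 1, [(0, 2)], []),
    (6, 4, 0, [(0, 2)], [(2, 10)]),
    (7, 0, 2, [(2, 9), (2, 7), (2, 11), (2, 3)], [(2, 12)]),
    (4, 8, 1, [], [(2, 10)]),
    (11, 0, 1, [(2, 10)], [])],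
    [[(2, 1), (2, 0)], [(2, 5), (2, 4)], [(2, 9), (2, 8)]],
    [])

theorem prodG_ok : GadOK prodG := by decide +kernel

/-- The table of the pairs of edges of the gadget prod that have to be compared. -/
def prodT : List ((Ref × Ref) × (Ref × Ref)) :=
  [(((0, 0), (2, 1)), ((0, 1), (2, 5))),
    (((0, 0), (2, 1)), ((0, 1), (2, 4))),
    (((0, 0), (2, 1)), ((0, 2), (2, 9))),
    (((0, 0), (2, 1)), ((0, 2), (2, 8))),
    (((0, 0), (2, 0)), ((0, 1), (2, 5))),
    (((0, 0), (2, 0)), ((0, 1), (2, 4))),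
    (((0, 0), (2, 0)), ((0, 2), (2, 9))),
    (((0, 0), (2, 0)), ((0, 2), (2, 8))),
    (((0, 1), (2, 5)), ((0, 2), (2, 9))),
    (((0, 1), (2, 5)), ((0, 2), (2, 8))),
    (((0, 1), (2, 4)), ((0, 2), (2, 9))),
    (((0, 1), (2, 4)), ((0, 2), (2, 8))),
    (((2, 1), (2, 2)), ((0, 2), (2, 9))),
    (((2, 1), (2, 3)), ((0, 2), (2, 9))),
    (((2, 5), (2, 6)), ((0, 2), (2, 9))),
    (((2, 5), (2, 7)), ((0, 2), (2, 9))),
    (((0, 2), (2, 9)), ((2, 7), (2, 10))),
    (((0, 2), (2, 9)), ((2, 11), (2, 10))),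
    (((2, 1), (2, 2)), ((0, 2), (2, 8))),
    (((2, 1), (2, 3)), ((0, 2), (2, 8))),
    (((2, 5), (2, 6)), ((0, 2), (2, 8))),
    (((2, 5), (2, 7)), ((0, 2), (2, 8))),
    (((2, 1), (2, 2)), ((2, 5), (2, 6))),
    (((2, 1), (2, 2)), ((2, 5), (2, 7))),
    (((2, 1), (2, 3)), ((2, 5), (2, 6))),
    (((2, 1), (2, 3)), ((2, 5), (2, 7))),
    (((2, 1), (2, 3)), ((2, 7), (2, 10))),
    (((2, 1), (2, 3)), ((2, 11), (2, 10)))]

theorem prodT_ok : tabB prodG prodT = true := by decide +kernel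

end Pool.Agent.K4H90.SegDraw
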