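import Pool.Agent.K4H90.Seg.PolyB

/-!
# Hardness of drawing a plane graph with its vertices on given segments
-/

namespace Pool.Agent.K4H90.SegDraw

open Pool.Agent.NPC

theorem red_planeGraph (cl : Bool) (S : List ER.Con) : (K4H90Seg.red cl S).PlaneGraph :=
  Dat.planeGraph (datOf_ok (strict_ne_nil S)) cl

theorem red_correct (cl : Bool) (S : List ER.Con) :
    ER.Sat S ↔ (K4H90Seg.red cl S).Solvable := by
  constructor
  · intro h
    obtain ⟨v, hv, hh, hk, hc⟩ := strict_complete h
    exact solvable_of _ (strict_ne_nil S) hv hh hk hc cl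
  · intro h
    obtain ⟨v, hv, hh, hk, hc⟩ := of_solvable _ (strict_ne_nil S) h
    exact strict_sound hv hh hk hc

theorem mkSeg_closed (cl : Bool) (X Y k : ℕ) : (mkSeg cl X Y k).closed = cl := by
  unfold mkSeg
  split_ifs <;> rfl

theorem red_closed (cl : Bool) (S : List ER.Con) :
    ∀ e ∈ (K4H90Seg.red cl S).verts, e.2.1.closed = cl := by
  intro e he
  rcases Dia.mem_verts.1 he with rfl | ⟨l, hl, k, hk, h0, rfl⟩ | ⟨l, hl, b, hb, i, w, hw, rfl⟩
  · rfl
  · exact mkSeg_closed _ _ _ _
  · exact mkSeg_closed _ _ _ _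

/-- Hardness for instances without obstacles all of whose segments are open (`cl = false`) or all of
whose segments are closed (`cl = true`). -/
theorem hard (cl : Bool) : ERHardOn
    (fun I : Inst => I.PlaneGraph ∧ I.obstacles = [] ∧ ∀ e ∈ I.verts, e.2.1.closed = cl)
    Inst.Solvable :=
  ERHardOn.of_sys (K4H90Seg.poly_red cl)
    (fun S => ⟨red_planeGraph cl S, rfl, red_closed cl S⟩) (red_correct cl)

end Pool.Agent.K4H90.SegDraw
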