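import Pool.Agent.K4H90.Seg.Defs

/-!
# Plane geometry: slopes, rotations and disjoint segments
-/

namespace Pool.Agent.K4H90.SegDraw

/-- The cross product of `a - o` and `b - o`. -/
def cr (o a b : ℝ × ℝ) : ℝ := (a.1 - o.1) * (b.2 - o.2) - (a.2 - o.2) * (b.1 - o.1)

/-! ### Angles -/

theorem core_right {x a b : ℝ} (h1 : x < a) (h2 : a < b) (h3 : b < x + 2 * Real.pi)
    (cx : Real.cos x < 0) (ca : 0 < Real.cos a) (cb : 0 < Real.cos b) : 0 < Real.sin (b - a) := by
  by_contra hc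
  rw [not_lt] at hc
  have hpi : Real.pi ≤ b - a := by
    by_contra h
    rw [not_le] at h
    have := Real.sin_pos_of_pos_of_lt_pi (by linarith) h
    linarith
  have e1 : 0 < Real.sin (a - x) := Real.sin_pos_of_pos_of_lt_pi (by linarith) (by linarith)
  have e2 : 0 < Real.sin (x - b) := by
    rw [← Real.sin_add_two_pi]
    exact Real.sin_pos_of_pos_of_lt_pi (by linarith) (by linarith)
  have key : Real.sin (b - a) * Real.cos x + Real.sin (x - b) * Real.cos a +
      Real.sin (a - x) * Real.cos b = 0 := by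
    rw [Real.sin_sub, Real.sin_sub, Real.sin_sub]; ring
  have k1 : 0 ≤ Real.sin (b - a) * Real.cos x := mul_nonneg_of_nonpos_of_nonpos hc cx.le
  have k2 := mul_pos e2 ca
  have k3 := mul_pos e1 cb
  linarith

theorem core_left {x a b : ℝ} (h1 : a < b) (h2 : b < x) (h3 : x < a + 2 * Real.pi)
    (cx : 0 < Real.cos x) (ca : Real.cos a < 0) (cb : Real.cos b < 0) : 0 < Real.sin (b - a) := by
  by_contra hc
  rw [not_lt] at hc
  have hpi : Real.pi ≤ b - a := by
    by_contra h
    rw [not_le] at h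
    have := Real.sin_pos_of_pos_of_lt_pi (by linarith) h
    linarith
  have e1 : 0 < Real.sin (x - b) := Real.sin_pos_of_pos_of_lt_pi (by linarith) (by linarith)
  have e2 : 0 < Real.sin (a - x) := by
    rw [← Real.sin_add_two_pi]
    exact Real.sin_pos_of_pos_of_lt_pi (by linarith) (by linarith)
  have key : Real.sin (b - a) * Real.cos x + Real.sin (x - b) * Real.cos a +
      Real.sin (a - x) * Real.cos b = 0 := by
    rw [Real.sin_sub, Real.sin_sub, Real.sin_sub]; ring
  have k1 : Real.sin (b - a) * Real.cos x ≤ 0 := mul_nonpos_of_nonpos_of_nonneg hc cx.le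
  have k2 := mul_neg_of_pos_of_neg e1 ca
  have k3 := mul_neg_of_pos_of_neg e2 cb
  linarith

theorem RotAt.right {D : ℕ → ℝ × ℝ} {u : ℕ} {l : List ℕ} (h : RotAt D u l) {x a b : ℕ}
    (hs : [x, a, b].Sublist l) (hx : (D x).1 < (D u).1) (ha : (D u).1 < (D a).1)
    (hb : (D u).1 < (D b).1) : 0 < cr (D u) (D a) (D b) := by
  obtain ⟨θ, h1, h2⟩ := h
  have h3 := h1.sublist hs
  simp only [List.pairwise_cons, List.mem_cons, List.not_mem_nil, or_false, forall_eq_or_imp,
    forall_eq] at h3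
  obtain ⟨⟨⟨p1, p2⟩, ⟨p3, p4⟩⟩, ⟨p5, p6⟩, -⟩ := h3
  obtain ⟨rx, hrx, ex⟩ := h2 x (hs.subset (by simp))
  obtain ⟨ra, hra, ea⟩ := h2 a (hs.subset (by simp))
  obtain ⟨rb, hrb, eb⟩ := h2 b (hs.subset (by simp))
  rw [ex] at hx
  rw [ea] at ha
  rw [eb] at hb
  simp only [Prod.fst_add] at hx ha hb
  have cx : Real.cos (θ x) < 0 := by
    by_contra hc
    rw [not_lt] at hc
    have := mul_nonneg hrx.le hc
    linarith
  have ca : 0 < Real.cos (θ a) := by
    by_contra hc
    rw [not_lt] at hc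
    have := mul_nonpos_of_nonneg_of_nonpos hra.le hc
    linarith
  have cb : 0 < Real.cos (θ b) := by
    by_contra hc
    rw [not_lt] at hc
    have := mul_nonpos_of_nonneg_of_nonpos hrb.le hc
    linarith
  have key := core_right p1 p5 p4 cx ca cb
  have e : cr (D u) (D a) (D b) = ra * rb * Real.sin (θ b - θ a) := by
    rw [ea, eb]
    unfold cr
    simp only [Prod.fst_add, Prod.snd_add]
    rw [Real.sin_sub]
    ring
  rw [e]
  positivity

theorem RotAt.left {D : ℕ → ℝ × ℝ} {u : ℕ} {l : List ℕ} (h : RotAt D u l) {x a b : ℕ}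
    (hs : [a, b, x].Sublist l) (hx : (D u).1 < (D x).1) (ha : (D a).1 < (D u).1)
    (hb : (D b).1 < (D u).1) : 0 < cr (D u) (D a) (D b) := by
  obtain ⟨θ, h1, h2⟩ := h
  have h3 := h1.sublist hs
  simp only [List.pairwise_cons, List.mem_cons, List.not_mem_nil, or_false, forall_eq_or_imp,
    forall_eq] at h3
  obtain ⟨⟨⟨p1, p2⟩, ⟨p3, p4⟩⟩, ⟨p5, p6⟩, -⟩ := h3
  obtain ⟨rx, hrx, ex⟩ := h2 x (hs.subset (by simp))
  obtain ⟨ra, hra, ea⟩ := h2 a (hs.subset (by simp))
  obtain ⟨rb, hrb, eb⟩ := h2 b (hs.subset (by simp))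
  rw [ex] at hx
  rw [ea] at ha
  rw [eb] at hb
  simp only [Prod.fst_add] at hx ha hb
  have cx : 0 < Real.cos (θ x) := by
    by_contra hc
    rw [not_lt] at hc
    have := mul_nonpos_of_nonneg_of_nonpos hrx.le hc
    linarith
  have ca : Real.cos (θ a) < 0 := by
    by_contra hc
    rw [not_lt] at hc
    have := mul_nonneg hra.le hc
    linarith
  have cb : Real.cos (θ b) < 0 := by
    by_contra hc
    rw [not_lt] at hc
    have := mul_nonneg hrb.le hc
    linarith
  have key := core_left p1 p5 p4 cx ca cb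
  have e : cr (D u) (D a) (D b) = ra * rb * Real.sin (θ b - θ a) := by
    rw [ea, eb]
    unfold cr
    simp only [Prod.fst_add, Prod.snd_add]
    rw [Real.sin_sub]
    ring
  rw [e]
  positivity

theorem slope_lt {o a b : ℝ × ℝ} (h : 0 < (a.1 - o.1) * (b.1 - o.1)) (hc : 0 < cr o a b) :
    (a.2 - o.2) / (a.1 - o.1) < (b.2 - o.2) / (b.1 - o.1) := by
  have ha : a.1 - o.1 ≠ 0 := fun h0 => by rw [h0] at h; simp at h
  have hb : b.1 - o.1 ≠ 0 := fun h0 => by rw [h0] at h; simp at h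
  rw [← sub_pos]
  have e : (b.2 - o.2) / (b.1 - o.1) - (a.2 - o.2) / (a.1 - o.1) =
      cr o a b / ((a.1 - o.1) * (b.1 - o.1)) := by
    unfold cr
    field_simp
  rw [e]
  positivity

theorem rotAt_of_cr {D : ℕ → ℝ × ℝ} {u : ℕ} {Lf Rg : List ℕ}
    (hL : ∀ v ∈ Lf, (D v).1 < (D u).1) (hR : ∀ v ∈ Rg, (D u).1 < (D v).1)
    (sL : Lf.Pairwise fun a b => 0 < cr (D u) (D a) (D b))
    (sR : Rg.Pairwise fun a b => 0 < cr (D u) (D a) (D b)) : RotAt D u (Lf ++ Rg) := by
  set s : ℕ → ℝ := fun v => ((D v).2 - (D u).2) / ((D v).1 - (D u).1) with hs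
  have hlo : ∀ v, - (Real.pi / 2) < Real.arctan (s v) := fun v => Real.neg_pi_div_two_lt_arctan _
  have hhi : ∀ v, Real.arctan (s v) < Real.pi / 2 := fun v => Real.arctan_lt_pi_div_two _
  have hpi := Real.pi_pos
  refine ⟨fun v => if (D v).1 < (D u).1 then Real.pi + Real.arctan (s v) else
    2 * Real.pi + Real.arctan (s v), ?_, ?_⟩
  · rw [List.pairwise_append]
    refine ⟨?_, ?_, ?_⟩
    · refine List.Pairwise.imp_of_mem ?_ sL
      intro a b ha hb hc
      have h1 := hL a ha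
      have h2 := hL b hb
      beta_reduce
      rw [if_pos h1, if_pos h2]
      have h3 : s a < s b := slope_lt (mul_pos_of_neg_of_neg (by linarith) (by linarith)) hc
      have h4 := Real.arctan_strictMono h3
      have := hlo a; have := hhi a; have := hlo b; have := hhi b
      constructor <;> linarith
    · refine List.Pairwise.imp_of_mem ?_ sR
      intro a b ha hb hc
      have h1 := hR a ha
      have h2 := hR b hb
      beta_reduce
      rw [if_neg (not_lt.2 h1.le), if_neg (not_lt.2 h2.le)]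
      have h3 : s a < s b := slope_lt (mul_pos (by linarith) (by linarith)) hc
      have h4 := Real.arctan_strictMono h3
      have := hlo a; have := hhi a; have := hlo b; have := hhi b
      constructor <;> linarith
    · intro a ha b hb
      have h1 := hL a ha
      have h2 := hR b hb
      beta_reduce
      rw [if_pos h1, if_neg (not_lt.2 h2.le)]
      have := hlo a; have := hhi a; have := hlo b; have := hhi b
      constructor <;> linarith
  · intro v hv
    have hsq : 0 < Real.sqrt (1 + s v ^ 2) := Real.sqrt_pos.2 (by positivity)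
    rw [List.mem_append] at hv
    rcases hv with hv | hv
    · have h1 := hL v hv
      have hne : (D v).1 - (D u).1 ≠ 0 := by linarith
      refine ⟨- ((D v).1 - (D u).1) * Real.sqrt (1 + s v ^ 2), mul_pos (by linarith) hsq, ?_⟩
      beta_reduce
      rw [if_pos h1, add_comm Real.pi, Real.cos_add_pi, Real.sin_add_pi, Real.cos_arctan,
        Real.sin_arctan]
      ext
      · simp only [Prod.fst_add]
        field_simp
        ring
      · simp only [Prod.snd_add]
        have e : (D v).2 - (D u).2 = s v * ((D v).1 - (D u).1) := by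
          rw [hs]; field_simp
        have e2 : -((D v).1 - (D u).1) * Real.sqrt (1 + s v ^ 2) *
            -(s v / Real.sqrt (1 + s v ^ 2)) = s v * ((D v).1 - (D u).1) := by
          field_simp
        rw [e2, ← e]
        ring
    · have h1 := hR v hv
      have hne : (D v).1 - (D u).1 ≠ 0 := by linarith
      refine ⟨((D v).1 - (D u).1) * Real.sqrt (1 + s v ^ 2), mul_pos (by linarith) hsq, ?_⟩
      beta_reduce
      rw [if_neg (not_lt.2 h1.le), add_comm (2 * Real.pi), Real.cos_add_two_pi,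
        Real.sin_add_two_pi, Real.cos_arctan, Real.sin_arctan]
      ext
      · simp only [Prod.fst_add]
        field_simp
        ring
      · simp only [Prod.snd_add]
        have e : (D v).2 - (D u).2 = s v * ((D v).1 - (D u).1) := by
          rw [hs]; field_simp
        have e2 : ((D v).1 - (D u).1) * Real.sqrt (1 + s v ^ 2) *
            (s v / Real.sqrt (1 + s v ^ 2)) = s v * ((D v).1 - (D u).1) := by
          field_simp
        rw [e2, ← e]
        ring

/-! ### Segments -/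

theorem seg_lin {α β γ : ℝ} {P Q p : ℝ × ℝ} (hp : p ∈ segment ℝ P Q)
    (h1 : α * P.1 + β * P.2 ≤ γ) (h2 : α * Q.1 + β * Q.2 ≤ γ) : α * p.1 + β * p.2 ≤ γ := by
  obtain ⟨a, b, ha, hb, hab, rfl⟩ := hp
  simp only [Prod.fst_add, Prod.snd_add, Prod.smul_fst, Prod.smul_snd, smul_eq_mul]
  have e1 := mul_le_mul_of_nonneg_left h1 ha
  have e2 := mul_le_mul_of_nonneg_left h2 hb
  have e3 : γ = a * γ + b * γ := by rw [← add_mul, hab, one_mul]
  rw [e3]
  linarith

theorem seg_line {P Q p : ℝ × ℝ} (hp : p ∈ segment ℝ P Q) :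
    (p.2 - P.2) * (Q.1 - P.1) = (Q.2 - P.2) * (p.1 - P.1) := by
  obtain ⟨a, b, ha, hb, hab, rfl⟩ := hp
  simp only [Prod.fst_add, Prod.snd_add, Prod.smul_fst, Prod.smul_snd, smul_eq_mul]
  have e : a = 1 - b := by linarith
  rw [e]
  ring

theorem seg_x {P Q p : ℝ × ℝ} (h : P.1 ≤ Q.1) (hp : p ∈ segment ℝ P Q) :
    P.1 ≤ p.1 ∧ p.1 ≤ Q.1 := by
  have h1 := seg_lin (α := 1) (β := 0) (γ := Q.1) hp (by linarith) (by linarith)
  have h2 := seg_lin (α := -1) (β := 0) (γ := - P.1) hp (by linarith) (by linarith)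
  constructor <;> linarith

theorem seg_left {P Q p : ℝ × ℝ} (h : P.1 < Q.1) (hp : p ∈ segment ℝ P Q) (hx : p.1 = P.1) :
    p = P := by
  have h1 := seg_line hp
  rw [hx, sub_self, mul_zero] at h1
  rcases mul_eq_zero.1 h1 with h2 | h2
  · exact Prod.ext hx (by linarith)
  · linarith

theorem seg_right {P Q p : ℝ × ℝ} (h : P.1 < Q.1) (hp : p ∈ segment ℝ P Q) (hx : p.1 = Q.1) :
    p = Q := by
  rw [segment_symm] at hp
  have h1 := seg_line hp
  rw [hx, sub_self, mul_zero] at h1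
  rcases mul_eq_zero.1 h1 with h2 | h2
  · exact Prod.ext hx (by linarith)
  · linarith

/-- Two segments have no common point. -/
def Disj (P Q P' Q' : ℝ × ℝ) : Prop := ∀ p ∈ segment ℝ P Q, p ∉ segment ℝ P' Q'

/-- Two segments have only common end points. -/
def NC (P Q P' Q' : ℝ × ℝ) : Prop :=
  ∀ p ∈ segment ℝ P Q, p ∈ segment ℝ P' Q' → (p = P ∨ p = Q) ∧ (p = P' ∨ p = Q')

theorem Disj.nc {P Q P' Q' : ℝ × ℝ} (h : Disj P Q P' Q') : NC P Q P' Q' :=
  fun p hp hp' => (h p hp hp').elim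

theorem Disj.symm {P Q P' Q' : ℝ × ℝ} (h : Disj P Q P' Q') : Disj P' Q' P Q :=
  fun p hp hp' => h p hp' hp

theorem NC.symm {P Q P' Q' : ℝ × ℝ} (h : NC P Q P' Q') : NC P' Q' P Q :=
  fun p hp hp' => (h p hp' hp).symm

/-- The height difference, up to a positive factor, of two segments at the abscissa `x`. -/
def hdiff (P Q P' Q' : ℝ × ℝ) (x : ℝ) : ℝ :=
  (P'.2 * (Q'.1 - P'.1) + (Q'.2 - P'.2) * (x - P'.1)) * (Q.1 - P.1) -
    (P.2 * (Q.1 - P.1) + (Q.2 - P.2) * (x - P.1)) * (Q'.1 - P'.1)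

theorem disj_below {P Q P' Q' : ℝ × ℝ} (h : P.1 ≤ Q.1) (h' : P'.1 ≤ Q'.1) (a b : ℝ)
    (ha : a ≤ P.1 ∨ a ≤ P'.1) (hb : Q.1 ≤ b ∨ Q'.1 ≤ b)
    (h1 : 0 < hdiff P Q P' Q' a) (h2 : 0 < hdiff P Q P' Q' b) : Disj P Q P' Q' := by
  intro p hp hp'
  have x1 := seg_x h hp
  have x2 := seg_x h' hp'
  have hpa : a ≤ p.1 := by rcases ha with ha | ha <;> linarith
  have hpb : p.1 ≤ b := by rcases hb with hb | hb <;> linarith
  have l1 := seg_line hp
  have l2 := seg_line hp'
  have h0 : hdiff P Q P' Q' p.1 = 0 := by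
    unfold hdiff
    have e1 : P'.2 * (Q'.1 - P'.1) + (Q'.2 - P'.2) * (p.1 - P'.1) = p.2 * (Q'.1 - P'.1) := by
      linarith
    have e2 : P.2 * (Q.1 - P.1) + (Q.2 - P.2) * (p.1 - P.1) = p.2 * (Q.1 - P.1) := by
      linarith
    rw [e1, e2]; ring
  have haff : (b - a) * hdiff P Q P' Q' p.1 =
      (b - p.1) * hdiff P Q P' Q' a + (p.1 - a) * hdiff P Q P' Q' b := by
    unfold hdiff; ring
  rw [h0, mul_zero] at haff
  have k1 : 0 ≤ (b - p.1) * hdiff P Q P' Q' a := mul_nonneg (by linarith) h1.le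
  have k2 : 0 ≤ (p.1 - a) * hdiff P Q P' Q' b := mul_nonneg (by linarith) h2.le
  have k3 : (b - p.1) * hdiff P Q P' Q' a = 0 := by linarith
  have k4 : (p.1 - a) * hdiff P Q P' Q' b = 0 := by linarith
  rcases mul_eq_zero.1 k3 with k3 | k3
  · rcases mul_eq_zero.1 k4 with k4 | k4
    · have e : a = b := by linarith
      have e' : p.1 = a := by linarith
      rw [e'] at h0
      linarith
    · linarith
  · linarith

theorem nc_touch {P Q P' Q' : ℝ × ℝ} (h : P.1 < Q.1) (h' : P'.1 < Q'.1) (hx : Q.1 ≤ P'.1) :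
    NC P Q P' Q' := by
  intro p hp hp'
  have x1 := seg_x h.le hp
  have x2 := seg_x h'.le hp'
  exact ⟨Or.inr (seg_right h hp (by linarith)), Or.inl (seg_left h' hp' (by linarith))⟩

theorem nc_left {P Q Q' : ℝ × ℝ} (h : P.1 < Q.1) (hc : cr P Q Q' ≠ 0) :
    NC P Q P Q' := by
  intro p hp hp'
  have l1 := seg_line hp
  have l2 := seg_line hp'
  have e : cr P Q Q' * (p.1 - P.1) = 0 := by
    unfold cr
    have : ((Q.1 - P.1) * (Q'.2 - P.2) - (Q.2 - P.2) * (Q'.1 - P.1)) * (p.1 - P.1) =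
      (Q.1 - P.1) * ((Q'.2 - P.2) * (p.1 - P.1)) -
        (Q'.1 - P.1) * ((Q.2 - P.2) * (p.1 - P.1)) := by ring
    rw [this, ← l1, ← l2]
    ring
  rcases mul_eq_zero.1 e with e | e
  · exact (hc e).elim
  · have := seg_left h hp (by linarith)
    exact ⟨Or.inl this, Or.inl this⟩

theorem nc_right {P P' Q : ℝ × ℝ} (h : P.1 < Q.1) (hc : cr Q P P' ≠ 0) :
    NC P Q P' Q := by
  intro p hp hp'
  have l1 := seg_line hp
  have l2 := seg_line hp'
  have e : cr Q P P' * (p.1 - Q.1) = 0 := by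
    unfold cr
    have : ((P.1 - Q.1) * (P'.2 - Q.2) - (P.2 - Q.2) * (P'.1 - Q.1)) * (p.1 - Q.1) =
      (P.1 - Q.1) * (((P'.2 - Q.2)) * (p.1 - Q.1)) -
        (P'.1 - Q.1) * ((P.2 - Q.2) * (p.1 - Q.1)) := by ring
    rw [this]
    have m1 : (P'.2 - Q.2) * (p.1 - Q.1) = (p.2 - Q.2) * (P'.1 - Q.1) := by linarith
    have m2 : (P.2 - Q.2) * (p.1 - Q.1) = (p.2 - Q.2) * (P.1 - Q.1) := by linarith
    rw [m1, m2]
    ring
  rcases mul_eq_zero.1 e with e | e
  · exact (hc e).elim
  · have := seg_right h hp (by linarith)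
    exact ⟨Or.inr this, Or.inr this⟩

theorem disj_y {P Q P' Q' : ℝ × ℝ} {y : ℝ} (h1 : P.2 ≤ y) (h2 : Q.2 ≤ y) (h3 : y < P'.2)
    (h4 : y < Q'.2) : Disj P Q P' Q' := by
  intro p hp hp'
  have k1 := seg_lin (α := 0) (β := 1) (γ := y) hp (by linarith) (by linarith)
  have k2 := seg_lin (α := 0) (β := -1) (γ := - min P'.2 Q'.2) hp'
    (by have := min_le_left P'.2 Q'.2; linarith) (by have := min_le_right P'.2 Q'.2; linarith)
  have k3 : y < min P'.2 Q'.2 := lt_min h3 h4
  linarith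

/-! ### Placement: translations and shears -/

/-- The affine map used to place a gadget. -/
def pl (X Y s : ℝ) (p : ℝ × ℝ) : ℝ × ℝ := (X + p.1, Y + p.2 + s * p.1)

theorem pl_inj {X Y s : ℝ} {p q : ℝ × ℝ} (h : pl X Y s p = pl X Y s q) : p = q := by
  unfold pl at h
  rw [Prod.mk.injEq] at h
  obtain ⟨h1, h2⟩ := h
  have e : p.1 = q.1 := by linarith
  rw [e] at h2
  exact Prod.ext e (by linarith)

theorem pl_surj (X Y s : ℝ) (p : ℝ × ℝ) : ∃ q, pl X Y s q = p :=
  ⟨(p.1 - X, p.2 - Y - s * (p.1 - X)), by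
    unfold pl
    ext
    · simp
    · simp only; ring⟩

theorem cr_pl (X Y s : ℝ) (o a b : ℝ × ℝ) :
    cr (pl X Y s o) (pl X Y s a) (pl X Y s b) = cr o a b := by
  unfold cr pl
  ring

theorem mem_segment_pl {X Y s : ℝ} {P Q p : ℝ × ℝ} :
    pl X Y s p ∈ segment ℝ (pl X Y s P) (pl X Y s Q) ↔ p ∈ segment ℝ P Q := by
  constructor
  · rintro ⟨a, b, ha, hb, hab, h⟩
    refine ⟨a, b, ha, hb, hab, ?_⟩
    apply pl_inj (X := X) (Y := Y) (s := s)
    rw [← h]
    unfold pl
    have e : a = 1 - b := by linarith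
    ext
    · simp only [Prod.fst_add, Prod.smul_fst, smul_eq_mul]
      rw [e]; ring
    · simp only [Prod.fst_add, Prod.snd_add, Prod.smul_fst, Prod.smul_snd, smul_eq_mul]
      rw [e]; ring
  · rintro ⟨a, b, ha, hb, hab, rfl⟩
    refine ⟨a, b, ha, hb, hab, ?_⟩
    unfold pl
    have e : a = 1 - b := by linarith
    ext
    · simp only [Prod.fst_add, Prod.smul_fst, smul_eq_mul]
      rw [e]; ring
    · simp only [Prod.fst_add, Prod.snd_add, Prod.smul_fst, Prod.smul_snd, smul_eq_mul]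
      rw [e]; ring

theorem NC.pl {X Y s : ℝ} {P Q P' Q' : ℝ × ℝ} (h : NC P Q P' Q') :
    NC (pl X Y s P) (pl X Y s Q) (pl X Y s P') (pl X Y s Q') := by
  intro p hp hp'
  obtain ⟨q, rfl⟩ := pl_surj X Y s p
  rw [mem_segment_pl] at hp hp'
  obtain ⟨h1, h2⟩ := h q hp hp'
  constructor
  · rcases h1 with rfl | rfl
    · exact Or.inl rfl
    · exact Or.inr rfl
  · rcases h2 with rfl | rfl
    · exact Or.inl rfl
    · exact Or.inr rfl

end Pool.Agent.K4H90.SegDraw
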