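import Pool.Agent.K4H90.Seg.Net

/-!
# The reduction is computable in polynomial time, part 1: the strict system and its network
-/

namespace Pool.Agent.NPC.K4H90Seg

open Pool.Agent.K4H90.SegDraw Pool.Agent.NPC.ER

section

variable {α : Type} [TEnc α]

/-! ### Strict systems -/

theorem poly_neg {l : α → Lit} (hl : Poly l) : Poly (fun a => neg (l a)) :=
  Poly.pair (Poly.fst hl) (Poly.not (Poly.snd hl))

theorem poly_avgLt {n a b : α → Lit} (hn : Poly n) (ha : Poly a) (hb : Poly b) :
    Poly (fun x => avgLt (n x) (a x) (b x)) :=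
  Poly.pair (Poly.const false) (Poly.pair (poly_neg ha) (Poly.pair hn (poly_neg hb)))

theorem poly_prodLt {a b c : α → Lit} (ha : Poly a) (hb : Poly b) (hc : Poly c) :
    Poly (fun x => prodLt (a x) (b x) (c x)) :=
  Poly.pair (Poly.const true) (Poly.pair hb (Poly.pair ha hc))

theorem poly_lit (c : ℕ) {t : α → ℕ} (ht : Poly t) : Poly (fun x => (((c, t x), true) : Lit)) :=
  Poly.pair (Poly.pair (Poly.const c) ht) (Poly.const true)

theorem poly_PG {t : α → ℕ} {i j k l : α → Lit} (ht : Poly t) (hi : Poly i) (hj : Poly j)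
    (hk : Poly k) (hl : Poly l) : Poly (fun x => PG (t x) (i x) (j x) (k x) (l x)) := by
  have h3 := poly_lit 3 ht
  have h4 := poly_lit 4 ht
  have h5 := poly_lit 5 ht
  have h6 := poly_lit 6 ht
  have h7 := poly_lit 7 ht
  exact Poly.cons (poly_prodLt hi hj h3) (Poly.cons (poly_avgLt h4 h3 hj)
    (Poly.cons (poly_avgLt h5 hj hi) (Poly.cons (poly_avgLt h6 hk (Poly.const half))
      (Poly.cons (poly_avgLt h7 h5 h6) (Poly.cons (poly_avgLt hl h4 h7) (Poly.const []))))))

theorem poly_AG {t : α → ℕ} {i j k l : α → Lit} (ht : Poly t) (hi : Poly i) (hj : Poly j)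
    (hk : Poly k) (hl : Poly l) : Poly (fun x => AG (t x) (i x) (j x) (k x) (l x)) := by
  have h8 := poly_lit 8 ht
  have h9 := poly_lit 9 ht
  exact Poly.cons (poly_avgLt h8 hi hj) (Poly.cons (poly_avgLt h9 (poly_neg hk) (Poly.const half))
    (Poly.cons (poly_avgLt hl h8 h9) (Poly.const [])))

theorem poly_chainC {K : α → ℕ} (hK : UPoly K) : Poly (fun x => chainC (K x)) := by
  unfold chainC
  have h2 : Poly (fun p : α × ℕ => sm p.2) := poly_lit 2 (Poly.snd Poly.id)
  have h2' : Poly (fun p : α × ℕ => sm (p.2 + 1)) := poly_lit 2 (Poly.succ (Poly.snd Poly.id))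
  refine Poly.cons (Poly.const _) (Poly.append ?_ ?_)
  · refine Poly.map (F := fun _ j => avgLt half (sm j) (sm j))
      (UPoly.add hK (UPoly.const 1)).range ?_
    exact poly_avgLt (Poly.const half) h2 h2
  · refine Poly.flatMap (F := fun _ j => PG (3 * j) (sm j) (neg (sm j)) (neg (sm (j + 1))) half)
      hK.range ?_
    exact poly_PG (Poly.mul (Poly.const 3) (Poly.snd Poly.id)) h2 (poly_neg h2) (poly_neg h2')
      (Poly.const half)

theorem conC_eq (K : ℕ) (c : ER.Con) (s : ℕ) : conC K c s =
    if c.code.1 = 0 then [avgLt (neg (sm K)) (bv c.code.2.1) (neg kap),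
      avgLt (neg (sm K)) (neg (bv c.code.2.1)) kap]
    else if c.code.1 = 1 then
      AG (3 * s + 1) (bv c.code.2.1) (bv c.code.2.2.1) (bv c.code.2.2.2) (neg (sm K)) ++
      AG (3 * s + 2) (neg (bv c.code.2.1)) (neg (bv c.code.2.2.1)) (neg (bv c.code.2.2.2))
        (neg (sm K))
    else PG (3 * s + 1) (bv c.code.2.1) (bv c.code.2.2.1) (bv c.code.2.2.2) (neg (sm K)) ++
      PG (3 * s + 2) (bv c.code.2.1) (neg (bv c.code.2.2.1)) (neg (bv c.code.2.2.2))
        (neg (sm K)) := by
  cases c <;> rfl

theorem poly_conC {K s : α → ℕ} {c : α → ER.Con} (hK : Poly K) (hc : Poly c) (hs : Poly s) :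
    Poly (fun x => conC (K x) (c x) (s x)) := by
  have h0 : Poly (fun a => (c a).code) := poly_con_code hc
  have h1 : Poly (fun a => (c a).code.1) := Poly.fst h0
  have hi : Poly (fun a => bv (c a).code.2.1) := poly_lit 1 (Poly.fst (Poly.snd h0))
  have hj : Poly (fun a => bv (c a).code.2.2.1) := poly_lit 1 (Poly.fst (Poly.snd (Poly.snd h0)))
  have hk : Poly (fun a => bv (c a).code.2.2.2) := poly_lit 1 (Poly.snd (Poly.snd (Poly.snd h0)))
  have hn : Poly (fun a => neg (sm (K a))) := poly_neg (poly_lit 2 hK)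
  have t1 : Poly (fun a => 3 * s a + 1) := Poly.add (Poly.mul (Poly.const 3) hs) (Poly.const 1)
  have t2 : Poly (fun a => 3 * s a + 2) := Poly.add (Poly.mul (Poly.const 3) hs) (Poly.const 2)
  have key := Poly.ite (Poly.decide_eq h1 (Poly.const 0))
    (Poly.cons (poly_avgLt hn hi (Poly.const (neg kap)))
      (Poly.cons (poly_avgLt hn (poly_neg hi) (Poly.const kap)) (Poly.const [])))
    (Poly.ite (Poly.decide_eq h1 (Poly.const 1))
      (Poly.append (poly_AG t1 hi hj hk hn)
        (poly_AG t2 (poly_neg hi) (poly_neg hj) (poly_neg hk) hn))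
      (Poly.append (poly_PG t1 hi hj hk hn)
        (poly_PG t2 hi (poly_neg hj) (poly_neg hk) hn)))
  exact key.congr fun a => (conC_eq _ _ _).symm

theorem upoly_gapK {S : α → List ER.Con} (hS : Poly S) : UPoly (fun a => gapK (S a).length) :=
  UPoly.add (UPoly.mul (UPoly.const 11) (UPoly.length hS)) (UPoly.const 7)

theorem poly_strict {S : α → List ER.Con} (hS : Poly S) : Poly (fun a => strict (S a)) := by
  unfold strict strictB
  have hb := poly_bsys hS
  have hK := upoly_gapK hb
  refine Poly.append (poly_chainC hK) ?_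
  refine Poly.flatMap (F := fun a p => conC (gapK (bsys (S a)).length) p.1 p.2)
    (Poly.zipIdx hb) ?_
  exact poly_conC (hK.toPoly.comp (Poly.fst Poly.id)) (Poly.fst (Poly.snd Poly.id))
    (Poly.snd (Poly.snd Poly.id))

/-! ### Lists -/

theorem upoly_idxOf {β : Type} [TEnc β] [DecidableEq β] [BEq β] [LawfulBEq β] {l : α → List β} {x : α → β}
    (hl : Poly l) (hx : Poly x) : UPoly (fun a => (l a).idxOf (x a)) := by
  have h1 : Poly (fun a => (l a).zipIdx.filter fun p => decide (p.1 = x a)) :=
    Poly.filter (p := fun a p => decide (p.1 = x a)) (Poly.zipIdx hl)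
      (Poly.decide_eq (Poly.fst (Poly.snd Poly.id)) (hx.comp (Poly.fst Poly.id)))
  have h2 := Poly.optCases (o := fun a => ((l a).zipIdx.filter fun p => decide (p.1 = x a)).head?)
    (g := fun a => (l a).length) (h := fun _ p => p.2) (Poly.head? h1) (Poly.length hl)
    (Poly.snd (Poly.snd Poly.id))
  have key : ∀ (x : β) (l : List β) (n : ℕ),
      (match ((l.zipIdx n).filter fun p => decide (p.1 = x)).head? with
        | none => l.length + n
        | some p => p.2) = l.idxOf x + n := by
    intro x l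
    induction l with
    | nil => intro n; simp
    | cons a l ih =>
      intro n
      rw [List.zipIdx_cons, List.filter_cons]
      by_cases h : a = x
      · subst h
        simp
      · have := ih (n + 1)
        simp only [h, decide_false, Bool.false_eq_true, if_false]
        rw [List.idxOf_cons_ne _ h, List.length_cons]
        rw [show l.length + 1 + n = l.length + (n + 1) by ring,
          show l.idxOf x + 1 + n = l.idxOf x + (n + 1) by omega, ← this]
  refine UPoly.of_le (h2.congr fun a => ?_) (UPoly.length hl) fun a => List.idxOf_le_length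
  have := key (x a) (l a) 0
  rw [add_zero, add_zero] at this
  rw [← this]
  cases (List.filter (fun p => decide (p.1 = x a)) (l a).zipIdx).head? <;> rfl

variable {cs : α → List SCon}

theorem poly_litsOf (hc : Poly cs) : Poly (fun a => litsOf (cs a)) := by
  unfold litsOf
  refine Poly.flatMap (F := fun _ c => [c.2.1, c.2.2.1, c.2.2.2]) hc ?_
  have h : Poly (fun p : α × SCon => p.2) := Poly.snd Poly.id
  exact Poly.cons (Poly.fst (Poly.snd h)) (Poly.cons (Poly.fst (Poly.snd (Poly.snd h)))
    (Poly.cons (Poly.snd (Poly.snd (Poly.snd h))) (Poly.const [])))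

theorem poly_varsOf (hc : Poly cs) : Poly (fun a => varsOf (cs a)) :=
  Poly.map (F := fun (_ : α) (l : Lit) => l.1) (poly_litsOf hc) (Poly.fst (Poly.snd Poly.id))

theorem poly_rep {vs : α → List (ℕ × ℕ)} {o : α → ℕ} (hv : Poly vs) (ho : Poly o) :
    Poly (fun a => rep (vs a) (o a)) := by
  exact (upoly_idxOf hv (Poly.getD hv ho (Poly.const (0, 0)))).toPoly

theorem poly_st0 {vs : α → List (ℕ × ℕ)} (hv : Poly vs) : Poly (fun a => st0 (vs a)) := by
  unfold st0
  refine Poly.flatMap (F := fun a r => (List.range (vs a).length).filter fun o =>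
    decide (rep (vs a) o = r)) (UPoly.length hv).range ?_
  refine Poly.filter (l := fun p : α × ℕ => List.range (vs p.1).length)
    (p := fun p o => decide (rep (vs p.1) o = p.2)) ?_ ?_
  · exact (UPoly.length (hv.comp (Poly.fst Poly.id))).range
  · exact Poly.decide_eq (poly_rep (hv.comp (Poly.fst (Poly.fst Poly.id))) (Poly.snd Poly.id))
      (Poly.snd (Poly.fst Poly.id))

theorem poly_reps {vs : α → List (ℕ × ℕ)} (hv : Poly vs) : Poly (fun a => reps (vs a)) :=
  Poly.map (F := fun a o => rep (vs a) o) (poly_st0 hv)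
    (poly_rep (hv.comp (Poly.fst Poly.id)) (Poly.snd Poly.id))

theorem poly_grpL {R : α → List ℕ} {k : α → ℕ} (hR : Poly R) (hk : Poly k) :
    Poly (fun a => grpL (R a) (k a)) := by
  unfold grpL
  exact Poly.ite (Poly.decide_lt hk (Poly.length hR))
    (upoly_idxOf hR (Poly.getD hR hk (Poly.const 0))).toPoly hk

theorem upoly_idx {st : α → List ℕ} {r : α → ℕ} (hs : Poly st) (hr : Poly r) :
    UPoly (fun a => idx (st a) (r a)) := by
  unfold idx
  refine upoly_idxOf ?_ hr
  exact Poly.filter (p := fun a o => decide (r a ≤ o)) hs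
    (Poly.decide_le (hr.comp (Poly.fst Poly.id)) (Poly.snd Poly.id))

theorem poly_downs {p i : α → ℕ} (hp : Poly p) (hi : UPoly i) :
    Poly (fun a => downs (p a) (i a)) :=
  Poly.map (F := fun a q => p a + q) (Poly.reverse hi.range)
    (Poly.add (hp.comp (Poly.fst Poly.id)) (Poly.snd Poly.id))

theorem poly_sortJ {st : α → List ℕ} {n : α → ℕ} (hs : Poly st) (hn : UPoly n) :
    Poly (fun a => sortJ (st a) (n a)) := by
  unfold sortJ
  refine Poly.flatMap (F := fun a r => downs r (idx (st a) r)) hn.range ?_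
  exact poly_downs (Poly.snd Poly.id) (upoly_idx (hs.comp (Poly.fst Poly.id)) (Poly.snd Poly.id))

end

end Pool.Agent.NPC.K4H90Seg
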