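import Pool.Agent.ER.GapSys
import Pool.Agent.ER.Hard

/-!
# Strict systems

A system of constraints `8 xᵢ = 1`, `xᵢ + xⱼ = xₖ`, `xᵢ * xⱼ = xₖ` with a small solution is turned
into a system of strict inequalities of two kinds between numbers in the unit interval.
-/

namespace Pool.Agent.K4H90.SegDraw

open Pool.Agent.NPC Pool.Agent.NPC.ER

/-- A literal: a variable, with a sign. -/
abbrev Lit : Type := (ℕ × ℕ) × Bool

/-- A constraint: a kind and three literals. -/
abbrev SCon : Type := Bool × Lit × Lit × Lit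

/-- The value of a literal: `v x` or `1 - v x`. -/
noncomputable def lval (v : ℕ × ℕ → ℝ) (l : Lit) : ℝ := if l.2 = true then v l.1 else 1 - v l.1

/-- The constraint on three numbers. -/
def shold (k : Bool) (x y z : ℝ) : Prop :=
  if k = true then (1 + y) * x + z < 5 / 4 else x + z + 2 * y < 2

/-- Validity of a constraint. -/
def SHolds (v : ℕ × ℕ → ℝ) (c : SCon) : Prop :=
  shold c.1 (lval v c.2.1) (lval v c.2.2.1) (lval v c.2.2.2)

/-- Negation of a literal. -/
def neg (l : Lit) : Lit := (l.1, !l.2)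

theorem lval_neg (v : ℕ × ℕ → ℝ) (l : Lit) : lval v (neg l) = 1 - lval v l := by
  unfold lval neg
  cases l.2 <;> simp

/-- `2 n < a + b`. -/
def avgLt (n a b : Lit) : SCon := (false, neg a, n, neg b)

/-- `(1 + a) * b + c < 5 / 4`. -/
def prodLt (a b c : Lit) : SCon := (true, b, a, c)

theorem avgLt_iff (v : ℕ × ℕ → ℝ) (n a b : Lit) :
    SHolds v (avgLt n a b) ↔ 2 * lval v n < lval v a + lval v b := by
  unfold SHolds shold avgLt
  simp only [lval_neg, Bool.false_eq_true, if_false]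
  constructor <;> intro h <;> linarith

theorem prodLt_iff (v : ℕ × ℕ → ℝ) (a b c : Lit) :
    SHolds v (prodLt a b c) ↔ (1 + lval v a) * lval v b + lval v c < 5 / 4 := by
  unfold SHolds shold prodLt
  simp

/-- The constant `1/2`. -/
def half : Lit := ((0, 0), true)

/-- The constant `9/16`. -/
def kap : Lit := ((0, 1), true)

/-- The base variables. -/
def bv (i : ℕ) : Lit := ((1, i), true)

/-- The small numbers. -/
def sm (j : ℕ) : Lit := ((2, j), true)

/-- The product gadget. -/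
def PG (t : ℕ) (i j k l : Lit) : List SCon :=
  [prodLt i j ((3, t), true), avgLt ((4, t), true) ((3, t), true) j, avgLt ((5, t), true) j i,
    avgLt ((6, t), true) k half, avgLt ((7, t), true) ((5, t), true) ((6, t), true),
    avgLt l ((4, t), true) ((7, t), true)]

/-- The sum gadget. -/
def AG (t : ℕ) (i j k l : Lit) : List SCon :=
  [avgLt ((8, t), true) i j, avgLt ((9, t), true) (neg k) half,
    avgLt l ((8, t), true) ((9, t), true)]

/-- The chain of small numbers. -/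
def chainC (K : ℕ) : List SCon :=
  avgLt (sm 0) kap kap :: ((List.range (K + 1)).map (fun j => avgLt half (sm j) (sm j)) ++
    (List.range K).flatMap (fun j => PG (3 * j) (sm j) (neg (sm j)) (neg (sm (j + 1))) half))

/-- The translation of one constraint. -/
def conC (K : ℕ) (c : ER.Con) (s : ℕ) : List SCon :=
  match c with
  | ER.Con.one i => [avgLt (neg (sm K)) (bv i) (neg kap), avgLt (neg (sm K)) (neg (bv i)) kap]
  | ER.Con.add i j k => AG (3 * s + 1) (bv i) (bv j) (bv k) (neg (sm K)) ++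
      AG (3 * s + 2) (neg (bv i)) (neg (bv j)) (neg (bv k)) (neg (sm K))
  | ER.Con.mul i j k => PG (3 * s + 1) (bv i) (bv j) (bv k) (neg (sm K)) ++
      PG (3 * s + 2) (bv i) (neg (bv j)) (neg (bv k)) (neg (sm K))

/-- The strict system of a system. -/
def strictB (S : List ER.Con) : List SCon :=
  chainC (gapK S.length) ++ S.zipIdx.flatMap (fun p => conC (gapK S.length) p.1 p.2)

/-- The value of a literal in the interval `[-1, 1]`. -/
noncomputable def W (v : ℕ × ℕ → ℝ) (l : Lit) : ℝ := 2 * lval v l - 1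

theorem W_neg (v : ℕ × ℕ → ℝ) (l : Lit) : W v (neg l) = - W v l := by
  unfold W; rw [lval_neg]; ring

theorem avgLt_iff' (v : ℕ × ℕ → ℝ) (n a b : Lit) :
    SHolds v (avgLt n a b) ↔ 2 * W v n < W v a + W v b := by
  rw [avgLt_iff]
  unfold W
  constructor <;> intro h <;> linarith

theorem prodLt_iff' (v : ℕ × ℕ → ℝ) (a b c : Lit) :
    SHolds v (prodLt a b c) ↔ 2 * W v c < - 3 * W v b - W v a - W v a * W v b := by
  rw [prodLt_iff]
  unfold W
  constructor <;> intro h <;> nlinarith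

/-! ### Soundness -/

theorem PG_sound {v : ℕ × ℕ → ℝ} (hh : v (0, 0) = 1 / 2) {t : ℕ} {i j k l : Lit}
    (h : ∀ c ∈ PG t i j k l, SHolds v c) : W v i * W v j + 8 * W v l < W v k := by
  unfold PG at h
  simp only [List.forall_mem_cons, avgLt_iff', prodLt_iff'] at h
  obtain ⟨h1, h2, h3, h4, h5, h6, -⟩ := h
  have h0 : W v half = 0 := by unfold W lval half; simp [hh]
  rw [h0] at h4
  linarith

theorem AG_sound {v : ℕ × ℕ → ℝ} (hh : v (0, 0) = 1 / 2) {t : ℕ} {i j k l : Lit}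
    (h : ∀ c ∈ AG t i j k l, SHolds v c) : W v k + 4 * W v l < W v i + W v j := by
  unfold AG at h
  simp only [List.forall_mem_cons, avgLt_iff', W_neg] at h
  obtain ⟨h1, h2, h3, -⟩ := h
  have h0 : W v half = 0 := by unfold W lval half; simp [hh]
  rw [h0] at h2
  linarith

theorem chain_sound {v : ℕ × ℕ → ℝ} (hh : v (0, 0) = 1 / 2) (hk : v (0, 1) = 9 / 16) {K : ℕ}
    (h : ∀ c ∈ chainC K, SHolds v c) :
    ∀ j ≤ K, 0 < W v (sm j) ∧ W v (sm j) ≤ (1 / 8) ^ 2 ^ j := by
  have h0 : W v half = 0 := by unfold W lval half; simp [hh]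
  have hk' : W v kap = 1 / 8 := by unfold W lval kap; simp only [hk]; norm_num
  unfold chainC at h
  rw [List.forall_mem_cons, List.forall_mem_append] at h
  obtain ⟨h1, h2, h3⟩ := h
  rw [avgLt_iff', hk'] at h1
  have hpos : ∀ j ≤ K, 0 < W v (sm j) := by
    intro j hj
    have := h2 _ (List.mem_map.2 ⟨j, List.mem_range.2 (by omega), rfl⟩)
    rw [avgLt_iff', h0] at this
    linarith
  intro j
  induction j with
  | zero =>
    intro hj
    refine ⟨hpos 0 hj, ?_⟩
    simp only [pow_zero, pow_one]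
    linarith
  | succ j ih =>
    intro hj
    refine ⟨hpos _ hj, ?_⟩
    obtain ⟨i1, i2⟩ := ih (by omega)
    have h4 := PG_sound hh (fun c hc => h3 c (List.mem_flatMap.2
      ⟨j, List.mem_range.2 (by omega), hc⟩))
    rw [W_neg, W_neg, h0] at h4
    have h5 : (1 / 8 : ℝ) ^ 2 ^ (j + 1) = (1 / 8) ^ 2 ^ j * (1 / 8) ^ 2 ^ j := by
      rw [← pow_add]; congr 1; ring
    rw [h5]
    nlinarith [mul_le_mul i2 i2 i1.le (by positivity)]

theorem strictB_sound {S : List ER.Con} {v : ℕ × ℕ → ℝ} (h01 : ∀ x, 0 ≤ v x ∧ v x ≤ 1)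
    (hh : v (0, 0) = 1 / 2) (hk : v (0, 1) = 9 / 16) (h : ∀ c ∈ strictB S, SHolds v c) :
    ∃ w, ∀ c ∈ S, c.HoldsC (1 / 8) w := by
  unfold strictB at h
  rw [List.forall_mem_append] at h
  obtain ⟨h1, h2⟩ := h
  set K := gapK S.length with hK
  obtain ⟨hη0, hη1⟩ := chain_sound hh hk h1 K le_rfl
  set η := W v (sm K) with hη
  have hk' : W v kap = 1 / 8 := by unfold W lval kap; simp only [hk]; norm_num
  have hsmall : 16 * η * 2 ^ 2 ^ gapK S.length ≤ 1 := by
    have e1 : (16 : ℝ) * (1 / 8) ^ 2 ^ K * 2 ^ 2 ^ K = 16 * (1 / 4) ^ 2 ^ K := by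
      rw [mul_assoc, ← mul_pow]; norm_num
    have e2 : ((1 : ℝ) / 4) ^ 2 ^ K ≤ (1 / 4) ^ 2 := by
      apply pow_le_pow_of_le_one (by norm_num) (by norm_num)
      have : K = 11 * S.length + 7 := rfl
      calc 2 = 2 ^ 1 := rfl
        _ ≤ 2 ^ K := Nat.pow_le_pow_right (by norm_num) (by omega)
    calc 16 * η * 2 ^ 2 ^ gapK S.length ≤ 16 * (1 / 8) ^ 2 ^ K * 2 ^ 2 ^ K := by
          rw [← hK]; gcongr
      _ = 16 * (1 / 4) ^ 2 ^ K := e1
      _ ≤ 16 * (1 / 4) ^ 2 := by gcongr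
      _ ≤ 1 := by norm_num
  have hlv : ∀ l, 0 ≤ lval v l ∧ lval v l ≤ 1 := by
    intro l
    unfold lval
    have := h01 l.1
    split_ifs <;> constructor <;> linarith
  refine holds_of_approx (S := S) (w := fun i => W v (bv i)) ?_ ?_
  · intro i _
    have := hlv (bv i)
    unfold W
    rw [abs_le]
    constructor <;> linarith
  · intro c hc
    obtain ⟨s, hs⟩ : ∃ s, (c, s) ∈ S.zipIdx := by
      obtain ⟨s, hs⟩ := List.mem_iff_getElem?.1 hc
      exact ⟨s, List.mem_zipIdx_iff_getElem?.2 hs⟩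
    have hmem : ∀ c' ∈ conC K c s, SHolds v c' := fun c' hc' =>
      h2 c' (List.mem_flatMap.2 ⟨(c, s), hs, hc'⟩)
    have key : |c.err (fun i => W v (bv i))| ≤ 16 * η := by
      rw [abs_le]
      cases c with
      | one i =>
        simp only [conC, List.forall_mem_cons, avgLt_iff', W_neg, hk'] at hmem
        obtain ⟨m1, m2, -⟩ := hmem
        simp only [ER.Con.err]
        constructor <;> linarith
      | add i j k =>
        simp only [conC, List.forall_mem_append] at hmem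
        have m1 := AG_sound hh hmem.1
        have m2 := AG_sound hh hmem.2
        simp only [W_neg] at m1 m2
        simp only [ER.Con.err]
        constructor <;> linarith
      | mul i j k =>
        simp only [conC, List.forall_mem_append] at hmem
        have m1 := PG_sound hh hmem.1
        have m2 := PG_sound hh hmem.2
        simp only [W_neg] at m1 m2
        simp only [ER.Con.err]
        constructor <;> linarith
    calc |c.err (fun i => W v (bv i))| * 2 ^ 2 ^ gapK S.length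
        ≤ 16 * η * 2 ^ 2 ^ gapK S.length := by gcongr
      _ ≤ 1 := hsmall

/-! ### Completeness -/

/-- The value of the auxiliary variables of the product gadget, in `(-1, 1)`. -/
noncomputable def pgW (i j k l : ℝ) (r : ℕ) : ℝ :=
  let d := (k - i * j - 8 * l) / 16
  let c := (-3 * j - i - i * j) / 2 - d
  let n1 := (c + j) / 2 - d
  let p := (j + i) / 2 - d
  let q := k / 2 - d
  let n2 := (p + q) / 2 - d
  if r = 3 then c else if r = 4 then n1 else if r = 5 then p else if r = 6 then q else n2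

/-- The value of the auxiliary variables of the sum gadget, in `(-1, 1)`. -/
noncomputable def agW (i j k l : ℝ) (r : ℕ) : ℝ :=
  if r = 8 then (i + j) / 2 + l / 2 else - k / 2 + l / 2

/-- The assignment. -/
noncomputable def theV (w : ℕ → ℝ) (gd : ℕ → ℝ × ℝ × ℝ × ℝ) (x : ℕ × ℕ) : ℝ :=
  1 / 2 + (if x.1 = 0 then (if x.2 = 1 then 1 / 8 else 0) else
    if x.1 = 1 then w x.2 else
    if x.1 = 2 then 2 * (1 / 32) ^ 2 ^ x.2 else
    if x.1 < 8 then pgW (gd x.2).1 (gd x.2).2.1 (gd x.2).2.2.1 (gd x.2).2.2.2 x.1 else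
    agW (gd x.2).1 (gd x.2).2.1 (gd x.2).2.2.1 (gd x.2).2.2.2 x.1) / 2

/-- The values of the literals of the gadgets. -/
noncomputable def theG (K : ℕ) (S : List ER.Con) (w : ℕ → ℝ) (t : ℕ) : ℝ × ℝ × ℝ × ℝ :=
  if t % 3 = 0 then (2 * (1 / 32) ^ 2 ^ (t / 3), - (2 * (1 / 32) ^ 2 ^ (t / 3)),
    - (2 * (1 / 32) ^ 2 ^ (t / 3 + 1)), 0) else
  match S[t / 3]? with
  | some (ER.Con.add i j k) => if t % 3 = 1 then (w i, w j, w k, - (2 * (1 / 32) ^ 2 ^ K)) else
      (- w i, - w j, - w k, - (2 * (1 / 32) ^ 2 ^ K))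
  | some (ER.Con.mul i j k) => if t % 3 = 1 then (w i, w j, w k, - (2 * (1 / 32) ^ 2 ^ K)) else
      (w i, - w j, - w k, - (2 * (1 / 32) ^ 2 ^ K))
  | _ => (0, 0, 0, 0)

theorem small_pos (j : ℕ) : (0 : ℝ) < 2 * (1 / 32) ^ 2 ^ j := by positivity

theorem small_le (j : ℕ) : (2 : ℝ) * (1 / 32) ^ 2 ^ j ≤ 1 / 16 := by
  have : ((1 : ℝ) / 32) ^ 2 ^ j ≤ (1 / 32) ^ 1 :=
    pow_le_pow_of_le_one (by norm_num) (by norm_num) Nat.one_le_two_pow
  linarith

theorem small_sq (j : ℕ) : (2 : ℝ) * (1 / 32) ^ 2 ^ (j + 1) =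
    (2 * (1 / 32) ^ 2 ^ j) * (2 * (1 / 32) ^ 2 ^ j) / 2 := by
  have h5 : (1 / 32 : ℝ) ^ 2 ^ (j + 1) = (1 / 32) ^ 2 ^ j * (1 / 32) ^ 2 ^ j := by
    rw [← pow_add]; congr 1; ring
  rw [h5]; ring

theorem theG_bd {K : ℕ} {S : List ER.Con} {w : ℕ → ℝ} (hw : ∀ i, |w i| ≤ 1 / 8) (t : ℕ) :
    (|(theG K S w t).1| ≤ 1 / 8 ∧ |(theG K S w t).2.1| ≤ 1 / 8 ∧ |(theG K S w t).2.2.1| ≤ 1 / 8) ∧
    - (1 / 16) ≤ (theG K S w t).2.2.2 ∧ (theG K S w t).2.2.2 ≤ 0 := by
  have hs : ∀ j, |(2 : ℝ) * (1 / 32) ^ 2 ^ j| ≤ 1 / 8 := fun j => by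
    rw [abs_of_pos (small_pos j)]; linarith [small_le j]
  have h1 := small_pos K
  have h2 := small_le K
  unfold theG
  by_cases h0 : t % 3 = 0
  · rw [if_pos h0]
    simp only [abs_neg]
    exact ⟨⟨hs _, hs _, hs _⟩, by norm_num, le_rfl⟩
  · rw [if_neg h0]
    by_cases h3 : t % 3 = 1
    · simp only [if_pos h3]
      split
      · exact ⟨⟨hw _, hw _, hw _⟩, by linarith, by linarith⟩
      · exact ⟨⟨hw _, hw _, hw _⟩, by linarith, by linarith⟩
      · simp
    · simp only [if_neg h3]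
      split
      · simp only [abs_neg]
        exact ⟨⟨hw _, hw _, hw _⟩, by linarith, by linarith⟩
      · simp only [abs_neg]
        exact ⟨⟨hw _, hw _, hw _⟩, by linarith, by linarith⟩
      · simp

theorem pgW_bd {i j k l : ℝ} (hi : |i| ≤ 1 / 8) (hj : |j| ≤ 1 / 8) (hk : |k| ≤ 1 / 8)
    (hl : - (1 / 16) ≤ l) (hl' : l ≤ 0) (r : ℕ) : |pgW i j k l r| < 1 := by
  rw [abs_le] at hi hj hk
  have h1 : i * j ≤ 1 / 64 := by nlinarith
  have h2 : - (1 / 64) ≤ i * j := by nlinarith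
  unfold pgW
  simp only
  rw [abs_lt]
  split_ifs <;> constructor <;> linarith

theorem agW_bd {i j k l : ℝ} (hi : |i| ≤ 1 / 8) (hj : |j| ≤ 1 / 8) (hk : |k| ≤ 1 / 8)
    (hl : - (1 / 16) ≤ l) (hl' : l ≤ 0) (r : ℕ) : |agW i j k l r| < 1 := by
  rw [abs_le] at hi hj hk
  unfold agW
  rw [abs_lt]
  split_ifs <;> constructor <;> linarith

theorem theV_bd {K : ℕ} {S : List ER.Con} {w : ℕ → ℝ} (hw : ∀ i, |w i| ≤ 1 / 8) (x : ℕ × ℕ) :
    0 < theV w (theG K S w) x ∧ theV w (theG K S w) x < 1 := by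
  obtain ⟨⟨g1, g2, g3⟩, g4, g5⟩ := theG_bd (K := K) (S := S) hw x.2
  have hw' := hw x.2
  have p1 := pgW_bd g1 g2 g3 g4 g5 x.1
  have p2 := agW_bd g1 g2 g3 g4 g5 x.1
  have s1 := small_pos x.2
  have s2 := small_le x.2
  rw [abs_le] at hw'
  rw [abs_lt] at p1 p2
  unfold theV
  split_ifs <;> constructor <;> linarith

theorem PG_complete {v : ℕ × ℕ → ℝ} (hh : v (0, 0) = 1 / 2) {t : ℕ} {i j k l : Lit}
    (hv : ∀ r, 3 ≤ r → r < 8 → v (r, t) = 1 / 2 + pgW (W v i) (W v j) (W v k) (W v l) r / 2)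
    (h : W v i * W v j + 8 * W v l < W v k) : ∀ c ∈ PG t i j k l, SHolds v c := by
  have hw : ∀ r, 3 ≤ r → r < 8 → W v ((r, t), true) = pgW (W v i) (W v j) (W v k) (W v l) r := by
    intro r h3 h8
    unfold W lval
    simp only [if_true]
    rw [hv r h3 h8]
    unfold W lval
    ring
  have h0 : W v half = 0 := by unfold W lval half; simp [hh]
  unfold PG
  simp only [List.forall_mem_cons, avgLt_iff', prodLt_iff', h0]
  rw [hw 3 (by norm_num) (by norm_num), hw 4 (by norm_num) (by norm_num),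
    hw 5 (by norm_num) (by norm_num), hw 6 (by norm_num) (by norm_num),
    hw 7 (by norm_num) (by norm_num)]
  simp only [pgW]
  norm_num
  refine ⟨?_, ?_, ?_, ?_, ?_, ?_⟩ <;> linarith

theorem AG_complete {v : ℕ × ℕ → ℝ} (hh : v (0, 0) = 1 / 2) {t : ℕ} {i j k l : Lit}
    (hv : ∀ r, 8 ≤ r → v (r, t) = 1 / 2 + agW (W v i) (W v j) (W v k) (W v l) r / 2)
    (h : W v i + W v j = W v k) (hl : W v l < 0) : ∀ c ∈ AG t i j k l, SHolds v c := by
  have hw : ∀ r, 8 ≤ r → W v ((r, t), true) = agW (W v i) (W v j) (W v k) (W v l) r := by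
    intro r h3
    unfold W lval
    simp only [if_true]
    rw [hv r h3]
    unfold W lval
    ring
  have h0 : W v half = 0 := by unfold W lval half; simp [hh]
  unfold AG
  simp only [List.forall_mem_cons, avgLt_iff', W_neg, h0]
  rw [hw 8 (by norm_num), hw 9 (by norm_num)]
  simp only [agW]
  norm_num
  refine ⟨?_, ?_, ?_⟩ <;> linarith

theorem W_sm {w : ℕ → ℝ} {gd : ℕ → ℝ × ℝ × ℝ × ℝ} (j : ℕ) :
    W (theV w gd) (sm j) = 2 * (1 / 32) ^ 2 ^ j := by
  unfold W lval sm theV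
  norm_num
  ring

theorem W_bv {w : ℕ → ℝ} {gd : ℕ → ℝ × ℝ × ℝ × ℝ} (j : ℕ) :
    W (theV w gd) (bv j) = w j := by
  unfold W lval bv theV
  norm_num
  ring

theorem W_kap {w : ℕ → ℝ} {gd : ℕ → ℝ × ℝ × ℝ × ℝ} :
    W (theV w gd) kap = 1 / 8 := by
  unfold W lval kap theV
  norm_num

theorem W_half {w : ℕ → ℝ} {gd : ℕ → ℝ × ℝ × ℝ × ℝ} :
    W (theV w gd) half = 0 := by
  unfold W lval half theV
  norm_num

theorem theV_half {w : ℕ → ℝ} {gd : ℕ → ℝ × ℝ × ℝ × ℝ} : theV w gd (0, 0) = 1 / 2 := by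
  unfold theV; norm_num

theorem theV_kap {w : ℕ → ℝ} {gd : ℕ → ℝ × ℝ × ℝ × ℝ} : theV w gd (0, 1) = 9 / 16 := by
  unfold theV; norm_num

theorem theV_pg {w : ℕ → ℝ} {gd : ℕ → ℝ × ℝ × ℝ × ℝ} {t r : ℕ} (h3 : 3 ≤ r) (h8 : r < 8) :
    theV w gd (r, t) = 1 / 2 + pgW (gd t).1 (gd t).2.1 (gd t).2.2.1 (gd t).2.2.2 r / 2 := by
  unfold theV
  simp only
  rw [if_neg (by omega), if_neg (by omega), if_neg (by omega), if_pos h8]

theorem theV_ag {w : ℕ → ℝ} {gd : ℕ → ℝ × ℝ × ℝ × ℝ} {t r : ℕ} (h8 : 8 ≤ r) :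
    theV w gd (r, t) = 1 / 2 + agW (gd t).1 (gd t).2.1 (gd t).2.2.1 (gd t).2.2.2 r / 2 := by
  unfold theV
  simp only
  rw [if_neg (by omega), if_neg (by omega), if_neg (by omega), if_neg (by omega)]

/-- The extra property of the constraints of the second kind. -/
def mid (v : ℕ × ℕ → ℝ) (c : SCon) : Prop :=
  c.1 = true → 2 / 5 < lval v c.2.1 ∧ lval v c.2.1 < 3 / 5

theorem mid_avg (v : ℕ × ℕ → ℝ) (n a b : Lit) : mid v (avgLt n a b) := by
  intro h; simp [avgLt] at h

theorem mid_prod {v : ℕ × ℕ → ℝ} {a b c : Lit} (hb : |W v b| ≤ 1 / 8) : mid v (prodLt a b c) := by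
  intro _
  rw [abs_le] at hb
  unfold W at hb
  simp only [prodLt]
  constructor <;> linarith

theorem PG_mid {v : ℕ × ℕ → ℝ} {t : ℕ} {i j k l : Lit} (hb : |W v j| ≤ 1 / 8) :
    ∀ c ∈ PG t i j k l, mid v c := by
  unfold PG
  simp only [List.forall_mem_cons]
  exact ⟨mid_prod hb, mid_avg _ _ _ _, mid_avg _ _ _ _, mid_avg _ _ _ _, mid_avg _ _ _ _,
    mid_avg _ _ _ _, by simp⟩

theorem AG_mid {v : ℕ × ℕ → ℝ} {t : ℕ} {i j k l : Lit} :
    ∀ c ∈ AG t i j k l, mid v c := by
  unfold AG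
  simp only [List.forall_mem_cons]
  exact ⟨mid_avg _ _ _ _, mid_avg _ _ _ _, mid_avg _ _ _ _, by simp⟩

theorem strictB_complete {S : List ER.Con} {w : ℕ → ℝ} (hw : ∀ i, |w i| ≤ 1 / 8)
    (h : ∀ c ∈ S, c.HoldsC (1 / 8) w) :
    ∃ v : ℕ × ℕ → ℝ, (∀ x, 0 < v x ∧ v x < 1) ∧ v (0, 0) = 1 / 2 ∧ v (0, 1) = 9 / 16 ∧
      ∀ c ∈ strictB S, SHolds v c ∧ mid v c := by
  set K := gapK S.length with hK
  refine ⟨theV w (theG K S w), theV_bd hw, theV_half, theV_kap, ?_⟩
  set v := theV w (theG K S w) with hv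
  have hhalf : v (0, 0) = 1 / 2 := theV_half
  have hsm : ∀ j, W v (sm j) = 2 * (1 / 32) ^ 2 ^ j := fun j => W_sm j
  have hbv : ∀ j, W v (bv j) = w j := fun j => W_bv j
  have hkap : W v kap = 1 / 8 := W_kap
  have hhf : W v half = 0 := W_half
  intro c hc
  unfold strictB chainC at hc
  rw [List.mem_append, List.mem_cons, List.mem_append, List.mem_map, List.mem_flatMap,
    List.mem_flatMap] at hc
  rcases hc with (rfl | ⟨j, _, rfl⟩ | ⟨j, _, hc⟩) | ⟨⟨c', s⟩, hmem, hc⟩
  · refine ⟨?_, mid_avg _ _ _ _⟩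
    rw [avgLt_iff', hsm, hkap]
    linarith [small_le 0]
  · refine ⟨?_, mid_avg _ _ _ _⟩
    rw [avgLt_iff', hsm, hhf]
    linarith [small_pos j]
  · refine ⟨PG_complete hhalf ?_ ?_ c hc, PG_mid ?_ c hc⟩
    · intro r h3 h8
      rw [hv, theV_pg h3 h8, ← hv]
      simp only [W_neg, hsm, hhf]
      unfold theG
      simp only [Nat.mul_mod_right, if_true, Nat.mul_div_cancel_left j (show 0 < 3 by norm_num)]
    · simp only [W_neg, hsm, hhf, small_sq]
      nlinarith [mul_pos (small_pos j) (small_pos j)]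
    · rw [W_neg, abs_neg, hsm, abs_of_pos (small_pos j)]
      linarith [small_le j]
  · rw [List.mem_zipIdx_iff_getElem?] at hmem
    simp only at hmem hc
    have hc' : c'.HoldsC (1 / 8) w := h c' (List.mem_of_getElem? hmem)
    have hl1 := small_pos K
    have e1 : (3 * s + 1) % 3 = 1 := by omega
    have e2 : (3 * s + 2) % 3 = 2 := by omega
    have e3 : (3 * s + 1) / 3 = s := by omega
    have e4 : (3 * s + 2) / 3 = s := by omega
    cases c' with
    | one i =>
      simp only [ER.Con.HoldsC] at hc'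
      simp only [conC, List.mem_cons, List.not_mem_nil, or_false] at hc
      rcases hc with rfl | rfl
      · refine ⟨?_, mid_avg _ _ _ _⟩
        simp only [avgLt_iff', W_neg, ← hK, hsm, hbv, hkap, hc']
        linarith
      · refine ⟨?_, mid_avg _ _ _ _⟩
        simp only [avgLt_iff', W_neg, ← hK, hsm, hbv, hkap, hc']
        linarith
    | add i j k =>
      simp only [ER.Con.HoldsC] at hc'
      simp only [conC, List.mem_append] at hc
      rcases hc with hc | hc
      · refine ⟨AG_complete hhalf ?_ ?_ ?_ c hc, AG_mid c hc⟩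
        · intro r h8
          rw [hv, theV_ag h8, ← hv]
          simp only [W_neg, ← hK, hsm, hbv]
          unfold theG
          rw [e1, e3, hmem]
          simp
        · rw [hbv, hbv, hbv, hc']
        · rw [W_neg, ← hK, hsm]
          linarith
      · refine ⟨AG_complete hhalf ?_ ?_ ?_ c hc, AG_mid c hc⟩
        · intro r h8
          rw [hv, theV_ag h8, ← hv]
          simp only [W_neg, ← hK, hsm, hbv]
          unfold theG
          rw [e2, e4, hmem]
          simp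
        · rw [W_neg, W_neg, W_neg, hbv, hbv, hbv, ← hc']
          ring
        · rw [W_neg, ← hK, hsm]
          linarith
    | mul i j k =>
      simp only [ER.Con.HoldsC] at hc'
      simp only [conC, List.mem_append] at hc
      rcases hc with hc | hc
      · refine ⟨PG_complete hhalf ?_ ?_ c hc, PG_mid ?_ c hc⟩
        · intro r h3 h8
          rw [hv, theV_pg h3 h8, ← hv]
          simp only [W_neg, ← hK, hsm, hbv]
          unfold theG
          rw [e1, e3, hmem]
          simp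
        · simp only [W_neg, ← hK, hsm, hbv, hc']
          linarith
        · rw [hbv]; exact hw _
      · refine ⟨PG_complete hhalf ?_ ?_ c hc, PG_mid ?_ c hc⟩
        · intro r h3 h8
          rw [hv, theV_pg h3 h8, ← hv]
          simp only [W_neg, ← hK, hsm, hbv]
          unfold theG
          rw [e2, e4, hmem]
          simp
        · simp only [W_neg, ← hK, hsm, hbv, ← hc']
          nlinarith
        · rw [W_neg, abs_neg, hbv]; exact hw _

/-- The strict system of a system of constraints `x = 1`, `x + y = z`, `x * y = z`. -/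
def strict (S : List ER.Con) : List SCon := strictB (bsys S)

theorem strict_complete {S : List ER.Con} (h : Sat S) :
    ∃ v : ℕ × ℕ → ℝ, (∀ x, 0 < v x ∧ v x < 1) ∧ v (0, 0) = 1 / 2 ∧ v (0, 1) = 9 / 16 ∧
      ∀ c ∈ strict S, SHolds v c ∧ mid v c := by
  obtain ⟨w, hw, hc⟩ := bsys_of_sat h
  exact strictB_complete hw hc

theorem strict_sound {S : List ER.Con} {v : ℕ × ℕ → ℝ} (h01 : ∀ x, 0 ≤ v x ∧ v x ≤ 1)
    (hh : v (0, 0) = 1 / 2) (hk : v (0, 1) = 9 / 16) (h : ∀ c ∈ strict S, SHolds v c) :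
    Sat S := by
  obtain ⟨w, hw⟩ := strictB_sound h01 hh hk h
  exact sat_of_bsys hw

theorem strict_ne_nil (S : List ER.Con) : strict S ≠ [] := by
  unfold strict strictB chainC
  simp

end Pool.Agent.K4H90.SegDraw
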