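import Pool.Agent.K4H90.Seg.Sound
import Pool.Agent.K4H90.Seg.Strict

/-!
# The diagrams of the reduction
-/

namespace Pool.Agent.K4H90.SegDraw

/-- The data of a diagram of the reduction: number and kinds of the tests, number and positions of
the swaps, signs, groups and kinds of the sources. -/
structure Dat where
  /-- number of tests -/
  T : ℕ
  /-- kinds of the tests -/
  ks : ℕ → Bool
  /-- number of swaps -/
  L : ℕ
  /-- positions of the swaps -/
  J : ℕ → ℕ
  /-- signs -/
  sgn : ℕ → Bool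
  /-- groups -/
  grp : ℕ → ℕ
  /-- kinds of the sources -/
  sk : ℕ → ℕ

namespace Dat

variable (d : Dat)

/-- The kind of the gadget of a cell. -/
def gk (l b : ℕ) : ℕ :=
  if l = 0 then (if d.sgn b = true then 0 else 1) else
  if l ≤ d.L then (if b = d.J (l - 1) then 2 else if b = d.J (l - 1) + 1 then 5 else 0) else
  if b % 3 = 0 then (if d.ks (b / 3) = true then 4 else 3) else 5

end Dat

/-- The gadgets. -/
def gadOf (k : ℕ) : Gadget :=
  if k = 0 then plainG else if k = 1 then negG else if k = 2 then swapG else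
  if k = 3 then linG else if k = 4 then prodG else emptyG

theorem gadOf_ok (k : ℕ) : GadOK (gadOf k) := by
  unfold gadOf
  split_ifs
  · exact plainG_ok
  · exact negG_ok
  · exact swapG_ok
  · exact linG_ok
  · exact prodG_ok
  · decide

theorem gadOf_num (k : ℕ) : (edgesOf (gadOf k)).all
    (fun e => decide (xhi (gadOf k) e.1 < xlo (gadOf k) e.2)) = true := by
  unfold gadOf
  split_ifs <;> decide +kernel

namespace Dat

variable (d : Dat)

/-- The diagram. -/
def dia : Dia where
  N := 3 * d.T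
  C := d.L + 2
  gad := fun l b => gadOf (d.gk l b)
  grp := d.grp
  sk := d.sk

/-- The conditions on the data. -/
structure OK : Prop where
  hT : 0 < d.T
  hJ : ∀ i < d.L, d.J i + 1 < 3 * d.T
  g1 : ∀ k, d.grp k ≤ k
  g2 : ∀ k, d.grp (d.grp k) = d.grp k
  g3 : ∀ k k', k ≤ k' → d.grp k ≤ d.grp k'
  hs : ∀ k, d.sk k = 0 ∨ d.sk k = 1 ∨ d.sk k = 3

variable {d}

theorem ht0 : ht (gadOf 0) = 1 := by decide
theorem ht1 : ht (gadOf 1) = 1 := by decide
theorem ht2 : ht (gadOf 2) = 2 := by decide
theorem ht3 : ht (gadOf 3) = 3 := by decide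
theorem ht4 : ht (gadOf 4) = 3 := by decide
theorem ht5 : ht (gadOf 5) = 0 := by decide

theorem gk_zero (b : ℕ) : d.gk 0 b = if d.sgn b = true then 0 else 1 := by simp [gk]

theorem gk_layer {i : ℕ} (hi : i < d.L) (b : ℕ) : d.gk (i + 1) b =
    if b = d.J i then 2 else if b = d.J i + 1 then 5 else 0 := by
  unfold gk
  rw [if_neg (by omega), if_pos (by omega), Nat.add_sub_cancel]

theorem gk_last (b : ℕ) : d.gk (d.L + 1) b =
    if b % 3 = 0 then (if d.ks (b / 3) = true then 4 else 3) else 5 := by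
  unfold gk
  rw [if_neg (by omega), if_neg (by omega)]

theorem col_cases {l : ℕ} (hl : l < d.L + 2) : l = 0 ∨ (∃ i < d.L, l = i + 1) ∨ l = d.L + 1 := by
  rcases Nat.eq_zero_or_pos l with h | h
  · exact Or.inl h
  · by_cases h2 : l ≤ d.L
    · exact Or.inr (Or.inl ⟨l - 1, by omega, by omega⟩)
    · exact Or.inr (Or.inr (by omega))

theorem dia_ok (h : d.OK) : d.dia.OK where
  hN := by have := h.hT; simp only [dia]; omega
  hC := by simp [dia]
  ok := fun l _ b _ => gadOf_ok _
  num := fun l _ b _ => gadOf_num _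
  fit := by
    intro l hl b hb
    simp only [dia] at hl hb ⊢
    rcases col_cases hl with rfl | ⟨i, hi, rfl⟩ | rfl
    · rw [gk_zero]
      split_ifs
      · rw [ht0]; omega
      · rw [ht1]; omega
    · rw [gk_layer hi]
      have := h.hJ i hi
      split_ifs
      · rw [ht2]; omega
      · rw [ht5]; omega
      · rw [ht0]; omega
    · rw [gk_last]
      split_ifs
      · rw [ht4]; omega
      · rw [ht3]; omega
      · rw [ht5]; omega
  sep := by
    intro l hl b b' hbb hb'
    simp only [dia] at hl hb' ⊢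
    rcases col_cases hl with rfl | ⟨i, hi, rfl⟩ | rfl
    · right
      rw [gk_zero]
      split_ifs
      · rw [ht0]; omega
      · rw [ht1]; omega
    · rw [gk_layer hi, gk_layer hi]
      by_cases h1 : b' = d.J i + 1
      · left
        rw [if_neg (by omega), if_pos h1]
        rfl
      · right
        split_ifs
        · rw [ht2]; omega
        · rw [ht5]; omega
        · rw [ht0]; omega
    · rw [gk_last, gk_last]
      by_cases h1 : b' % 3 = 0
      · right
        split_ifs
        · rw [ht4]; omega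
        · rw [ht3]; omega
        · rw [ht5]; omega
      · left
        rw [if_neg h1]
        rfl
  cov := by
    intro l hl k hk
    simp only [dia] at hl hk ⊢
    rcases col_cases (by omega : l < d.L + 2) with rfl | ⟨i, hi, rfl⟩ | rfl
    · refine ⟨k, hk, 0, rfl, ?_⟩
      rw [gk_zero]
      split_ifs <;> decide
    · have := h.hJ i hi
      by_cases h1 : k = d.J i
      · refine ⟨k, hk, 0, rfl, ?_⟩
        rw [gk_layer hi, if_pos h1]
        decide
      · by_cases h2 : k = d.J i + 1
        · refine ⟨d.J i, by omega, 1, h2, ?_⟩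
          rw [gk_layer hi, if_pos rfl]
          decide
        · refine ⟨k, hk, 0, rfl, ?_⟩
          rw [gk_layer hi, if_neg h1, if_neg h2]
          decide
    · omega
  last := by
    intro b hb
    simp only [dia]
    have : d.L + 2 - 1 = d.L + 1 := by omega
    rw [this, gk_last]
    split_ifs <;> decide
  g1 := h.g1
  g2 := h.g2
  g3 := h.g3
  c0 := by
    intro b hb
    simp only [dia]
    rw [gk_zero]
    split_ifs <;> decide

/-! ### Configurations -/

/-- The offsets in a gadget of the track kind. -/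
noncomputable def oPlain (p1 m p2 : ℝ) (i : ℕ) : ℝ :=
  if i = 0 then p1 else if i = 1 then m else p2

/-- The offsets in a gadget, given as a list. -/
noncomputable def oL (x : List ℝ) (i : ℕ) : ℝ := (x[i]?).getD 8

/-- The configuration of a cell of given kind, with given values of the left ports; `D` is the
step. -/
noncomputable def oVal (D : ℝ) (lo : ℕ → ℝ) (k : ℕ) : ℕ → ℝ :=
  if k = 0 then oL [8, 16 - lo 0 - D, 8] else
  if k = 1 then oL [8] else
  if k = 2 then oL [8, 16 - lo 0 - D, 8, lo 0 + 2 * D, 8, 16 - (lo 0 + 2 * D) + D,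
    (lo 1 + (lo 0 + 2 * D)) / 2 + D, 8, 16 - ((lo 1 + (lo 0 + 2 * D)) / 2 + D) - D, 8,
    (lo 1 + (lo 0 + 2 * D)) / 2 + D + 2 * D, 8, 16 - ((lo 1 + (lo 0 + 2 * D)) / 2 + D) - D,
    16 - lo 1 - 6 * D, 8] else
  if k = 3 then oL [8, 16 - lo 2 - D, 8, lo 2 + 2 * D, 8, 16 - lo 1 - D] else
  oL [8, 16 - lo 0 - D, 8, lo 0 + 2 * D, 8, 16 - lo 1 - D, 8, lo 1 + 2 * D, 8, 16 - lo 2 - D,
    4 + 2 / (1 - (lo 0 + 3 * D) / 16), 8, 8]

/-- The reference configuration of a cell of given kind. -/
noncomputable def oRef (k : ℕ) : ℕ → ℝ :=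
  if k = 0 then oL [9, 8, 7] else
  if k = 1 then oL [7] else
  if k = 2 then oL [9, 8, 7, 8, 7, 8, 9, 9, 8, 7, 7, 10, 9, 8, 7] else
  if k = 3 then oL [9, 8, 7, 8, 9, 9] else
  oL [9, 8, 5, 4, 9, 8, 5, 4, 9, 8, 8, 8, 8]

theorem off_plain {o : ℕ → ℝ} (h : ∀ i < 3, 0 < o i ∧ o i < 16) : OffOK plainG o := by
  intro i w hw
  have hi := (List.getElem?_eq_some_iff.1 hw).1
  have hi' : i < 3 := hi
  refine ⟨fun _ => h i hi', fun h2 => ?_⟩
  exfalso
  interval_cases i <;> (simp [plainG] at hw; subst hw; simp at h2)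

theorem off_neg {o : ℕ → ℝ} (h : ∀ i < 1, 0 < o i ∧ o i < 16) : OffOK negG o := by
  intro i w hw
  have hi := (List.getElem?_eq_some_iff.1 hw).1
  have hi' : i < 1 := hi
  refine ⟨fun _ => h i hi', fun h2 => ?_⟩
  exfalso
  interval_cases i <;> (simp [negG] at hw; subst hw; simp at h2)

theorem off_swap {o : ℕ → ℝ} (h : ∀ i < 15, 0 < o i ∧ o i < 16) : OffOK swapG o := by
  intro i w hw
  have hi := (List.getElem?_eq_some_iff.1 hw).1
  have hi' : i < 15 := hi
  refine ⟨fun _ => h i hi', fun h2 => ?_⟩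
  exfalso
  interval_cases i <;> (simp [swapG] at hw; subst hw; simp at h2)

theorem off_lin {o : ℕ → ℝ} (h : ∀ i < 6, 0 < o i ∧ o i < 16) : OffOK linG o := by
  intro i w hw
  have hi := (List.getElem?_eq_some_iff.1 hw).1
  have hi' : i < 6 := hi
  refine ⟨fun _ => h i hi', fun h2 => ?_⟩
  exfalso
  interval_cases i <;> (simp [linG] at hw; subst hw; simp at h2)

theorem off_prod {o : ℕ → ℝ} (h : ∀ i < 13, i ≠ 10 → 0 < o i ∧ o i < 16)
    (h10 : 7 < o 10 ∧ o 10 < 10) : OffOK prodG o := by
  intro i w hw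
  have hi := (List.getElem?_eq_some_iff.1 hw).1
  have hi' : i < 13 := hi
  by_cases hi10 : i = 10
  · subst hi10
    simp [prodG] at hw
    subst hw
    refine ⟨fun h2 => (h2 rfl).elim, fun _ => ?_⟩
    norm_num
    exact h10
  · refine ⟨fun _ => h i hi' hi10, fun h2 => ?_⟩
    exfalso
    interval_cases i <;> first | (exact hi10 rfl) | (simp [prodG] at hw; subst hw; simp at h2)

theorem forall_lt_list (x : List ℝ) (h : ∀ y ∈ x, 0 < y ∧ y < 16) :
    ∀ i < x.length, 0 < oL x i ∧ oL x i < 16 := by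
  intro i hi
  unfold oL
  rw [List.getElem?_eq_getElem hi, Option.getD_some]
  exact h _ (List.getElem_mem hi)

theorem empty_geo (q : Ref → ℝ × ℝ) : GeoOK emptyG q := by
  refine ⟨?_, ?_, ?_, ?_, ?_, ?_, ?_, ?_⟩ <;> simp [emptyG, edgesOf, refs]

theorem geo_ref (k : ℕ) : GeoOK (gadOf k) (cfg (gadOf k) (fun _ => 8) (fun _ => 8) (oRef k)) := by
  unfold gadOf oRef
  split_ifs with h0 h1 h2 h3 h4
  · refine plain_geo (by intros; norm_num) (by intros; norm_num) (off_plain ?_) ?_ ?_
    · exact forall_lt_list [9, 8, 7] (by simp only [List.forall_mem_cons]; norm_num)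
    · norm_num [oL]
    · norm_num [oL]
  · refine neg_geo (by intros; norm_num) (by intros; norm_num) (off_neg ?_) ?_
    · exact forall_lt_list [7] (by simp only [List.forall_mem_cons]; norm_num)
    · norm_num [oL]
  · refine swap_geo (by intros; norm_num) (by intros; norm_num) (off_swap ?_) ?_ ?_ ?_ ?_ ?_ ?_ ?_ ?_
      ?_ ?_
    · exact forall_lt_list [9, 8, 7, 8, 7, 8, 9, 9, 8, 7, 7, 10, 9, 8, 7]
        (by simp only [List.forall_mem_cons]; norm_num)
    all_goals norm_num [oL]
  · refine lin_geo (by intros; norm_num) (by intros; norm_num) (off_lin ?_) ?_ ?_ ?_ ?_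
    · exact forall_lt_list [9, 8, 7, 8, 9, 9] (by simp only [List.forall_mem_cons]; norm_num)
    all_goals norm_num [oL]
  · refine prod_geo (by intros; norm_num) (by intros; norm_num) (off_prod ?_ ?_) ?_ ?_ ?_ ?_ ?_ ?_
      ?_ ?_
    · intro i hi _
      exact forall_lt_list [9, 8, 5, 4, 9, 8, 5, 4, 9, 8, 8, 8, 8]
        (by simp only [List.forall_mem_cons]; norm_num) i hi
    all_goals norm_num [oL]
  · exact empty_geo _

end Dat

end Pool.Agent.K4H90.SegDraw
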