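import Pool.Agent.K4H90.Seg.Draw

/-!
# Positions on the segments; what a drawing of a diagram forces
-/

namespace Pool.Agent.K4H90.SegDraw

theorem pts_of_open {s : Seg} {p : ℝ × ℝ} (h : p ∈ openSegment ℝ (toR s.p) (toR s.q)) :
    p ∈ s.pts := by
  unfold Seg.pts
  split_ifs
  · exact openSegment_subset_segment ℝ _ _ h
  · exact h

theorem seg_of_pts {s : Seg} {p : ℝ × ℝ} (h : p ∈ s.pts) :
    p ∈ segment ℝ (toR s.p) (toR s.q) := by
  unfold Seg.pts at h
  split_ifs at h
  · exact h
  · exact openSegment_subset_segment ℝ _ _ h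

theorem mk0_mem {cl : Bool} {X Y : ℕ} {p : ℝ × ℝ} (h1 : p.1 = X) (h2 : (Y : ℝ) < p.2)
    (h3 : p.2 < (Y : ℝ) + 16) : p ∈ (mkSeg cl X Y 0).pts := by
  apply pts_of_open
  refine ⟨1 - (p.2 - Y) / 16, (p.2 - Y) / 16, by linarith, by linarith, by ring, ?_⟩
  unfold mkSeg toR
  ext
  · simp [h1]
    ring
  · simp
    ring

theorem mk2_mem {cl : Bool} {X Y : ℕ} {p : ℝ × ℝ} (h1 : p.2 = Y) (h2 : (X : ℝ) < p.1)
    (h3 : p.1 < (X : ℝ) + 3) : p ∈ (mkSeg cl X Y 2).pts := by
  apply pts_of_open
  refine ⟨1 - (p.1 - X) / 3, (p.1 - X) / 3, by linarith, by linarith, by ring, ?_⟩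
  unfold mkSeg toR
  ext
  · simp
    ring
  · simp [h1]
    ring

theorem mk1_mem {cl : Bool} {X Y : ℕ} {p : ℝ × ℝ} (h1 : p.1 = X) (h2 : p.2 = (Y : ℝ) + 8) :
    p ∈ (mkSeg cl X Y 1).pts := by
  apply pts_of_open
  have : p = toR (mkSeg cl X Y 1).p := by
    unfold mkSeg toR
    ext
    · simp [h1]
    · simp [h2]
  rw [this]
  have e : toR (mkSeg cl X Y 1).q = toR (mkSeg cl X Y 1).p := by simp [mkSeg]
  rw [e, openSegment_same]
  rfl

theorem mk3_mem {cl : Bool} {X Y : ℕ} {p : ℝ × ℝ} (h1 : p.1 = X) (h2 : p.2 = (Y : ℝ) + 9) :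
    p ∈ (mkSeg cl X Y 3).pts := by
  apply pts_of_open
  have : p = toR (mkSeg cl X Y 3).p := by
    unfold mkSeg toR
    ext
    · simp [h1]
    · simp [h2]
  rw [this]
  have e : toR (mkSeg cl X Y 3).q = toR (mkSeg cl X Y 3).p := by simp [mkSeg]
  rw [e, openSegment_same]
  rfl

theorem of_mk {cl : Bool} {X Y k : ℕ} {p : ℝ × ℝ} (h : p ∈ (mkSeg cl X Y k).pts) :
    (k ≠ 2 → p.1 = X) ∧ (k = 0 → (Y : ℝ) ≤ p.2 ∧ p.2 ≤ (Y : ℝ) + 16) ∧
    (k = 1 → p.2 = (Y : ℝ) + 8) ∧ (k = 3 → p.2 = (Y : ℝ) + 9) ∧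
    (k = 2 → p.2 = Y ∧ (X : ℝ) ≤ p.1 ∧ p.1 ≤ (X : ℝ) + 3) := by
  have h0 := seg_of_pts h
  have bd : ∀ α β γ : ℝ, α * (toR (mkSeg cl X Y k).p).1 + β * (toR (mkSeg cl X Y k).p).2 ≤ γ →
    α * (toR (mkSeg cl X Y k).q).1 + β * (toR (mkSeg cl X Y k).q).2 ≤ γ →
    α * p.1 + β * p.2 ≤ γ := fun α β γ => seg_lin h0
  unfold mkSeg toR at bd
  refine ⟨fun hk => ?_, fun hk => ?_, fun hk => ?_, fun hk => ?_, fun hk => ?_⟩
  · have e1 : p.1 ≤ X := by
      have := bd 1 0 X
      split_ifs at this <;> first | (simp at this; linarith) | (exfalso; omega)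
    have e2 : (X : ℝ) ≤ p.1 := by
      have := bd (-1) 0 (-X)
      split_ifs at this <;> first | (simp at this; linarith) | (exfalso; omega)
    linarith
  · subst hk
    have e1 := bd 0 1 (Y + 16)
    have e2 := bd 0 (-1) (-Y)
    simp at e1 e2
    constructor <;> linarith
  · subst hk
    have e1 := bd 0 1 (Y + 8)
    have e2 := bd 0 (-1) (-(Y + 8))
    simp at e1 e2
    linarith
  · subst hk
    have e1 := bd 0 1 (Y + 9)
    have e2 := bd 0 (-1) (-(Y + 9))
    simp at e1 e2
    linarith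
  · subst hk
    have e1 := bd 0 1 Y
    have e2 := bd 0 (-1) (-Y)
    have e3 := bd 1 0 (X + 3)
    have e4 := bd (-1) 0 (-X)
    simp at e1 e2 e3 e4
    refine ⟨by linarith, by linarith, by linarith⟩

theorem sublist_of_prs {α : Type} : ∀ {l : List α} {p : α × α}, p ∈ prs l →
    [p.1, p.2].Sublist l
  | [], p, h => by simp [prs] at h
  | a :: l, p, h => by
    unfold prs at h
    rw [List.mem_append, List.mem_map] at h
    rcases h with ⟨b, hb, rfl⟩ | h
    · exact (List.singleton_sublist.2 hb).cons_cons a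
    · exact (sublist_of_prs h).trans (List.sublist_cons_self _ _)

theorem sublist_flatMap {α β : Type} {f : α → List β} : ∀ {l : List α} {a : α}, a ∈ l →
    (f a).Sublist (l.flatMap f)
  | [], a, h => by simp at h
  | b :: l, a, h => by
    rw [List.flatMap_cons]
    rcases List.mem_cons.1 h with rfl | h
    · exact List.sublist_append_left _ _
    · exact (sublist_flatMap h).trans (List.sublist_append_right _ _)

namespace Dia

variable {G : Dia}

/-- The offsets respect the segments (open version). -/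
structure Mem (G : Dia) (t : ℕ → ℕ → ℝ) (o : ℕ → ℕ → ℕ → ℝ) : Prop where
  ht : ∀ l k, 0 < t l k ∧ t l k < 16
  hs : ∀ k, G.sk k = 0 ∨ (G.sk k = 1 ∧ t 0 k = 8) ∨ (G.sk k = 3 ∧ t 0 k = 9)
  hi : ∀ l < G.C, ∀ b < G.N, ∀ i w, (G.gad l b).1[i]? = some w →
    (w.2.2.1 = 0 ∧ 0 < o l b i ∧ o l b i < 16) ∨ (w.2.2.1 = 1 ∧ o l b i = 8) ∨
      (w.2.2.1 = 2 ∧ l ≠ 0 ∧ (w.1 : ℝ) < o l b i ∧ o l b i < (w.1 : ℝ) + 3)

theorem mem_all (h : G.OK) {t : ℕ → ℕ → ℝ} {o : ℕ → ℕ → ℕ → ℝ} (hM : Mem G t o) (cl : Bool) :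
    ∀ e ∈ (G.inst cl).verts, G.pos t o e.1 ∈ e.2.1.pts := by
  intro e he
  rcases mem_verts.1 he with rfl | ⟨l, hl, k, hk, h0, rfl⟩ | ⟨l, hl, b, hb, i, w, hw, rfl⟩
  · simp only [pos_root]
    apply pts_of_open
    simp only [openSegment_same]
    unfold toR
    simp
  · unfold tEnt
    simp only [pos_T]
    have t1 := hM.ht l k
    by_cases hl0 : l = 0
    · subst hl0
      rw [if_pos rfl]
      rcases hM.hs k with h1 | ⟨h1, h2⟩ | ⟨h1, h2⟩
      · rw [h1]
        refine mk0_mem ?_ ?_ ?_ <;> push_cast <;> linarith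
      · rw [h1]
        refine mk1_mem ?_ ?_ <;> push_cast
        · ring
        · linarith
      · rw [h1]
        refine mk3_mem ?_ ?_ <;> push_cast
        · ring
        · linarith
    · rw [if_neg hl0]
      refine mk0_mem ?_ ?_ ?_ <;> push_cast <;> linarith
  · unfold iEnt
    simp only [pos_in]
    have hhb := hb_le h l b
    have hq : G.q t o l b (2, i) = if w.2.2.1 = 2 then (o l b i, (w.2.1 : ℝ)) else
      ((w.1 : ℝ), (w.2.1 : ℝ) + o l b i) := by
      unfold q
      rw [cfg_inn _ _ _ hw]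
    rw [hq]
    unfold plc pl
    rcases hM.hi l hl b hb i w hw with ⟨h1, h2, h3⟩ | ⟨h1, h2⟩ | ⟨h1, h2, h3, h4⟩
    · rw [h1, if_neg (by norm_num)]
      refine mk0_mem ?_ ?_ ?_ <;> push_cast [Nat.cast_sub hhb] <;> linarith
    · rw [h1, if_neg (by norm_num), h2]
      refine mk1_mem ?_ ?_ <;> push_cast [Nat.cast_sub hhb] <;> linarith
    · rw [h1, if_pos rfl]
      have e0 : G.hb l b = b := hb_pos h2 b
      rw [e0, Nat.sub_self, sub_self]
      refine mk2_mem ?_ ?_ ?_ <;> push_cast <;> linarith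

/-- A good configuration on the segments gives a solution of the instance. -/
theorem solvable (h : G.OK) {t : ℕ → ℕ → ℝ} {o : ℕ → ℕ → ℕ → ℝ} (hG : Good G t o)
    (hM : Mem G t o) (cl : Bool) : (G.inst cl).Solvable :=
  ⟨_, isDrawing h hG cl, mem_all h hM cl, fun _ _ _ s hs => by simp [inst] at hs⟩

/-! ### Soundness -/

/-- What a drawing of a diagram gives. -/
structure Forced (G : Dia) (t : ℕ → ℕ → ℝ) (o : ℕ → ℕ → ℕ → ℝ) : Prop where
  ht : ∀ l < G.C, ∀ k < G.N, (l = 0 → G.grp k = k) →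
    (l = 0 → G.sk k = 0) → 0 ≤ t l k ∧ t l k ≤ 16
  hs1 : ∀ k < G.N, G.grp k = k → G.sk k = 1 → t 0 k = 8
  hs3 : ∀ k < G.N, G.grp k = k → G.sk k = 3 → t 0 k = 9
  snd : ∀ l < G.C, ∀ b < G.N, SndOK (G.gad l b) (fun i => t l (G.hb l b + i))
    (fun i => t (l + 1) (b + i)) (o l b)

theorem cfg_xrange {g : Gadget} {lo ro o : ℕ → ℝ} (ho : OffCl g o) {r : Ref} (hr : r ∈ refs g) :
    (xlo g r : ℝ) ≤ (cfg g lo ro o r).1 ∧ (cfg g lo ro o r).1 ≤ (xhi g r : ℝ) := by
  rcases ref_cases hr with ⟨i, hi, rfl⟩ | ⟨i, hi, rfl⟩ | ⟨i, hi, rfl⟩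
  · rw [cfg_lp]; simp [xlo, xhi]
  · rw [cfg_rp]; simp [xlo, xhi]
  · have hw : g.1[i]? = some g.1[i] := List.getElem?_eq_getElem hi
    obtain ⟨-, -, o2⟩ := ho i _ hw
    rw [cfg_inn lo ro o hw]
    unfold xlo xhi
    simp only [show (2 : ℕ) ≠ 0 by norm_num, show (2 : ℕ) ≠ 1 by norm_num, if_false, hw,
      Option.map_some, Option.getD_some]
    split_ifs with hk
    · have := o2 hk
      push_cast
      exact this
    · simp

theorem forced (h : G.OK) {cl : Bool} {D : ℕ → ℝ × ℝ} (hD : (G.inst cl).IsDrawing D)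
    (hm : ∀ e ∈ (G.inst cl).verts, D e.1 ∈ e.2.1.pts)
    (hk2 : ∀ b < G.N, ∀ (i : ℕ) (w : Row), (G.gad 0 b).1[i]? = some w → w.2.2.1 ≠ 2)
    (hk3 : ∀ k, G.sk k ≠ 2) :
    ∃ t o, Forced G t o := by
  set t : ℕ → ℕ → ℝ := fun l k => (D (nm 1 l k)).2 - 192 * (k : ℝ) with ht
  set o : ℕ → ℕ → ℕ → ℝ := fun l b i => match (G.gad l b).1[i]? with
    | some w => if w.2.2.1 = 2 then (D (nm (2 + i) l b)).1 - 12 * (l : ℝ) else
      (D (nm (2 + i) l b)).2 - (192 * (G.hb l b : ℝ) + (w.2.1 : ℝ) +
        16 * ((b : ℝ) - (G.hb l b : ℝ)) * (w.1 : ℝ))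
    | none => 0 with ho
  have hoff : ∀ l < G.C, ∀ b < G.N, OffCl (G.gad l b) (o l b) := by
    intro l hl b hb i w hw
    have e1 := hm _ (mem_verts.2 (Or.inr (Or.inr ⟨l, hl, b, hb, i, w, hw, rfl⟩)))
    unfold iEnt at e1
    simp only at e1
    obtain ⟨k1, k2, k3, k4, k5⟩ := of_mk e1
    have hhb := hb_le h l b
    have eo : o l b i = if w.2.2.1 = 2 then (D (nm (2 + i) l b)).1 - 12 * (l : ℝ) else
      (D (nm (2 + i) l b)).2 - (192 * (G.hb l b : ℝ) + (w.2.1 : ℝ) +
        16 * ((b : ℝ) - (G.hb l b : ℝ)) * (w.1 : ℝ)) := by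
      rw [ho]; simp only [hw]
    rw [eo]
    push_cast [Nat.cast_sub hhb] at k2 k3 k4 k5
    refine ⟨fun hk => ?_, fun hk => ?_, fun hk => ?_⟩
    · rw [if_neg (by omega)]
      have := k2 hk
      constructor <;> linarith
    · rw [if_neg (by omega)]
      have := k3 hk
      linarith
    · rw [if_pos hk]
      have := k5 hk
      constructor <;> linarith
  have hpos : ∀ u ∈ (G.inst cl).names, D u = G.pos t o u := by
    intro u hu
    unfold Inst.names at hu
    rw [List.mem_map] at hu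
    obtain ⟨e, he, rfl⟩ := hu
    have e1 := hm e he
    rcases mem_verts.1 he with rfl | ⟨l, hl, k, hk, h0, rfl⟩ | ⟨l, hl, b, hb, i, w, hw, rfl⟩
    · simp only at e1 ⊢
      have e2 := seg_of_pts e1
      simp only [segment_same] at e2
      rw [pos_root, Set.mem_singleton_iff.1 e2]
      unfold toR
      norm_num
    · unfold tEnt at e1 ⊢
      simp only at e1 ⊢
      rw [pos_T]
      have k1 := (of_mk e1).1 (by
        split_ifs
        · exact hk3 k
        · norm_num)
      ext
      · simp only [k1]; push_cast; ring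
      · simp only [ht]; ring
    · unfold iEnt at e1 ⊢
      simp only at e1 ⊢
      obtain ⟨k1, k2, k3, k4, k5⟩ := of_mk e1
      have hhb := hb_le h l b
      have hq : G.q t o l b (2, i) = if w.2.2.1 = 2 then (o l b i, (w.2.1 : ℝ)) else
        ((w.1 : ℝ), (w.2.1 : ℝ) + o l b i) := by
        unfold q
        rw [cfg_inn _ _ _ hw]
      have eo : o l b i = if w.2.2.1 = 2 then (D (nm (2 + i) l b)).1 - 12 * (l : ℝ) else
        (D (nm (2 + i) l b)).2 - (192 * (G.hb l b : ℝ) + (w.2.1 : ℝ) +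
          16 * ((b : ℝ) - (G.hb l b : ℝ)) * (w.1 : ℝ)) := by
        rw [ho]; simp only [hw]
      rw [pos_in, hq, eo]
      unfold plc pl
      by_cases hk : w.2.2.1 = 2
      · rw [if_pos hk, if_pos hk]
        have hl0 : l ≠ 0 := by
          rintro rfl
          exact hk2 b hb i w hw hk
        have e0 : G.hb l b = b := hb_pos hl0 b
        have k6 := (k5 hk).1
        rw [e0] at k6 ⊢
        push_cast [Nat.sub_self] at k6
        ext
        · simp only; ring
        · simp only [k6]; ring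
      · rw [if_neg hk, if_neg hk]
        have k6 := k1 hk
        ext
        · simp only [k6]; push_cast; ring
        · simp only; ring
  -- direction of the edges
  have dir : ∀ l < G.C, ∀ b < G.N, ∀ s r, s ∈ refs (G.gad l b) → r ∈ rl (G.gad l b) s →
      (D (G.res l b s)).1 < (D (G.res l b r)).1 := by
    intro l hl b hb s r hs hr
    have hr0 := ((h.ok l hl b hb).1 _ hs _ hr).1
    rw [hpos _ (res_mem_names h hl hb hs), hpos _ (res_mem_names h hl hb hr0),
      pos_res t o hs, pos_res t o hr0]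
    have h1 := List.all_eq_true.1 (h.num l hl b hb) (s, r) (mem_edgesOf.2 ⟨hs, hr⟩)
    simp only [decide_eq_true_eq] at h1
    have h2 : (xhi (G.gad l b) s : ℝ) < (xlo (G.gad l b) r : ℝ) := by exact_mod_cast h1
    have h3 := (cfg_xrange (lo := fun i => t l (G.hb l b + i))
      (ro := fun i => t (l + 1) (b + i)) (hoff l hl b hb) hs).2
    have h4 := (cfg_xrange (lo := fun i => t l (G.hb l b + i))
      (ro := fun i => t (l + 1) (b + i)) (hoff l hl b hb) hr0).1
    unfold plc pl q
    simp only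
    linarith
  have Edir : ∀ u v, G.E u v → (D u).1 < (D v).1 := by
    intro u v he
    have hn := E_mem_names h (cl := cl) he
    rcases he with ⟨rfl, k, hk, hg, rfl⟩ | ⟨l, hl, b, hb, s, r, hs, hr, rfl, rfl⟩
    · rw [hpos _ hn.1, hpos _ hn.2, pos_root, pos_T]
      simp
    · exact dir l hl b hb s r hs hr
  have hcr : ∀ l < G.C, ∀ b < G.N, ∀ s a c, s ∈ refs (G.gad l b) → a ∈ refs (G.gad l b) →
      c ∈ refs (G.gad l b) → 0 < cr (D (G.res l b s)) (D (G.res l b a)) (D (G.res l b c)) →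
      0 < cr (G.q t o l b s) (G.q t o l b a) (G.q t o l b c) := by
    intro l hl b hb s a c hs ha hc h1
    rw [hpos _ (res_mem_names h hl hb hs), hpos _ (res_mem_names h hl hb ha),
      hpos _ (res_mem_names h hl hb hc), pos_res t o hs, pos_res t o ha, pos_res t o hc] at h1
    unfold plc at h1
    rwa [cr_pl] at h1
  refine ⟨t, o, ?_, ?_, ?_, ?_⟩
  · intro l hl k hk h0 hs
    have e1 := hm _ (mem_verts.2 (Or.inr (Or.inl ⟨l, hl, k, hk, h0, rfl⟩)))
    unfold tEnt at e1
    simp only at e1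
    have e2 : (if l = 0 then G.sk k else 0) = 0 := by
      split_ifs with h1
      · exact hs h1
      · rfl
    have := (of_mk e1).2.1 e2
    push_cast at this
    rw [ht]
    simp only
    constructor <;> linarith
  · intro k hk hg hs
    have e1 := hm _ (mem_verts.2 (Or.inr (Or.inl ⟨0, h.hC, k, hk, fun _ => hg, rfl⟩)))
    unfold tEnt at e1
    simp only [if_true] at e1
    have := (of_mk e1).2.2.1 hs
    push_cast at this
    rw [ht]
    simp only
    linarith
  · intro k hk hg hs
    have e1 := hm _ (mem_verts.2 (Or.inr (Or.inl ⟨0, h.hC, k, hk, fun _ => hg, rfl⟩)))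
    unfold tEnt at e1
    simp only [if_true] at e1
    have := (of_mk e1).2.2.2.1 hs
    push_cast at this
    rw [ht]
    simp only
    linarith
  · intro l hl b hb
    refine ⟨hoff l hl b hb, ?_, ?_⟩
    · rintro ⟨s, a, c⟩ htr
      unfold trRs at htr
      rw [List.mem_flatMap] at htr
      obtain ⟨s', hs, htr⟩ := htr
      split_ifs at htr with hcond
      swap
      · simp at htr
      rw [List.mem_map] at htr
      obtain ⟨p, hp, hp'⟩ := htr
      rw [Prod.mk.injEq] at hp'
      obtain ⟨rfl, rfl⟩ := hp'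
      have hsub := sublist_of_prs hp
      simp only at hsub ⊢
      have ha : a ∈ rl (G.gad l b) s' := hsub.subset (by simp)
      have hc : c ∈ rl (G.gad l b) s' := hsub.subset (by simp)
      have ha0 := ((h.ok l hl b hb).1 _ hs _ ha).1
      have hc0 := ((h.ok l hl b hb).1 _ hs _ hc).1
      refine hcr l hl b hb s' a c hs ha0 hc0 ?_
      rcases ref_cases hs with ⟨i, hi, rfl⟩ | ⟨i, hi, rfl⟩ | ⟨i, hi, rfl⟩
      · -- left port
        have hm' := res_mem_names h (cl := cl) hl hb hs
        rw [res_lp] at hm'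
        have hT : G.hb l b + i < G.N ∧ (l = 0 → G.grp (G.hb l b + i) = G.hb l b + i) := by
          rcases mem_names.1 hm' with h1 | ⟨l', hl', k, hk, h0, h1⟩ |
            ⟨l', hl', b', hb', i', hi', h1⟩
          · unfold root at h1; rw [nm_inj] at h1; omega
          · rw [nm_inj] at h1
            obtain ⟨-, rfl, h2⟩ := h1
            rw [h2]
            exact ⟨hk, h0⟩
          · rw [nm_inj] at h1; omega
        set k := G.hb l b + i with hk
        have hrot := hD.rot _ (mem_verts.2 (Or.inr (Or.inl ⟨l, hl, k, hT.1, hT.2, rfl⟩)))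
        unfold tEnt at hrot
        simp only at hrot
        -- a left neighbour
        have hleft : ∃ x, x ∈ G.tL l k := by
          by_cases hl0 : l = 0
          · exact ⟨root, by unfold tL; rw [if_pos hl0]; simp⟩
          · obtain ⟨l', rfl⟩ : ∃ l', l = l' + 1 := ⟨l - 1, by omega⟩
            obtain ⟨b', hb', i', hi1, hi2⟩ := h.cov l' hl k hT.1
            have hne := (h.ok l' (by omega) b' hb').2.2.2.2.1 i' hi2
            obtain ⟨x, hx⟩ := List.exists_mem_of_ne_nil _ hne
            refine ⟨G.res l' b' x, ?_⟩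
            unfold tL
            rw [if_neg hl0]
            refine List.mem_flatMap.2 ⟨b', List.mem_range.2 hb', ?_⟩
            rw [if_pos (by omega)]
            have e1 : l' + 1 - 1 = l' := by omega
            have e2 : k - b' = i' := by omega
            rw [e1, e2]
            exact List.mem_map.2 ⟨x, hx, rfl⟩
        obtain ⟨x, hx⟩ := hleft
        have hsubR : [G.res l b a, G.res l b c].Sublist (G.tR l k) := by
          have h1 : ([a, c].map (G.res l b)).Sublist ((rl (G.gad l b) (0, i)).map (G.res l b)) :=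
            hsub.map _
          refine h1.trans ?_
          unfold tR
          have h2 := sublist_flatMap (f := fun b' => if G.hb l b' ≤ k then
            (rl (G.gad l b') (0, k - G.hb l b')).map (G.res l b') else [])
            (l := List.range G.N) (List.mem_range.2 hb)
          rw [if_pos (by omega)] at h2
          have e2 : k - G.hb l b = i := by omega
          rw [e2] at h2
          exact h2
        have hsub3 : [x, G.res l b a, G.res l b c].Sublist (G.tL l k ++ G.tR l k) :=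
          (List.singleton_sublist.2 hx).append hsubR
        rw [res_lp]
        exact hrot.right hsub3 (Edir _ _ ((mem_tL h hl hT.1 hT.2).1 hx))
          (Edir _ _ ((mem_tR h hl).1 (hsubR.subset (by simp))))
          (Edir _ _ ((mem_tR h hl).1 (hsubR.subset (by simp))))
      · rw [rl_rp] at ha
        simp at ha
      · have hne : ll (G.gad l b) (2, i) ≠ [] := by
          rcases hcond with h1 | h1
          · simp at h1
          · exact h1
        obtain ⟨x, hx⟩ := List.exists_mem_of_ne_nil _ hne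
        have hw : (G.gad l b).1[i]? = some (G.gad l b).1[i] := List.getElem?_eq_getElem hi
        have hrot := hD.rot _ (mem_verts.2 (Or.inr (Or.inr ⟨l, hl, b, hb, i, _, hw, rfl⟩)))
        unfold iEnt at hrot
        simp only at hrot
        rw [← ll_in hw, ← rl_in hw, List.map_append] at hrot
        have hsub3 : [G.res l b x, G.res l b a, G.res l b c].Sublist
            ((ll (G.gad l b) (2, i)).map (G.res l b) ++
              (rl (G.gad l b) (2, i)).map (G.res l b)) :=
          (List.singleton_sublist.2 (List.mem_map.2 ⟨x, hx, rfl⟩)).append (hsub.map _)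
        obtain ⟨m1, m2, m3⟩ := (h.ok l hl b hb).2.1 _ hs _ hx
        rw [res_in]
        have d1 := dir l hl b hb x (2, i) m1 m3
        have d2 := dir l hl b hb (2, i) a hs ha
        have d3 := dir l hl b hb (2, i) c hs hc
        rw [res_in] at d1 d2 d3
        exact hrot.right hsub3 d1 d2 d3
    · rintro ⟨s, a, c⟩ htr
      unfold trLs at htr
      rw [List.mem_flatMap] at htr
      obtain ⟨s', hs, htr⟩ := htr
      split_ifs at htr with hcond
      swap
      · simp at htr
      rw [List.mem_map] at htr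
      obtain ⟨p, hp, hp'⟩ := htr
      rw [Prod.mk.injEq] at hp'
      obtain ⟨rfl, rfl⟩ := hp'
      have hsub := sublist_of_prs hp
      simp only at hsub ⊢
      have ha : a ∈ ll (G.gad l b) s' := hsub.subset (by simp)
      have hc : c ∈ ll (G.gad l b) s' := hsub.subset (by simp)
      obtain ⟨ha0, ha1, ha2⟩ := (h.ok l hl b hb).2.1 _ hs _ ha
      obtain ⟨hc0, hc1, hc2⟩ := (h.ok l hl b hb).2.1 _ hs _ hc
      refine hcr l hl b hb s' a c hs ha0 hc0 ?_
      obtain ⟨x, hx⟩ := List.exists_mem_of_ne_nil _ hcond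
      rcases ref_cases hs with ⟨i, hi, rfl⟩ | ⟨i, hi, rfl⟩ | ⟨i, hi, rfl⟩
      · rw [ll_lp] at ha
        simp at ha
      · rw [rl_rp] at hx
        simp at hx
      · have hw : (G.gad l b).1[i]? = some (G.gad l b).1[i] := List.getElem?_eq_getElem hi
        have hrot := hD.rot _ (mem_verts.2 (Or.inr (Or.inr ⟨l, hl, b, hb, i, _, hw, rfl⟩)))
        unfold iEnt at hrot
        simp only at hrot
        rw [← ll_in hw, ← rl_in hw, List.map_append] at hrot
        have hsub3 : [G.res l b a, G.res l b c, G.res l b x].Sublist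
            ((ll (G.gad l b) (2, i)).map (G.res l b) ++
              (rl (G.gad l b) (2, i)).map (G.res l b)) :=
          (hsub.map (G.res l b)).append (List.singleton_sublist.2 (List.mem_map.2 ⟨x, hx, rfl⟩))
        rw [res_in]
        have d1 := dir l hl b hb (2, i) x hs hx
        have d2 := dir l hl b hb a (2, i) ha0 ha2
        have d3 := dir l hl b hb c (2, i) hc0 hc2
        rw [res_in] at d1 d2 d3
        exact hrot.left hsub3 d1 d2 d3

end Dia

end Pool.Agent.K4H90.SegDraw
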